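import Pool.Agent.Lib.MP_4a8162_co.Defs

set_option autoImplicit false

namespace Pool.Agent.Lib.MP_4a8162_co

/-- Number of colourings constant on the edges of `A`. -/
theorem card_const {n N : ℕ} {ι : Type*} (en : ι → Fin n × Fin n) (A : Set ι) :
    Nat.card {c : Fin n → Fin N // ∀ e ∈ A, c (en e).1 = c (en e).2} = N ^ cc en A := by
  have e : {c : Fin n → Fin N // ∀ e ∈ A, c (en e).1 = c (en e).2} ≃
      (Quot (edgeRel en A) → Fin N) :=
    { toFun := fun c => Quot.lift c.1 (by
        rintro u v ⟨e, he, hev⟩
        have := c.2 e he
        rw [hev] at this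
        exact this)
      invFun := fun f => ⟨fun v => f (Quot.mk _ v), fun e he =>
        congrArg f (Quot.sound ⟨e, he, rfl⟩)⟩
      left_inv := fun c => rfl
      right_inv := fun f => by
        funext q
        induction q using Quot.ind with
        | mk v => rfl }
  rw [Nat.card_congr e, Nat.card_fun, Nat.card_eq_fintype_card, Fintype.card_fin]
  rfl

private theorem ker_eq (K : Type*) [Field K] {n : ℕ} {ι : Type*} (en : ι → Fin n × Fin n)
    (A : Set ι) [Fintype A] :
    LinearMap.ker (Matrix.of fun x : A => evec K (en x)).mulVecLin =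
      LinearMap.range (LinearMap.funLeft K K (Quot.mk (edgeRel en A))) := by
  have key : ∀ (c : Fin n → K) (x : A),
      (Matrix.of fun x : A => evec K (en x)).mulVecLin c x = c (en x).1 - c (en x).2 := by
    intro c x
    rw [Matrix.mulVecLin_apply, Matrix.mulVec, dotProduct]
    simp only [Matrix.of_apply, evec, Pi.sub_apply, sub_mul, Finset.sum_sub_distrib]
    congr 1
    · rw [Finset.sum_eq_single (en x).1]
      · rw [Pi.single_eq_same, one_mul]
      · intro b _ hb
        rw [Pi.single_eq_of_ne hb, zero_mul]
      · intro h
        exact absurd (Finset.mem_univ _) h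
    · rw [Finset.sum_eq_single (en x).2]
      · rw [Pi.single_eq_same, one_mul]
      · intro b _ hb
        rw [Pi.single_eq_of_ne hb, zero_mul]
      · intro h
        exact absurd (Finset.mem_univ _) h
  ext c
  rw [LinearMap.mem_ker, LinearMap.mem_range]
  constructor
  · intro h
    refine ⟨Quot.lift c ?_, ?_⟩
    · rintro u v ⟨e, he, hev⟩
      have h1 := key c ⟨e, he⟩
      rw [h] at h1
      have h2 : c (en e).1 - c (en e).2 = 0 := h1.symm
      rw [hev] at h2
      exact sub_eq_zero.1 h2
    · funext v
      rfl
  · rintro ⟨f, rfl⟩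
    funext x
    rw [key]
    show f (Quot.mk _ _) - f (Quot.mk _ _) = 0
    rw [sub_eq_zero]
    exact congrArg f (Quot.sound ⟨x.1, x.2, rfl⟩)

/-- Rank of the edge vectors. -/
theorem finrank_edges (K : Type*) [Field K] {n : ℕ} {ι : Type*} (en : ι → Fin n × Fin n)
    (A : Set ι) (hA : A.Finite) :
    Module.finrank K (Submodule.span K (Set.range fun x : A => evec K (en x))) + cc en A = n := by
  classical
  have := hA.fintype
  have : Fintype (Quot (edgeRel en A)) := Fintype.ofFinite _
  have h1 := Matrix.rank_eq_finrank_span_row (Matrix.of fun x : A => evec K (en x))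
  have h3 := LinearMap.finrank_range_add_finrank_ker
    (Matrix.of fun x : A => evec K (en x)).mulVecLin
  have h4 : Module.finrank K (LinearMap.ker
      (Matrix.of fun x : A => evec K (en x)).mulVecLin) = cc en A := by
    rw [ker_eq, LinearMap.finrank_range_of_inj
      (LinearMap.funLeft_injective_of_surjective K K _ Quot.mk_surjective),
      Module.finrank_fintype_fun_eq_card]
    unfold cc
    rw [Nat.card_eq_fintype_card]
  rw [h4, Module.finrank_fintype_fun_eq_card, Fintype.card_fin] at h3
  have h5 : Module.finrank K (Submodule.span K (Set.range fun x : A => evec K (en x))) =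
      Module.finrank K (LinearMap.range (Matrix.of fun x : A => evec K (en x)).mulVecLin) := by
    rw [← Matrix.rank]
    rw [h1]
    rfl
  rw [h5]
  exact h3

/-- Linear independence of the edge vectors does not depend on the field. -/
theorem indep_edges (K : Type*) [Field K] {n : ℕ} {ι : Type*} (en : ι → Fin n × Fin n)
    (A : Set ι) (hA : A.Finite) :
    LinearIndependent K (fun x : A => evec K (en x)) ↔ A.ncard + cc en A = n := by
  have := hA.fintype
  have h1 := finrank_edges K en A hA
  rw [linearIndependent_iff_card_eq_finrank_span, Set.finrank]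
  have h2 : Fintype.card A = A.ncard := by
    rw [← Nat.card_eq_fintype_card, Nat.card_coe_set_eq]
  rw [h2]
  omega

theorem le_card_add_cc {n : ℕ} {ι : Type*} (en : ι → Fin n × Fin n) (A : Finset ι) :
    n ≤ A.card + cc en (A : Set ι) := by
  have h1 := finrank_edges ℚ en (A : Set ι) A.finite_toSet
  have h2 := finrank_range_le_card (R := ℚ) (fun x : (A : Set ι) => evec ℚ (en x))
  rw [Set.finrank] at h2
  have h3 : Fintype.card (A : Set ι) = A.card := by simp
  omega

end Pool.Agent.Lib.MP_4a8162_co
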