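import Pool.Agent.Lib.MP_4a8162_co.Defs

set_option autoImplicit false

namespace Pool.Agent.Lib.MP_4a8162_co

private theorem rks_bdd (M : Matroid ℕ) (X : Set ℕ) (hX : X.Finite) :
    BddAbove {n : ℕ | ∃ I ⊆ X, M.Indep I ∧ I.ncard = n} := by
  refine ⟨X.ncard, ?_⟩
  rintro n ⟨I, hIX, _, rfl⟩
  exact Set.ncard_le_ncard hIX hX

private theorem rks_ge (M : Matroid ℕ) (X : Set ℕ) (hX : X.Finite) (I : Set ℕ) (hI : M.Indep I)
    (hIX : I ⊆ X) : I.ncard ≤ rks M X :=
  le_csSup (rks_bdd M X hX) ⟨I, hIX, hI, rfl⟩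

theorem rks_eq_eRk {M : Matroid ℕ} (hM : M.Finite) (X : Set ℕ) (hX : X.Finite) :
    (rks M X : ℕ∞) = M.eRk X := by
  obtain ⟨I, hI⟩ := M.exists_isBasis' X
  have hfin : I.Finite := hX.subset hI.subset
  have h1 : rks M X = I.ncard := by
    apply le_antisymm
    · refine csSup_le ⟨0, ∅, Set.empty_subset _, M.empty_indep, Set.ncard_empty _⟩ ?_
      rintro n ⟨J, hJX, hJ, rfl⟩
      have h2 := hJ.encard_le_eRk_of_subset hJX
      rw [hI.eRk_eq_encard, ← (hX.subset hJX).cast_ncard_eq, ← hfin.cast_ncard_eq] at h2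
      exact_mod_cast h2
    · exact rks_ge M X hX I hI.indep hI.subset
  rw [h1, hI.eRk_eq_encard, hfin.cast_ncard_eq]

/-- If the characteristic polynomial is not identically zero, then there is no loop. -/
theorem loopless_of_chf_ne_zero {M : Matroid ℕ} (E : Finset ℕ) (hE : (E : Set ℕ) = M.E) (x : ℝ)
    (h : chf M E x ≠ 0) : ∀ e ∈ M.E, M.Indep {e} := by
  intro e he
  by_contra hne
  apply h
  have heE : e ∈ E := by
    rw [← hE] at he
    exact_mod_cast he
  have key : ∀ X : Finset ℕ, rks M ((insert e X : Finset ℕ) : Set ℕ) = rks M (X : Set ℕ) := by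
    intro X
    unfold rks
    congr 1
    ext n
    constructor
    · rintro ⟨I, hIX, hI, hn⟩
      refine ⟨I, ?_, hI, hn⟩
      intro i hi
      have h1 := hIX hi
      rw [Finset.coe_insert] at h1
      rcases h1 with h1 | h1
      · exfalso
        rw [h1] at hi
        exact hne (hI.subset (Set.singleton_subset_iff.2 hi))
      · exact h1
    · rintro ⟨I, hIX, hI, hn⟩
      refine ⟨I, ?_, hI, hn⟩
      rw [Finset.coe_insert]
      exact hIX.trans (Set.subset_insert _ _)
  unfold chf
  rw [← Finset.insert_erase heE, Finset.sum_powerset_insert (Finset.notMem_erase e E),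
    ← Finset.sum_add_distrib]
  refine Finset.sum_eq_zero fun X hX => ?_
  have heX : e ∉ X := fun h1 => Finset.notMem_erase e E (Finset.mem_powerset.1 hX h1)
  rw [key X, Finset.card_insert_of_notMem heX, pow_succ]
  ring

/-- If the characteristic polynomial is negative at `x`, then it has a root greater than `x`. -/
theorem exists_root_of_chf_neg {M : Matroid ℕ} (E : Finset ℕ) (hE : (E : Set ℕ) = M.E) (x : ℝ)
    (h : chf M E x < 0) : ∃ y : ℝ, x < y ∧ chf M E y = 0 := by
  have hl := loopless_of_chf_ne_zero E hE x h.ne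
  have hEfin : M.E.Finite := by
    rw [← hE]
    exact E.finite_toSet
  have hrk : ∀ X ⊆ E, X.Nonempty → 1 ≤ rks M (X : Set ℕ) := by
    rintro X hX ⟨e, he⟩
    have h1 := rks_ge M (X : Set ℕ) X.finite_toSet {e} (hl e (by
      rw [← hE]
      exact_mod_cast hX he)) (Set.singleton_subset_iff.2 (by exact_mod_cast he))
    rwa [Set.ncard_singleton] at h1
  rcases E.eq_empty_or_nonempty with hEe | hEne
  · exfalso
    have h1 : M.E = ∅ := by
      rw [← hE, hEe, Finset.coe_empty]
    rw [hEe] at h
    unfold chf at h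
    rw [Finset.powerset_empty, Finset.sum_singleton, h1, Finset.coe_empty, Nat.sub_self,
      Finset.card_empty, pow_zero, pow_zero, one_mul] at h
    linarith
  · set r := rks M M.E with hr
    have hr1 : 1 ≤ r := by
      have h1 := hrk E (Finset.Subset.refl _) hEne
      rwa [hE] at h1
    have h0 : rks M ((∅ : Finset ℕ) : Set ℕ) = 0 := by
      have h1 : rks M ((∅ : Finset ℕ) : Set ℕ) ≤ 0 := by
        refine csSup_le ⟨0, ∅, Set.empty_subset _, M.empty_indep, Set.ncard_empty _⟩ ?_
        rintro n ⟨J, hJX, hJ, rfl⟩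
        rw [Finset.coe_empty, Set.subset_empty_iff] at hJX
        rw [hJX, Set.ncard_empty]
      omega
    have hcont : Continuous fun y : ℝ => chf M E y := by
      unfold chf
      exact continuous_finsetSum _ fun X _ => continuous_const.mul (continuous_pow _)
    -- lower bound for large `y`
    have hpos : ∀ y : ℝ, (2 : ℝ) ^ E.card < y → 0 < chf M E y := by
      intro y hy
      have hy1 : (1 : ℝ) ≤ y := le_trans (one_le_pow₀ (by norm_num)) hy.le
      have hy0 : (0 : ℝ) < y := lt_of_lt_of_le one_pos hy1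
      have h1 : chf M E y = y ^ r + ∑ X ∈ E.powerset.erase ∅,
          (-1 : ℝ) ^ X.card * y ^ (rks M M.E - rks M (X : Set ℕ)) := by
        unfold chf
        rw [← Finset.add_sum_erase _ _ (Finset.empty_mem_powerset E), h0, Finset.card_empty,
          pow_zero, one_mul, Nat.sub_zero]
      have h2 : -(∑ X ∈ E.powerset.erase ∅, y ^ (r - 1)) ≤ ∑ X ∈ E.powerset.erase ∅,
          (-1 : ℝ) ^ X.card * y ^ (rks M M.E - rks M (X : Set ℕ)) := by
        rw [← Finset.sum_neg_distrib]
        refine Finset.sum_le_sum fun X hX => ?_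
        rw [Finset.mem_erase, Finset.mem_powerset] at hX
        have h3 := hrk X hX.2 (Finset.nonempty_iff_ne_empty.2 hX.1)
        have h4 : y ^ (rks M M.E - rks M (X : Set ℕ)) ≤ y ^ (r - 1) :=
          pow_le_pow_right₀ hy1 (by omega)
        have h5 : (0 : ℝ) < y ^ (rks M M.E - rks M (X : Set ℕ)) := pow_pos hy0 _
        rcases neg_one_pow_eq_or ℝ X.card with h6 | h6
        · rw [h6]
          have : (0 : ℝ) < y ^ (r - 1) := pow_pos hy0 _
          linarith
        · rw [h6]
          linarith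
      rw [Finset.sum_const, nsmul_eq_mul] at h2
      have h3 : ((E.powerset.erase ∅).card : ℝ) ≤ 2 ^ E.card := by
        have h4 : (E.powerset.erase ∅).card ≤ E.powerset.card := Finset.card_erase_le
        rw [Finset.card_powerset] at h4
        exact_mod_cast h4
      have h4 : (0 : ℝ) < y ^ (r - 1) := pow_pos hy0 _
      have h5 : y ^ r = y * y ^ (r - 1) := by
        rw [← pow_succ']
        congr 1
        omega
      have h6 : ((E.powerset.erase ∅).card : ℝ) * y ^ (r - 1) < y * y ^ (r - 1) :=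
        mul_lt_mul_of_pos_right (lt_of_le_of_lt h3 hy) h4
      rw [h1, h5]
      linarith
    set y : ℝ := max x (2 ^ E.card) + 1 with hy
    have hxy : x < y := lt_of_le_of_lt (le_max_left _ _) (lt_add_one _)
    have hy2 : (2 : ℝ) ^ E.card < y := lt_of_le_of_lt (le_max_right _ _) (lt_add_one _)
    obtain ⟨c, hc, hc0⟩ := intermediate_value_Icc hxy.le hcont.continuousOn
      (show (0 : ℝ) ∈ Set.Icc (chf M E x) (chf M E y) from ⟨h.le, (hpos y hy2).le⟩)
    refine ⟨c, lt_of_le_of_ne hc.1 ?_, hc0⟩
    rintro rfl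
    exact h.ne hc0

end Pool.Agent.Lib.MP_4a8162_co
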