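import Pool.Agent.Lib.MP_4a8162_co.MatBase
import Pool.Agent.Lib.MP_4a8162_co.Root

set_option autoImplicit false

namespace Pool.Agent.Lib.MP_4a8162_co

private theorem cc_le {n : ℕ} (es : List (Fin n × Fin n)) (A : Finset (Fin es.length)) :
    cc es.get (A : Set (Fin es.length)) ≤ n := by
  have := finrank_edges ℚ es.get (A : Set (Fin es.length)) A.finite_toSet
  omega

/-- The characteristic polynomial of the dual of a graphic matroid is the flow polynomial. -/
theorem chf_dual {n : ℕ} (es : List (Fin n × Fin n)) (M : Matroid ℕ)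
    (hE : M.E = {i | i < es.length})
    (hr : ∀ A : Finset (Fin es.length),
        M.eRk ((fun i : Fin es.length => (i : ℕ)) '' (A : Set (Fin es.length)))
          = ((n - cc es.get (A : Set (Fin es.length)) : ℕ) : ℕ∞)) (x : ℚ) :
    chf M.dual (Finset.range es.length) (x : ℝ) = (((FP es).eval x : ℚ) : ℝ) := by
  classical
  have hfin : M.Finite := ⟨by rw [hE]; exact Set.finite_lt_nat _⟩
  have hd : M.dual.Finite := inferInstance
  obtain ⟨sX, hsX⟩ : ∃ sX : Finset (Fin es.length) → Finset ℕ,
      sX = fun A => (Aᶜ).map Fin.valEmbedding := ⟨_, rfl⟩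
  have hsub : ∀ A, (sX A : Set ℕ) ⊆ M.E := by
    intro A i hi
    rw [hsX] at hi
    simp only [Finset.coe_map, Set.mem_image, Finset.mem_coe] at hi
    obtain ⟨j, -, rfl⟩ := hi
    rw [hE]
    exact j.2
  have hdiff : ∀ A, M.E \ (sX A : Set ℕ) =
      (fun i : Fin es.length => (i : ℕ)) '' (A : Set (Fin es.length)) := by
    intro A
    ext i
    rw [hsX, hE]
    simp only [Set.mem_sdiff, Set.mem_ofPred_eq, Finset.coe_map, Set.mem_image, Finset.mem_coe,
      Finset.mem_compl, Fin.valEmbedding_apply, not_exists, not_and]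
    constructor
    · rintro ⟨h1, h2⟩
      refine ⟨⟨i, h1⟩, ?_, rfl⟩
      by_contra h3
      exact h2 ⟨i, h1⟩ h3 rfl
    · rintro ⟨j, hj, rfl⟩
      refine ⟨j.2, fun k hk hkj => hk ?_⟩
      rwa [Fin.ext hkj]
  have hcard : ∀ A, (sX A).card = es.length - A.card := by
    intro A
    rw [hsX]
    simp only [Finset.card_map, Finset.card_compl, Fintype.card_fin]
  have hcA : ∀ A : Finset (Fin es.length), A.card ≤ es.length := by
    intro A
    simpa using A.card_le_univ
  obtain ⟨r, hrr⟩ : ∃ r : ℕ, M.eRank = (r : ℕ∞) := by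
    have h1 := hr Finset.univ
    have h2 : (fun i : Fin es.length => (i : ℕ)) ''
        ((Finset.univ : Finset (Fin es.length)) : Set (Fin es.length)) = M.E := by
      have h3 := hdiff Finset.univ
      rw [← h3, hsX]
      simp
    rw [h2] at h1
    exact ⟨_, (M.eRk_ground).symm.trans h1⟩
  have hrank : ∀ A : Finset (Fin es.length), rks M.dual (sX A : Set ℕ) + r =
      (n - cc es.get (A : Set (Fin es.length))) + (es.length - A.card) := by
    intro A
    have h1 := M.eRk_dual_add_eRank (sX A : Set ℕ) (hsub A)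
    rw [hdiff, hr, hrr, Set.encard_coe_eq_coe_finsetCard, hcard] at h1
    have h2 : M.dual.eRk (sX A : Set ℕ) = (rks M.dual (sX A : Set ℕ) : ℕ∞) :=
      (rks_eq_eRk hd _ (sX A).finite_toSet).symm
    rw [h2] at h1
    exact_mod_cast h1
  have hE2 : M.dual.E = (sX ∅ : Set ℕ) := by
    rw [Matroid.dual_ground, hE, hsX]
    ext i
    simp only [Set.mem_ofPred_eq, Finset.coe_map, Set.mem_image, Finset.mem_coe,
      Finset.mem_compl, Finset.notMem_empty, not_false_eq_true, true_and,
      Fin.valEmbedding_apply]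
    exact ⟨fun h => ⟨⟨i, h⟩, rfl⟩, fun ⟨j, hj⟩ => hj ▸ j.2⟩
  have hexp : ∀ A : Finset (Fin es.length),
      rks M.dual M.dual.E - rks M.dual (sX A : Set ℕ) =
        A.card + cc es.get (A : Set (Fin es.length)) - n := by
    intro A
    have h1 := hrank A
    have h2 := hrank ∅
    rw [hE2]
    have h3 := le_card_add_cc es.get (∅ : Finset (Fin es.length))
    have h4 := cc_le es A
    have h5 := hcA A
    rw [Finset.card_empty] at h3
    simp only [Finset.card_empty, Nat.sub_zero] at h2
    have h6 : n - cc es.get ((∅ : Finset (Fin es.length)) : Set (Fin es.length)) = 0 := by omega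
    rw [h6] at h2
    omega
  unfold chf FP
  rw [Polynomial.eval_finsetSum]
  push_cast
  symm
  refine Finset.sum_bij (fun A _ => sX A) ?_ ?_ ?_ ?_
  · intro A _
    rw [Finset.mem_powerset]
    intro i hi
    have := hsub A hi
    rw [hE] at this
    exact Finset.mem_range.2 this
  · intro A _ B _ hAB
    rw [hsX] at hAB
    have := Finset.map_injective _ hAB
    exact compl_injective this
  · intro X hX
    rw [Finset.mem_powerset] at hX
    refine ⟨Finset.univ.filter fun i => (i : ℕ) ∉ X, Finset.mem_univ _, ?_⟩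
    rw [hsX]
    ext i
    simp only [Finset.mem_map, Finset.mem_compl, Finset.mem_filter, Finset.mem_univ, true_and,
      not_not, Fin.valEmbedding_apply]
    constructor
    · rintro ⟨j, hj, rfl⟩
      exact hj
    · intro hi
      exact ⟨⟨i, Finset.mem_range.1 (hX hi)⟩, hi, rfl⟩
  · intro A _
    rw [hcard, hexp]
    simp only [Polynomial.eval_mul, Polynomial.eval_pow, Polynomial.eval_neg,
      Polynomial.eval_one, Polynomial.eval_X]
    push_cast
    rfl

end Pool.Agent.Lib.MP_4a8162_co
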