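import Pool.Agent.Lib.MP_4a8162_co.Root

set_option autoImplicit false

namespace Pool.Agent.Lib.MP_4a8162_co

private theorem pow_mem_sg (S : Set ℝ) (hmul : ∀ x ∈ S, ∀ y ∈ S, x * y ∈ S) (x : ℝ) (hx : x ∈ S)
    (n : ℕ) (hn : 1 ≤ n) : x ^ n ∈ S := by
  induction n, hn using Nat.le_induction with
  | base => rwa [pow_one]
  | succ n _ ih =>
    rw [pow_succ]
    exact hmul _ ih _ hx

/-- A multiplicative semigroup of reals which contains some `q > 1` and an interval contains a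
half-line. -/
theorem semigroup_cover (S : Set ℝ) (hmul : ∀ x ∈ S, ∀ y ∈ S, x * y ∈ S) (q : ℝ) (hq : 1 < q)
    (hqS : q ∈ S) (a b : ℝ) (ha : 0 < a) (hab : a < b) (hI : Set.Ioo a b ⊆ S) :
    ∃ c : ℝ, 1 ≤ c ∧ Set.Ioi c ⊆ S := by
  set a' : ℝ := (a + b) / 2 with ha'
  have h1 : a < a' := by rw [ha']; linarith
  have h2 : a' < b := by rw [ha']; linarith
  have h0 : 0 < a' := ha.trans h1
  have hb : 0 < b := h0.trans h2
  have hba : 1 < b / a' := (one_lt_div h0).2 h2
  obtain ⟨n, hn⟩ := pow_unbounded_of_one_lt q hba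
  have hn1 : 1 ≤ n := by
    by_contra h
    have h3 : n = 0 := by omega
    rw [h3, pow_zero] at hn
    linarith
  have hqn : q * a' ^ n < b ^ n := by
    rw [div_pow, lt_div_iff₀ (pow_pos h0 n)] at hn
    exact hn
  have hcov : ∀ z : ℝ, a' ^ n ≤ z → z < b ^ n → z ∈ S := by
    intro z hz1 hz2
    have hz0 : 0 ≤ z := (pow_pos h0 n).le.trans hz1
    have hn0 : (n : ℝ) ≠ 0 := by
      exact_mod_cast (show n ≠ 0 by omega)
    have e1 : (z ^ ((n : ℝ)⁻¹)) ^ n = z := Real.rpow_inv_natCast_pow hz0 (by omega)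
    have e2 : a' ≤ z ^ ((n : ℝ)⁻¹) := by
      by_contra h
      push Not at h
      have h3 : (z ^ ((n : ℝ)⁻¹)) ^ n < a' ^ n :=
        pow_lt_pow_left₀ h (Real.rpow_nonneg hz0 _) (by omega)
      rw [e1] at h3
      linarith
    have e3 : z ^ ((n : ℝ)⁻¹) < b := by
      by_contra h
      push Not at h
      have h3 : b ^ n ≤ (z ^ ((n : ℝ)⁻¹)) ^ n := pow_le_pow_left₀ hb.le h n
      rw [e1] at h3
      linarith
    rw [← e1]
    exact pow_mem_sg S hmul _ (hI ⟨h1.trans_le e2, e3⟩) n hn1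
  refine ⟨max 1 (a' ^ n), le_max_left _ _, fun z hz => ?_⟩
  have hz : max 1 (a' ^ n) < z := hz
  have hz1 : a' ^ n < z := lt_of_le_of_lt (le_max_right _ _) hz
  have hpn := pow_pos h0 n
  have hz2 : 1 ≤ z / a' ^ n := (one_le_div hpn).2 hz1.le
  obtain ⟨k, hk1, hk2⟩ := exists_nat_pow_near hz2 hq
  have hq0 : (0 : ℝ) < q := by linarith
  have hqk : (0 : ℝ) < q ^ k := pow_pos hq0 k
  rw [le_div_iff₀ hpn] at hk1
  rw [div_lt_iff₀ hpn] at hk2
  have h3 : z / q ^ k ∈ S := by
    apply hcov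
    · rw [le_div_iff₀ hqk]
      linarith
    · refine lt_of_lt_of_le ?_ hqn.le
      rw [div_lt_iff₀ hqk]
      calc z < q ^ (k + 1) * a' ^ n := hk2
        _ = q * a' ^ n * q ^ k := by ring
  rcases Nat.eq_zero_or_pos k with hk | hk
  · rw [hk, pow_zero, div_one] at h3
    exact h3
  · have h4 := hmul _ h3 _ (pow_mem_sg S hmul q hqS k hk)
    rwa [div_mul_cancel₀ _ hqk.ne'] at h4

private theorem rks_one_le {M : Matroid ℕ} (E : Finset ℕ) (hE : (E : Set ℕ) = M.E)
    (hl : ∀ e ∈ M.E, M.Indep {e}) (X : Finset ℕ) (hX : X ⊆ E) (hne : X.Nonempty) :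
    1 ≤ rks M (X : Set ℕ) := by
  obtain ⟨e, he⟩ := hne
  have heE : e ∈ M.E := by
    rw [← hE]
    exact_mod_cast hX he
  have hb : BddAbove {n : ℕ | ∃ I ⊆ (X : Set ℕ), M.Indep I ∧ I.ncard = n} := by
    refine ⟨(X : Set ℕ).ncard, ?_⟩
    rintro n ⟨I, hIX, _, rfl⟩
    exact Set.ncard_le_ncard hIX X.finite_toSet
  exact le_csSup hb ⟨{e}, Set.singleton_subset_iff.2 (by exact_mod_cast he), hl e heE,
    Set.ncard_singleton e⟩

/-- The characteristic polynomial of a loopless matroid has finitely many zeros. -/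
theorem chf_zeros_finite {M : Matroid ℕ} (E : Finset ℕ) (hE : (E : Set ℕ) = M.E)
    (hl : ∀ e ∈ M.E, M.Indep {e}) : {x : ℝ | chf M E x = 0}.Finite := by
  classical
  let P : Polynomial ℝ := ∑ X ∈ E.powerset, Polynomial.C ((-1 : ℝ) ^ X.card) *
    Polynomial.X ^ (rks M M.E - rks M (X : Set ℕ))
  have hev : ∀ x : ℝ, P.eval x = chf M E x := by
    intro x
    show (∑ X ∈ E.powerset, Polynomial.C ((-1 : ℝ) ^ X.card) *
      Polynomial.X ^ (rks M M.E - rks M (X : Set ℕ))).eval x = chf M E x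
    unfold chf
    rw [Polynomial.eval_finsetSum]
    refine Finset.sum_congr rfl fun X _ => ?_
    rw [Polynomial.eval_mul, Polynomial.eval_C, Polynomial.eval_pow, Polynomial.eval_X]
  have h0 : rks M ((∅ : Finset ℕ) : Set ℕ) = 0 := by
    have h1 : rks M ((∅ : Finset ℕ) : Set ℕ) ≤ 0 := by
      refine csSup_le ⟨0, ∅, Set.empty_subset _, M.empty_indep, Set.ncard_empty _⟩ ?_
      rintro n ⟨J, hJX, hJ, rfl⟩
      rw [Finset.coe_empty, Set.subset_empty_iff] at hJX
      rw [hJX, Set.ncard_empty]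
    omega
  have hco : P.coeff (rks M M.E) = 1 := by
    show (∑ X ∈ E.powerset, Polynomial.C ((-1 : ℝ) ^ X.card) *
      Polynomial.X ^ (rks M M.E - rks M (X : Set ℕ))).coeff (rks M M.E) = 1
    rw [Polynomial.finsetSum_coeff, Finset.sum_eq_single ∅]
    · rw [Polynomial.coeff_C_mul, Polynomial.coeff_X_pow, h0, Nat.sub_zero, if_pos rfl,
        Finset.card_empty, pow_zero, one_mul]
    · intro X hX hne
      rw [Polynomial.coeff_C_mul, Polynomial.coeff_X_pow, if_neg, mul_zero]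
      have h1 := rks_one_le E hE hl X (Finset.mem_powerset.1 hX)
        (Finset.nonempty_iff_ne_empty.2 hne)
      have h2 := rks_one_le E hE hl E (Finset.Subset.refl _)
        ((Finset.nonempty_iff_ne_empty.2 hne).mono (Finset.mem_powerset.1 hX))
      rw [hE] at h2
      omega
    · intro h
      exact absurd (Finset.empty_mem_powerset E) h
  have hne : P ≠ 0 := by
    intro h
    rw [h, Polynomial.coeff_zero] at hco
    exact zero_ne_one hco
  refine (Polynomial.finite_setOfPred_isRoot hne).subset fun x hx => ?_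
  show P.IsRoot x
  rw [Polynomial.IsRoot.def, hev x]
  exact hx

end Pool.Agent.Lib.MP_4a8162_co
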