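import Pool.Agent.Lib.MP_4a8162_co.Root

set_option autoImplicit false

namespace Pool.Agent.Lib.MP_4a8162_co

namespace D2

open Module

theorem finrank_span_indep (F : Type) [Field F] {n : ℕ} (v : ℕ → (Fin n → F)) {I : Set ℕ}
    (hI : I.Finite) (h : LinearIndependent F (fun x : I => v x)) :
    finrank F (Submodule.span F (v '' I)) = I.ncard := by
  haveI : Fintype I := hI.fintype
  have h1 := finrank_span_eq_card h
  have h2 : Set.range (fun x : I => v x) = v '' I := by
    ext y
    simp
  rw [h2] at h1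
  rw [h1, Set.ncard_eq_toFinset_card I hI, ← Set.toFinset_card]
  congr 1
  ext x
  simp

theorem rks_eq_finrank (F : Type) [Field F] {M : Matroid ℕ} {n : ℕ} (v : ℕ → (Fin n → F))
    (h : ∀ I : Set ℕ, M.Indep I ↔ (I ⊆ M.E ∧ LinearIndependent F (fun x : I => v x)))
    (X : Set ℕ) (hX : X.Finite) (hXE : X ⊆ M.E) :
    rks M X = finrank F (Submodule.span F (v '' X)) := by
  apply le_antisymm
  · refine csSup_le ⟨0, ∅, Set.empty_subset _, M.empty_indep, Set.ncard_empty _⟩ ?_
    rintro m ⟨J, hJX, hJ, rfl⟩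
    rw [← finrank_span_indep F v (hX.subset hJX) ((h J).1 hJ).2]
    exact Submodule.finrank_mono (Submodule.span_mono (Set.image_mono hJX))
  · obtain ⟨I, hIX, -, hspan, hind⟩ := exists_linearIndepOn_extension
      (linearIndepOn_empty F v) (Set.empty_subset X)
    have hI : M.Indep I := (h I).2 ⟨hIX.trans hXE, hind⟩
    have h1 : finrank F (Submodule.span F (v '' X)) ≤ I.ncard := by
      rw [← finrank_span_indep F v (hX.subset hIX) hind]
      exact Submodule.finrank_mono (Submodule.span_le.2 hspan)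
    refine h1.trans (le_csSup ⟨X.ncard, ?_⟩ ⟨I, hIX, hI, rfl⟩)
    rintro m ⟨J, hJX, _, rfl⟩
    exact Set.ncard_le_ncard hJX hX

theorem card_ann (F : Type) [Field F] [Fintype F] {n : ℕ} (v : ℕ → (Fin n → F)) (X : Set ℕ) :
    Nat.card {φ : Dual F (Fin n → F) // ∀ e ∈ X, φ (v e) = 0} =
      Fintype.card F ^ (n - finrank F (Submodule.span F (v '' X))) := by
  have h1 : Nat.card {φ : Dual F (Fin n → F) // ∀ e ∈ X, φ (v e) = 0} =
      Nat.card (Submodule.span F (v '' X)).dualAnnihilator := by
    refine Nat.card_congr (Equiv.subtypeEquivRight fun φ => ?_)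
    rw [Submodule.mem_dualAnnihilator]
    constructor
    · intro hφ w hw
      induction hw using Submodule.span_induction with
      | mem x hx =>
        obtain ⟨e, he, rfl⟩ := hx
        exact hφ e he
      | zero => exact map_zero φ
      | add a b _ _ ha hb => rw [map_add, ha, hb, add_zero]
      | smul c a _ ha => rw [map_smul, ha, smul_zero]
    · intro hφ e he
      exact hφ _ (Submodule.subset_span ⟨e, he, rfl⟩)
  rw [h1, Module.natCard_eq_pow_finrank (K := F), Nat.card_eq_fintype_card]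
  congr 1
  have h2 := Subspace.finrank_add_finrank_dualAnnihilator_eq (Submodule.span F (v '' X))
  rw [Module.finrank_fin_fun] at h2
  omega

end D2

/-- The critical problem: at the order of the field the characteristic polynomial of a
represented matroid counts functionals. -/
theorem chf_card_nonneg (F : Type) [Field F] [Fintype F] {M : Matroid ℕ} (E : Finset ℕ)
    (hE : (E : Set ℕ) = M.E) {n : ℕ} (v : ℕ → (Fin n → F))
    (h : ∀ I : Set ℕ, M.Indep I ↔ (I ⊆ M.E ∧ LinearIndependent F (fun x : I => v x))) :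
    0 ≤ chf M E (Fintype.card F : ℝ) := by
  classical
  haveI : Finite (Module.Dual F (Fin n → F)) := Module.finite_of_finite F
  haveI : Fintype (Module.Dual F (Fin n → F)) := Fintype.ofFinite _
  have hq : (0 : ℝ) < (Fintype.card F : ℝ) := by
    exact_mod_cast Fintype.card_pos
  set q : ℝ := (Fintype.card F : ℝ) with hqdef
  have hrE : rks M M.E ≤ n := by
    rw [D2.rks_eq_finrank F v h M.E (by rw [← hE]; exact E.finite_toSet) (Set.Subset.refl _)]
    exact (Submodule.finrank_le _).trans (by rw [Module.finrank_fin_fun])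
  have hterm : ∀ X ∈ E.powerset, q ^ (n - rks M M.E) *
      ((-1 : ℝ) ^ X.card * q ^ (rks M M.E - rks M (X : Set ℕ))) =
      ∑ φ : Module.Dual F (Fin n → F),
        (if ∀ e ∈ X, φ (v e) = 0 then ((-1 : ℤ) ^ X.card : ℤ) else (0 : ℤ) : ℤ) := by
    intro X hX
    have hXE : (X : Set ℕ) ⊆ M.E := by
      rw [← hE]
      exact_mod_cast Finset.mem_powerset.1 hX
    have hle : rks M (X : Set ℕ) ≤ rks M M.E := by
      rw [D2.rks_eq_finrank F v h X X.finite_toSet hXE,
        D2.rks_eq_finrank F v h M.E (by rw [← hE]; exact E.finite_toSet) (Set.Subset.refl _)]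
      exact Submodule.finrank_mono (Submodule.span_mono (Set.image_mono hXE))
    have h1 : (∑ φ : Module.Dual F (Fin n → F),
        (if ∀ e ∈ X, φ (v e) = 0 then ((-1 : ℤ) ^ X.card : ℤ) else (0 : ℤ) : ℤ)) =
        (-1 : ℤ) ^ X.card * (Fintype.card F : ℤ) ^ (n - rks M (X : Set ℕ)) := by
      rw [← Finset.sum_filter, Finset.sum_const, nsmul_eq_mul, mul_comm]
      congr 1
      have h2 := D2.card_ann F v (X : Set ℕ)
      rw [← D2.rks_eq_finrank F v h X X.finite_toSet hXE, Nat.card_eq_fintype_card,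
        Fintype.card_subtype] at h2
      exact_mod_cast h2
    rw [h1]
    push_cast
    have h3 : n - rks M (X : Set ℕ) = (n - rks M M.E) + (rks M M.E - rks M (X : Set ℕ)) := by
      omega
    rw [h3, pow_add]
    ring
  have hsum : q ^ (n - rks M M.E) * chf M E q =
      ((∑ φ : Module.Dual F (Fin n → F), ∑ X ∈ E.powerset,
        (if ∀ e ∈ X, φ (v e) = 0 then ((-1 : ℤ) ^ X.card : ℤ) else (0 : ℤ) : ℤ) : ℤ) : ℝ) := by
    unfold chf
    rw [Finset.mul_sum, Finset.sum_congr rfl hterm, Finset.sum_comm]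
    push_cast
    rfl
  have hnn : (0 : ℤ) ≤ ∑ φ : Module.Dual F (Fin n → F), ∑ X ∈ E.powerset,
        (if ∀ e ∈ X, φ (v e) = 0 then ((-1 : ℤ) ^ X.card : ℤ) else (0 : ℤ) : ℤ) := by
    refine Finset.sum_nonneg fun φ _ => ?_
    have h1 : ∑ X ∈ E.powerset,
        (if ∀ e ∈ X, φ (v e) = 0 then ((-1 : ℤ) ^ X.card : ℤ) else (0 : ℤ) : ℤ) =
        ∑ X ∈ (E.filter fun e => φ (v e) = 0).powerset, (-1 : ℤ) ^ X.card := by
      rw [← Finset.sum_filter]
      refine Finset.sum_congr ?_ fun _ _ => rfl
      ext X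
      rw [Finset.mem_filter, Finset.mem_powerset, Finset.mem_powerset]
      constructor
      · rintro ⟨h1, h2⟩ e he
        exact Finset.mem_filter.2 ⟨h1 he, h2 e he⟩
      · intro h1
        exact ⟨fun e he => (Finset.mem_filter.1 (h1 he)).1,
          fun e he => (Finset.mem_filter.1 (h1 he)).2⟩
    rw [h1, Finset.sum_powerset_neg_one_pow_card]
    split_ifs <;> norm_num
  have hfin : 0 ≤ q ^ (n - rks M M.E) * chf M E q := by
    rw [hsum]
    exact_mod_cast hnn
  by_contra hneg
  push Not at hneg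
  have : q ^ (n - rks M M.E) * chf M E q < 0 := mul_neg_of_pos_of_neg (pow_pos hq _) hneg
  linarith

end Pool.Agent.Lib.MP_4a8162_co
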