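import Pool.Agent.Lib.MP_4a8162_co.Root

set_option autoImplicit false

namespace Pool.Agent.Lib.MP_4a8162_co

private theorem dm_bdd (M : Matroid ℕ) (X : Set ℕ) (hX : X.Finite) :
    BddAbove {n : ℕ | ∃ I ⊆ X, M.Indep I ∧ I.ncard = n} := by
  refine ⟨X.ncard, ?_⟩
  rintro n ⟨I, hIX, _, rfl⟩
  exact Set.ncard_le_ncard hIX hX

private theorem dm_ge (M : Matroid ℕ) (X : Set ℕ) (hX : X.Finite) (I : Set ℕ) (hI : M.Indep I)
    (hIX : I ⊆ X) : I.ncard ≤ rks M X :=
  le_csSup (dm_bdd M X hX) ⟨I, hIX, hI, rfl⟩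

private theorem dm_le (M : Matroid ℕ) (X : Set ℕ) (k : ℕ)
    (h : ∀ I ⊆ X, M.Indep I → I.ncard ≤ k) : rks M X ≤ k := by
  refine csSup_le ⟨0, ∅, Set.empty_subset _, M.empty_indep, Set.ncard_empty _⟩ ?_
  rintro n ⟨J, hJX, hJ, rfl⟩
  exact h J hJX hJ

private theorem dm_mono (M : Matroid ℕ) (X Y : Set ℕ) (hY : Y.Finite) (h : X ⊆ Y) :
    rks M X ≤ rks M Y :=
  dm_le M X _ fun I hI hI' => dm_ge M Y hY I hI' (hI.trans h)

private theorem dm_basis (M : Matroid ℕ) (X I : Set ℕ) (hX : X.Finite) (hI : M.IsBasis' I X) :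
    rks M X = I.ncard := by
  apply le_antisymm
  · apply dm_le
    intro J hJX hJ
    have h2 := hJ.encard_le_eRk_of_subset hJX
    rw [hI.eRk_eq_encard, ← (hX.subset hJX).cast_ncard_eq,
      ← (hX.subset hI.subset).cast_ncard_eq] at h2
    exact_mod_cast h2
  · exact dm_ge M X hX I hI.indep hI.subset

private theorem dm_contract (M : Matroid ℕ) (G B : Set ℕ) (hG : G.Finite) (hB : B.Finite)
    (hd : Disjoint G B) : rks (M.contract G) B = rks M (G ∪ B) - rks M G := by
  obtain ⟨I, hI⟩ := M.exists_isBasis' G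
  have hIf : I.Finite := hG.subset hI.subset
  have hr := dm_basis M G I hG hI
  obtain ⟨K, hK, hIK⟩ := hI.indep.subset_isBasis'_of_subset
    (hI.subset.trans (Set.subset_union_left (t := B)))
  have hKf : K.Finite := (hG.union hB).subset hK.subset
  have hr2 := dm_basis M (G ∪ B) K (hG.union hB) hK
  rw [hr, hr2]
  apply le_antisymm
  · apply dm_le
    intro J hJB hJ
    rw [hI.contract_indep_iff] at hJ
    have hJf : J.Finite := hB.subset hJB
    have h1 := dm_ge M (G ∪ B) (hG.union hB) (J ∪ I) hJ.1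
      (Set.union_subset (hJB.trans Set.subset_union_right) (hI.subset.trans Set.subset_union_left))
    have h2 : Disjoint J I := (Set.disjoint_of_subset hI.subset hJB hd).symm
    rw [Set.ncard_union_eq h2 hJf hIf, hr2] at h1
    omega
  · have hKG : K ∩ G = I := by
      symm
      refine hI.eq_of_subset_indep (hK.indep.subset Set.inter_subset_left) ?_
        Set.inter_subset_right
      exact Set.subset_inter hIK hI.subset
    have h1 : K \ I ⊆ B := by
      intro e he
      rcases hK.subset he.1 with h | h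
      · exact absurd (hKG ▸ ⟨he.1, h⟩ : e ∈ I) he.2
      · exact h
    have h2 : (M.contract G).Indep (K \ I) := by
      rw [hI.contract_indep_iff, Set.sdiff_union_of_subset hIK]
      exact ⟨hK.indep, Set.disjoint_of_subset_right h1 hd⟩
    have h3 := dm_ge (M.contract G) B hB (K \ I) h2 h1
    rwa [Set.ncard_sdiff hIK hIf] at h3

private theorem dm_delete (M : Matroid ℕ) (D A : Set ℕ) (h : Disjoint A D) :
    rks (M.delete D) A = rks M A := by
  unfold rks
  congr 1
  ext n
  constructor
  · rintro ⟨I, hIX, hI, hn⟩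
    rw [Matroid.delete_indep_iff] at hI
    exact ⟨I, hIX, hI.1, hn⟩
  · rintro ⟨I, hIX, hI, hn⟩
    refine ⟨I, hIX, ?_, hn⟩
    rw [Matroid.delete_indep_iff]
    exact ⟨hI, Set.disjoint_of_subset_left hIX h⟩

private theorem dm_inner (E A D : Finset ℕ) (hD : D ⊆ E) :
    (∑ G ∈ E.powerset, if A ⊆ G ∧ G ⊆ D then (-1 : ℝ) ^ (D \ G).card else 0) =
      if A = D then 1 else 0 := by
  by_cases hAD : A ⊆ D
  · rw [← Finset.sum_filter]
    have h1 : (∑ G ∈ E.powerset.filter (fun G => A ⊆ G ∧ G ⊆ D), (-1 : ℝ) ^ (D \ G).card) =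
        ∑ T ∈ (D \ A).powerset, (-1 : ℝ) ^ T.card := by
      refine Finset.sum_nbij' (fun G => D \ G) (fun T => D \ T) ?_ ?_ ?_ ?_ ?_
      · intro G hG
        rw [Finset.mem_filter] at hG
        rw [Finset.mem_powerset]
        exact Finset.sdiff_subset_sdiff (Finset.Subset.refl _) hG.2.1
      · intro T hT
        rw [Finset.mem_powerset] at hT
        rw [Finset.mem_filter, Finset.mem_powerset]
        refine ⟨Finset.sdiff_subset.trans hD, ?_, Finset.sdiff_subset⟩
        intro a ha
        rw [Finset.mem_sdiff]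
        refine ⟨hAD ha, fun h => ?_⟩
        exact (Finset.mem_sdiff.1 (hT h)).2 ha
      · intro G hG
        rw [Finset.mem_filter] at hG
        exact Finset.sdiff_sdiff_eq_self hG.2.2
      · intro T hT
        rw [Finset.mem_powerset] at hT
        exact Finset.sdiff_sdiff_eq_self (hT.trans Finset.sdiff_subset)
      · intro G _
        rfl
    rw [h1]
    have h2 := Finset.sum_powerset_neg_one_pow_card (x := D \ A)
    have h3 : (∑ T ∈ (D \ A).powerset, (-1 : ℝ) ^ T.card) =
        ((∑ T ∈ (D \ A).powerset, (-1 : ℤ) ^ T.card : ℤ) : ℝ) := by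
      push_cast
      rfl
    rw [h3, h2]
    by_cases hE : A = D
    · rw [if_pos hE, if_pos (by rw [hE, Finset.sdiff_self])]
      simp
    · rw [if_neg hE, if_neg]
      · simp
      · intro h
        rw [Finset.sdiff_eq_empty_iff_subset] at h
        exact hE (Finset.Subset.antisymm hAD h)
  · rw [if_neg (show ¬ A = D from fun h => hAD (h ▸ Finset.Subset.refl A))]
    refine Finset.sum_eq_zero fun G _ => ?_
    rw [if_neg]
    exact fun h => hAD (h.1.trans h.2)

private theorem dm_key (E : Finset ℕ) (f g : Finset ℕ → ℝ) :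
    ∑ G ∈ E.powerset, (∑ A ∈ G.powerset, (-1 : ℝ) ^ A.card * f A) *
      (∑ B ∈ (E \ G).powerset, (-1 : ℝ) ^ B.card * g (G ∪ B)) =
      ∑ A ∈ E.powerset, (-1 : ℝ) ^ A.card * (f A * g A) := by
  have h1 : ∀ G ∈ E.powerset, (∑ A ∈ G.powerset, (-1 : ℝ) ^ A.card * f A) *
      (∑ B ∈ (E \ G).powerset, (-1 : ℝ) ^ B.card * g (G ∪ B)) =
      ∑ A ∈ E.powerset, ∑ D ∈ E.powerset, ((-1 : ℝ) ^ A.card * f A * g D) *
        (if A ⊆ G ∧ G ⊆ D then (-1 : ℝ) ^ (D \ G).card else 0) := by
    intro G hG
    rw [Finset.mem_powerset] at hG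
    have h2 : (∑ A ∈ G.powerset, (-1 : ℝ) ^ A.card * f A) =
        ∑ A ∈ E.powerset, if A ⊆ G then (-1 : ℝ) ^ A.card * f A else 0 := by
      rw [← Finset.sum_filter]
      refine Finset.sum_congr ?_ fun _ _ => rfl
      ext A
      rw [Finset.mem_filter, Finset.mem_powerset, Finset.mem_powerset]
      exact ⟨fun h => ⟨h.trans hG, h⟩, fun h => h.2⟩
    have h3 : (∑ B ∈ (E \ G).powerset, (-1 : ℝ) ^ B.card * g (G ∪ B)) =
        ∑ D ∈ E.powerset, if G ⊆ D then (-1 : ℝ) ^ (D \ G).card * g D else 0 := by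
      rw [← Finset.sum_filter]
      refine Finset.sum_nbij' (fun B => G ∪ B) (fun D => D \ G) ?_ ?_ ?_ ?_ ?_
      · intro B hB
        rw [Finset.mem_powerset] at hB
        rw [Finset.mem_filter, Finset.mem_powerset]
        exact ⟨Finset.union_subset hG (hB.trans Finset.sdiff_subset), Finset.subset_union_left⟩
      · intro D hD
        rw [Finset.mem_filter, Finset.mem_powerset] at hD
        rw [Finset.mem_powerset]
        exact Finset.sdiff_subset_sdiff hD.1 (Finset.Subset.refl _)
      · intro B hB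
        rw [Finset.mem_powerset] at hB
        rw [Finset.union_sdiff_cancel_left]
        rw [Finset.disjoint_left]
        intro a ha hb
        exact (Finset.mem_sdiff.1 (hB hb)).2 ha
      · intro D hD
        rw [Finset.mem_filter] at hD
        exact Finset.union_sdiff_of_subset hD.2
      · intro B hB
        rw [Finset.mem_powerset] at hB
        have h4 : (G ∪ B) \ G = B := by
          rw [Finset.union_sdiff_cancel_left]
          rw [Finset.disjoint_left]
          intro a ha hb
          exact (Finset.mem_sdiff.1 (hB hb)).2 ha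
        rw [h4]
    rw [h2, h3, Finset.sum_mul_sum]
    refine Finset.sum_congr rfl fun A _ => Finset.sum_congr rfl fun D _ => ?_
    by_cases ha : A ⊆ G
    · by_cases hd : G ⊆ D
      · rw [if_pos ha, if_pos hd, if_pos ⟨ha, hd⟩]
        ring
      · rw [if_neg hd, if_neg (show ¬(A ⊆ G ∧ G ⊆ D) from fun h => hd h.2), mul_zero, mul_zero]
    · rw [if_neg ha, if_neg (show ¬(A ⊆ G ∧ G ⊆ D) from fun h => ha h.1), zero_mul, mul_zero]
  rw [Finset.sum_congr rfl h1, Finset.sum_comm]
  refine Finset.sum_congr rfl fun A hA => ?_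
  rw [Finset.sum_comm]
  have h4 : ∀ D ∈ E.powerset, (∑ G ∈ E.powerset, ((-1 : ℝ) ^ A.card * f A * g D) *
      (if A ⊆ G ∧ G ⊆ D then (-1 : ℝ) ^ (D \ G).card else 0)) =
      if A = D then (-1 : ℝ) ^ A.card * f A * g D else 0 := by
    intro D hD
    rw [← Finset.mul_sum, dm_inner E A D (Finset.mem_powerset.1 hD), mul_ite, mul_one, mul_zero]
  rw [Finset.sum_congr rfl h4, Finset.sum_ite_eq, if_pos hA, mul_assoc]

/-- The multiplication identity for characteristic polynomials (Kung). -/
theorem chf_mul {M : Matroid ℕ} (E : Finset ℕ) (hE : (E : Set ℕ) = M.E) (x y : ℝ) :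
    chf M E (x * y) = ∑ G ∈ E.powerset, y ^ (rks M M.E - rks M (G : Set ℕ)) *
      chf (M.delete ((E \ G : Finset ℕ) : Set ℕ)) G y *
      chf (M.contract (G : Set ℕ)) (E \ G) x := by
  set r : Finset ℕ → ℕ := fun X => rks M (X : Set ℕ) with hr
  have hmono : ∀ X Y : Finset ℕ, X ⊆ Y → r X ≤ r Y := fun X Y h =>
    dm_mono M _ _ Y.finite_toSet (by exact_mod_cast h)
  have hrE : rks M M.E = r E := by rw [← hE]
  have h1 : ∀ G ∈ E.powerset, y ^ (rks M M.E - rks M (G : Set ℕ)) *
      chf (M.delete ((E \ G : Finset ℕ) : Set ℕ)) G y *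
      chf (M.contract (G : Set ℕ)) (E \ G) x =
      (∑ A ∈ G.powerset, (-1 : ℝ) ^ A.card * y ^ (r E - r A)) *
      (∑ B ∈ (E \ G).powerset, (-1 : ℝ) ^ B.card * x ^ (r E - r (G ∪ B))) := by
    intro G hG
    rw [Finset.mem_powerset] at hG
    congr 1
    · unfold chf
      rw [Finset.mul_sum]
      refine Finset.sum_congr rfl fun A hA => ?_
      rw [Finset.mem_powerset] at hA
      have h2 : rks (M.delete ((E \ G : Finset ℕ) : Set ℕ)) (A : Set ℕ) = r A := by
        apply dm_delete
        rw [Finset.disjoint_coe, Finset.disjoint_left]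
        intro a ha hb
        exact (Finset.mem_sdiff.1 hb).2 (hA ha)
      have h3 : rks (M.delete ((E \ G : Finset ℕ) : Set ℕ))
          (M.delete ((E \ G : Finset ℕ) : Set ℕ)).E = r G := by
        have h4 : (M.delete ((E \ G : Finset ℕ) : Set ℕ)).E = (G : Set ℕ) := by
          rw [Matroid.delete_ground, ← hE, ← Finset.coe_sdiff, Finset.sdiff_sdiff_eq_self hG]
        rw [h4]
        apply dm_delete
        rw [Finset.disjoint_coe]
        exact Finset.disjoint_sdiff
      rw [h2, h3, hrE]
      have h5 : r E - r A = (r E - r G) + (r G - r A) := by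
        have := hmono G E hG
        have := hmono A G hA
        omega
      rw [h5, pow_add]
      ring
    · unfold chf
      refine Finset.sum_congr rfl fun B hB => ?_
      rw [Finset.mem_powerset] at hB
      congr 2
      have h2 : ∀ B : Finset ℕ, B ⊆ E \ G →
          rks (M.contract (G : Set ℕ)) (B : Set ℕ) = r (G ∪ B) - r G := by
        intro B hB
        have h3 := dm_contract M (G : Set ℕ) (B : Set ℕ) G.finite_toSet B.finite_toSet (by
          rw [Finset.disjoint_coe, Finset.disjoint_left]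
          intro a ha hb
          exact (Finset.mem_sdiff.1 (hB hb)).2 ha)
        rw [h3, ← Finset.coe_union]
      have h4 : (M.contract (G : Set ℕ)).E = ((E \ G : Finset ℕ) : Set ℕ) := by
        rw [Matroid.contract_ground, ← hE, Finset.coe_sdiff]
      rw [h4, h2 _ (Finset.Subset.refl _), h2 B hB, Finset.union_sdiff_of_subset hG]
      have h5 := hmono G (G ∪ B) Finset.subset_union_left
      have h6 := hmono (G ∪ B) E (Finset.union_subset hG (hB.trans Finset.sdiff_subset))
      omega
  rw [Finset.sum_congr rfl h1, dm_key E (fun A => y ^ (r E - r A)) (fun D => x ^ (r E - r D))]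
  unfold chf
  refine Finset.sum_congr rfl fun A _ => ?_
  rw [hrE, mul_pow, mul_comm (x ^ _) (y ^ _)]

/-- The term of the whole ground set. -/
theorem chf_contract_all {M : Matroid ℕ} (E : Finset ℕ) (hE : (E : Set ℕ) = M.E) (x : ℝ) :
    chf (M.contract (E : Set ℕ)) ∅ x = 1 := by
  unfold chf
  have h4 : (M.contract (E : Set ℕ)).E = ((∅ : Finset ℕ) : Set ℕ) := by
    rw [Matroid.contract_ground, ← hE, Set.sdiff_self, Finset.coe_empty]
  rw [Finset.powerset_empty, Finset.sum_singleton, h4, Nat.sub_self, pow_zero,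
    Finset.card_empty, pow_zero, one_mul]

end Pool.Agent.Lib.MP_4a8162_co
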