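import Pool.Agent.Lib.MP_4a8162_co.Root

set_option autoImplicit false

namespace Pool.Agent.Lib.MP_4a8162_co

open MeasureTheory in
private theorem steinhaus_add (T : Set ℝ) (hT : MeasurableSet T)
    (hadd : ∀ x ∈ T, ∀ y ∈ T, x + y ∈ T) (hvol : 0 < volume T) :
    ∃ x δ : ℝ, 0 < δ ∧ Set.Ioo (x - δ) (x + δ) ⊆ T := by
  -- some intersection has positive measure
  have h1 : ∃ x : ℝ, 0 < volume (T ∩ (fun u : ℝ => x - u) ⁻¹' T) := by
    by_contra hcon
    push Not at hcon
    have hcon' : ∀ x : ℝ, volume (T ∩ (fun u : ℝ => x - u) ⁻¹' T) = 0 := fun x =>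
      le_antisymm (hcon x) (zero_le)
    have hm : Measurable (Function.uncurry fun (x u : ℝ) =>
        (T.indicator (fun _ => (1 : ENNReal)) u) * (T.indicator (fun _ => (1 : ENNReal)) (x - u))) := by
      refine Measurable.mul ?_ ?_
      · exact (measurable_const.indicator hT).comp measurable_snd
      · exact (measurable_const.indicator hT).comp (measurable_fst.sub measurable_snd)
    have e1 : ∫⁻ x : ℝ, ∫⁻ u : ℝ, (T.indicator (fun _ => (1 : ENNReal)) u) *
        (T.indicator (fun _ => (1 : ENNReal)) (x - u)) = 0 := by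
      refine (lintegral_congr fun x => ?_).trans lintegral_zero
      have e2 : ∀ u : ℝ, (T.indicator (fun _ => (1 : ENNReal)) u) *
          (T.indicator (fun _ => (1 : ENNReal)) (x - u)) =
          (T ∩ (fun u : ℝ => x - u) ⁻¹' T).indicator (fun _ => (1 : ENNReal)) u := by
        intro u
        by_cases hu : u ∈ T
        · by_cases hv : x - u ∈ T
          · rw [Set.indicator_of_mem hu, Set.indicator_of_mem hv,
              Set.indicator_of_mem (show u ∈ T ∩ (fun u : ℝ => x - u) ⁻¹' T from ⟨hu, hv⟩), one_mul]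
          · rw [Set.indicator_of_notMem hv, mul_zero, Set.indicator_of_notMem]
            exact fun h => hv h.2
        · rw [Set.indicator_of_notMem hu, zero_mul, Set.indicator_of_notMem]
          exact fun h => hu h.1
      simp_rw [e2]
      exact (lintegral_indicator_one
        (hT.inter ((measurable_const.sub measurable_id) hT))).trans (hcon' x)
    rw [lintegral_lintegral_swap hm.aemeasurable] at e1
    have e3 : ∀ u : ℝ, ∫⁻ x : ℝ, (T.indicator (fun _ => (1 : ENNReal)) u) *
        (T.indicator (fun _ => (1 : ENNReal)) (x - u)) =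
        (T.indicator (fun _ => (1 : ENNReal)) u) * volume T := by
      intro u
      rw [lintegral_const_mul]
      · congr 1
        rw [lintegral_sub_right_eq_self (fun x => T.indicator (fun _ => (1 : ENNReal)) x) u]
        exact lintegral_indicator_one hT
      · exact (measurable_const.indicator hT).comp (measurable_id.sub_const u)
    simp_rw [e3] at e1
    rw [lintegral_mul_const _ (measurable_const.indicator hT)] at e1
    have e4 : ∫⁻ u : ℝ, T.indicator (fun _ => (1 : ENNReal)) u = volume T :=
      lintegral_indicator_one hT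
    rw [e4] at e1
    rcases mul_eq_zero.1 e1 with h | h
    · exact hvol.ne' h
    · exact hvol.ne' h
  obtain ⟨x, hx⟩ := h1
  have hA : MeasurableSet (T ∩ (fun u : ℝ => x - u) ⁻¹' T) :=
    hT.inter ((measurable_const.sub measurable_id) hT)
  have h2 := MeasureTheory.Measure.sub_mem_nhds_zero_of_addHaar_pos volume _ hA hx
  obtain ⟨δ, hδ, hb⟩ := Metric.mem_nhds_iff.1 h2
  refine ⟨x, δ, hδ, fun y hy => ?_⟩
  have h3 : y - x ∈ Metric.ball (0 : ℝ) δ := by
    rw [Metric.mem_ball, dist_zero_right, Real.norm_eq_abs, abs_lt]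
    constructor
    · linarith [hy.1]
    · linarith [hy.2]
  obtain ⟨p, hp, q, hq, hpq⟩ := Set.mem_sub.1 (hb h3)
  have h4 : y = p + (x - q) := by linarith
  rw [h4]
  exact hadd p hp.1 _ hq.2

/-- A multiplicative semigroup of positive reals of positive measure contains an interval. -/
theorem exists_interval_of_volume_pos (S : Set ℝ) (hpos : ∀ x ∈ S, 0 < x) (hS : MeasurableSet S)
    (hmul : ∀ x ∈ S, ∀ y ∈ S, x * y ∈ S) (hvol : 0 < MeasureTheory.volume S) :
    ∃ a b : ℝ, 0 < a ∧ a < b ∧ Set.Ioo a b ⊆ S := by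
  have hT : MeasurableSet (Real.exp ⁻¹' S) := Real.measurable_exp hS
  have himg : Real.exp '' (Real.exp ⁻¹' S) = S := by
    apply Set.Subset.antisymm
    · rintro _ ⟨u, hu, rfl⟩
      exact hu
    · intro y hy
      exact ⟨Real.log y, by rw [Set.mem_preimage, Real.exp_log (hpos y hy)]; exact hy,
        Real.exp_log (hpos y hy)⟩
  have hvT : 0 < MeasureTheory.volume (Real.exp ⁻¹' S) := by
    rw [pos_iff_ne_zero]
    intro h0
    have h1 := MeasureTheory.addHaar_image_eq_zero_of_differentiableOn_of_addHaar_eq_zero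
      (μ := MeasureTheory.volume) (f := Real.exp) Real.differentiable_exp.differentiableOn h0
    rw [himg] at h1
    exact hvol.ne' h1
  obtain ⟨x, δ, hδ, hsub⟩ := steinhaus_add (Real.exp ⁻¹' S) hT (by
    intro u hu v hv
    rw [Set.mem_preimage] at hu hv ⊢
    rw [Real.exp_add]
    exact hmul _ hu _ hv) hvT
  refine ⟨Real.exp (x - δ), Real.exp (x + δ), Real.exp_pos _, Real.exp_lt_exp.2 (by linarith),
    fun y hy => ?_⟩
  have hy0 : 0 < y := (Real.exp_pos _).trans hy.1
  have h1 : Real.log y ∈ Set.Ioo (x - δ) (x + δ) :=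
    ⟨(Real.lt_log_iff_exp_lt hy0).2 hy.1, (Real.log_lt_iff_lt_exp hy0).2 hy.2⟩
  have h2 := hsub h1
  rw [Set.mem_preimage, Real.exp_log hy0] at h2
  exact h2

/-- The characteristic polynomial is continuous. -/
theorem chf_continuous (M : Matroid ℕ) (E : Finset ℕ) : Continuous (chf M E) := by
  unfold chf
  exact continuous_finsetSum _ fun X _ => continuous_const.mul (continuous_pow _)

end Pool.Agent.Lib.MP_4a8162_co
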