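import Mathlib

set_option autoImplicit false

namespace Pool.Agent.Lib.MP_4a8162_co

open Finset

/-! Common definitions for the project FLOW (real roots of flow polynomials, that is, of
characteristic polynomials of cographic matroids). -/

/-- The relation on vertices generated by the edges with index in `A`. -/
def edgeRel {V ι : Type*} (en : ι → V × V) (A : Set ι) (u v : V) : Prop :=
  ∃ e ∈ A, en e = (u, v)

/-- Number of connected components of the graph `(V, A)`. -/
noncomputable def cc {V ι : Type*} (en : ι → V × V) (A : Set ι) : ℕ :=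
  Nat.card (Quot (edgeRel en A))

/-- The vector of the oriented edge `e`. -/
def evec (K : Type*) [Field K] {n : ℕ} (e : Fin n × Fin n) : Fin n → K :=
  Pi.single e.1 (1 : K) - Pi.single e.2 (1 : K)

/-- Flow polynomial of the multigraph with vertex set `Fin n` and edge list `es`. -/
noncomputable def FP {n : ℕ} (es : List (Fin n × Fin n)) : Polynomial ℚ :=
  ∑ A : Finset (Fin es.length),
    (-1) ^ (es.length - A.card) * Polynomial.X ^ (A.card + cc es.get (A : Set (Fin es.length)) - n)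

/-- Sum of the flow polynomials over all ways to pair up the half-edges of the list `l`
(each entry of `l` is the vertex of a half-edge), the edges `es` being already present. -/
noncomputable def tot {n : ℕ} : ℕ → List (Fin n) → List (Fin n × Fin n) → Polynomial ℚ
  | _, [], es => FP es
  | 0, _ :: _, _ => 0
  | k + 1, a :: l, es => ∑ i : Fin l.length, tot k (l.eraseIdx i) ((a, l.get i) :: es)

/-- The list in which every vertex occurs three times. -/
def cubic (n : ℕ) : List (Fin n) := (List.finRange n).flatMap fun v => [v, v, v]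

/-- Row zero of the recurrence. -/
def rowZero (R : Type*) [CommRing R] : ℕ → R
  | 0 => 1
  | 1 => 0
  | b + 2 => -((b : R) + 1) * rowZero R b

/-- One step of the recurrence. -/
noncomputable def rowNext {R : Type*} [CommRing R] [Algebra ℚ R] (t : R) (j : ℕ) (r : ℕ → R) : ℕ → R
  | 0 => algebraMap ℚ R (1 / 2) * ((t - 1) * (t - 2)) * r 3
  | 1 => 0
  | b + 2 => -((b : R) + 1) * rowNext t j r b
      - 3 * ((j : R) + 1) * ((t + 3 * (j : R) + (b : R)) * r (b + 1)
        + algebraMap ℚ R (1 / ((b : ℚ) + 2)) * ((t - ((b : R) + 2)) * r (b + 3)))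

/-- The recurrence: `rc t j b` is `t^(-j) E[x_1 ... x_b (sum x_i^3)^j]`. -/
noncomputable def rc {R : Type*} [CommRing R] [Algebra ℚ R] (t : R) : ℕ → ℕ → R
  | 0 => rowZero R
  | j + 1 => rowNext t j (rc t j)

/-- The covariance `N delta - 1`. -/
def kov (N : ℕ) (i j : Fin N) : ℚ := if i = j then (N : ℚ) - 1 else -1

/-- The derivation `sum_j K_ij d/dx_j`. -/
noncomputable def dl (N : ℕ) (i : Fin N) (f : MvPolynomial (Fin N) ℚ) : MvPolynomial (Fin N) ℚ :=
  ∑ j, MvPolynomial.C (kov N i j) * MvPolynomial.pderiv j f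

/-- The Laplacian `sum_ij K_ij d/dx_i d/dx_j`. -/
noncomputable def lap (N : ℕ) (f : MvPolynomial (Fin N) ℚ) : MvPolynomial (Fin N) ℚ :=
  ∑ i, MvPolynomial.pderiv i (dl N i f)

/-- The degree `2 m` part of the Gaussian expectation with covariance `kov N`. -/
noncomputable def em (N m : ℕ) (f : MvPolynomial (Fin N) ℚ) : ℚ :=
  1 / (2 ^ m * (m.factorial : ℚ)) * MvPolynomial.constantCoeff ((lap N)^[m] f)

/-- `sum x_i^3`. -/
noncomputable def pth (N : ℕ) : MvPolynomial (Fin N) ℚ := ∑ i, MvPolynomial.X i ^ 3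

/-- Rank of a set in a matroid, in the form used in the frozen statements. -/
noncomputable def rks (M : Matroid ℕ) (X : Set ℕ) : ℕ :=
  sSup {n : ℕ | ∃ I ⊆ X, M.Indep I ∧ I.ncard = n}

/-- The characteristic polynomial as a function, in the form used in the frozen statements. -/
noncomputable def chf (M : Matroid ℕ) (E : Finset ℕ) (x : ℝ) : ℝ :=
  ∑ X ∈ E.powerset, (-1 : ℝ) ^ X.card * x ^ (rks M M.E - rks M (X : Set ℕ))

/-- `M` is the cycle matroid of a finite graph (edge `e` joins `(ends e).1` and `(ends e).2`). -/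
def IsGraphic (M : Matroid ℕ) : Prop :=
  M.Finite ∧ ∃ m : ℕ, ∃ ends : ℕ → Fin m × Fin m, ∀ I : Set ℕ,
    M.Indep I ↔ (I ⊆ M.E ∧ LinearIndependent ℚ
      (fun x : I => (Pi.single (ends x).1 (1 : ℚ) - Pi.single (ends x).2 (1 : ℚ) : Fin m → ℚ)))

/-! ### kernel-friendly computation of the recurrence -/

/-- Lists of pairs `(p, n)` of natural numbers, standing for the integers `p - n`. -/
inductive L where
  | nil : L
  | cons : Nat → Nat → L → L

/-- One row. State: `b`, the previous new entry `w'(b) = yp - yn`, the previous old entry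
`w(b+1) = op - on`, the reversed output. `w'(b+2) =
-(b-1) w'(b) - A [b (B0 + b Q) w(b+1) + (p-(b+2)Q) w(b+3)]/(b+1)`. -/
noncomputable def kstep (p Q B0 A : Nat) (row : L) : Nat → Nat → Nat → Nat → Nat → L → L :=
  L.rec (motive := fun _ => Nat → Nat → Nat → Nat → Nat → L → L)
    (fun _ _ _ _ _ acc => acc)
    (fun qp qn _ ih b yp yn op on acc =>
      Bool.rec (motive := fun _ => L) acc
        (Nat.rec (motive := fun _ => L) acc
          (fun m _ => Nat.rec (motive := fun _ => L) acc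
            (fun m' _ => ih (Nat.add b 2) m m' qp qn (L.cons m m' acc))
            (Nat.add (Nat.sub
              (Nat.add (Nat.mul (Nat.sub b 1) yp) (Nat.div (Nat.add (Nat.add (Nat.mul (Nat.mul A (Nat.mul b (Nat.add B0 (Nat.mul b Q)))) op) (Nat.mul (Nat.mul A (Nat.sub p (Nat.mul (Nat.add b 2) Q))) qp)) (Nat.mul (Nat.mul A (Nat.sub (Nat.mul (Nat.add b 2) Q) p)) qn)) (Nat.add b 1)))
              (Nat.add (Nat.mul (Nat.sub b 1) yn) (Nat.div (Nat.add (Nat.add (Nat.mul (Nat.mul A (Nat.mul b (Nat.add B0 (Nat.mul b Q)))) on) (Nat.mul (Nat.mul A (Nat.sub p (Nat.mul (Nat.add b 2) Q))) qn)) (Nat.mul (Nat.mul A (Nat.sub (Nat.mul (Nat.add b 2) Q) p)) qp)) (Nat.add b 1))))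
              (Nat.add (Nat.mul (Nat.mul A (Nat.mul b (Nat.add B0 (Nat.mul b Q)))) 1009) 1)))
          (Nat.add (Nat.sub
              (Nat.add (Nat.mul (Nat.sub b 1) yn) (Nat.div (Nat.add (Nat.add (Nat.mul (Nat.mul A (Nat.mul b (Nat.add B0 (Nat.mul b Q)))) on) (Nat.mul (Nat.mul A (Nat.sub p (Nat.mul (Nat.add b 2) Q))) qn)) (Nat.mul (Nat.mul A (Nat.sub (Nat.mul (Nat.add b 2) Q) p)) qp)) (Nat.add b 1)))
              (Nat.add (Nat.mul (Nat.sub b 1) yp) (Nat.div (Nat.add (Nat.add (Nat.mul (Nat.mul A (Nat.mul b (Nat.add B0 (Nat.mul b Q)))) op) (Nat.mul (Nat.mul A (Nat.sub p (Nat.mul (Nat.add b 2) Q))) qp)) (Nat.mul (Nat.mul A (Nat.sub (Nat.mul (Nat.add b 2) Q) p)) qn)) (Nat.add b 1))))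
              (Nat.add (Nat.mul (Nat.mul A (Nat.mul b (Nat.add B0 (Nat.mul b Q)))) 1009) 1)))
        (Nat.beq
          (Nat.mod (Nat.add (Nat.add (Nat.mul (Nat.mul A (Nat.mul b (Nat.add B0 (Nat.mul b Q)))) op) (Nat.mul (Nat.mul A (Nat.sub p (Nat.mul (Nat.add b 2) Q))) qp)) (Nat.mul (Nat.mul A (Nat.sub (Nat.mul (Nat.add b 2) Q) p)) qn)) (Nat.add b 1))
          (Nat.mod (Nat.add (Nat.add (Nat.mul (Nat.mul A (Nat.mul b (Nat.add B0 (Nat.mul b Q)))) on) (Nat.mul (Nat.mul A (Nat.sub p (Nat.mul (Nat.add b 2) Q))) qn)) (Nat.mul (Nat.mul A (Nat.sub (Nat.mul (Nat.add b 2) Q) p)) qp)) (Nat.add b 1))))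
    row

/-- Reverse and append. -/
noncomputable def krev (l : L) : L → L :=
  L.rec (motive := fun _ => L → L) (fun acc => acc) (fun a b _ ih acc => ih (L.cons a b acc)) l

/-- Initial row `w(2), w(4), ...` (reversed): `w(b+2) = - (b-1) w(b)`. -/
noncomputable def krow0 (m : Nat) : Nat → Nat → Nat → L → L :=
  Nat.rec (motive := fun _ => Nat → Nat → Nat → L → L) (fun _ _ _ acc => acc)
    (fun _ ih b yp yn acc =>
       (Nat.rec (motive := fun _ => L) L.nil (fun v _ =>
        Nat.rec (motive := fun _ => L) L.nil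
          (fun v' _ => ih (Nat.add b 2) v v' (L.cons yp yn acc))
            (Nat.add (Nat.mul (Nat.sub b 1) yp) 1))
        (Nat.add (Nat.mul (Nat.sub b 1) yn) 1))) m

/-- Even row `j` (list `w2, w4, ...`) to odd row `j+1` (list `w3, w5, ...`). -/
noncomputable def kodd (p Q j : Nat) (e : L) : L :=
  L.rec (motive := fun _ => L) L.nil (fun op on t _ =>
      krev (kstep p Q (Nat.add (Nat.mul (Nat.mul 3 j) Q) p) (Nat.mul 3 (Nat.add j 1)) t 1 0 0 op on L.nil) L.nil) e

/-- Odd row `j` (list `w3, w5, ...`) to even row `j+1` (list `w2, w4, ...`),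
`w'(2) = -(p-2Q)(p+(3j+2)Q) w(3)/Q`. -/
noncomputable def keven (p Q j : Nat) (o : L) : L :=
  L.rec (motive := fun _ => L) L.nil (fun op on t _ =>
      Bool.rec (motive := fun _ => L) L.nil
        (Nat.rec (motive := fun _ => L) L.nil
          (fun m _ => Nat.rec (motive := fun _ => L) L.nil (fun m' _ =>
              krev (kstep p Q (Nat.add (Nat.mul (Nat.mul 3 j) Q) p) (Nat.mul 3 (Nat.add j 1)) t 2 m m' op on (L.cons m m' L.nil)) L.nil)
            (Nat.add (Nat.div (Nat.mul (Nat.mul (Nat.sub p (Nat.mul 2 Q)) (Nat.add p (Nat.mul (Nat.add (Nat.mul 3 j) 2) Q))) op) Q) 1))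
          (Nat.add (Nat.div (Nat.mul (Nat.mul (Nat.sub p (Nat.mul 2 Q)) (Nat.add p (Nat.mul (Nat.add (Nat.mul 3 j) 2) Q))) on) Q) 1))
        (Nat.beq
          (Nat.mod (Nat.mul (Nat.mul (Nat.sub p (Nat.mul 2 Q)) (Nat.add p (Nat.mul (Nat.add (Nat.mul 3 j) 2) Q))) op) Q)
          (Nat.mod (Nat.mul (Nat.mul (Nat.sub p (Nat.mul 2 Q)) (Nat.add p (Nat.mul (Nat.add (Nat.mul 3 j) 2) Q))) on) Q)))
      o

/-- `2 m` steps. -/
noncomputable def kiter (p Q : Nat) (m : Nat) : Nat → L → L :=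
  Nat.rec (motive := fun _ => Nat → L → L) (fun _ e => e)
    (fun _ ih j e => ih (Nat.add j 2) (keven p Q (Nat.add j 1) (kodd p Q j e))) m

/-- Checks that `w_(2m+1)(3) < 0`. -/
noncomputable def kneg (p Q m : Nat) : Bool :=
  L.rec (motive := fun _ => Bool) false (fun a b _ _ => Nat.ble (Nat.add a 1) b)
    (kodd p Q (Nat.mul 2 m) (kiter p Q m 0 (krev (krow0 (Nat.add m 2) 2 0 1 L.nil) L.nil)))

end Pool.Agent.Lib.MP_4a8162_co
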