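import Pool.Agent.Lib.MP_4a8162_co.DMul
import Pool.Agent.Lib.MP_4a8162_co.DCrit
import Pool.Agent.Lib.MP_4a8162_co.DCover
import Pool.Agent.Lib.MP_4a8162_co.DSteinhaus

set_option autoImplicit false

namespace Pool.Agent.Lib.MP_4a8162_co.Dichotomy

open Pool.Agent.Lib.MP_4a8162_co

/-- For a minor-closed class of matroids representable over a finite field the real
characteristic roots are bounded above if and only if the set of positive reals at which all
characteristic polynomials of the class are nonnegative has positive Lebesgue measure. -/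
theorem result (F : Type) [Field F] [Fintype F] (C : Matroid ℕ → Prop)
    (hrep : ∀ M : Matroid ℕ, C M → M.Finite ∧ ∃ n : ℕ, ∃ v : ℕ → (Fin n → F),
        ∀ I : Set ℕ, M.Indep I ↔ (I ⊆ M.E ∧ LinearIndependent F (fun x : I => v x)))
    (hmin : ∀ M : Matroid ℕ, C M → ∀ X Y : Set ℕ, C ((M.contract X).delete Y)) :
    (∃ d : ℝ, ∀ M : Matroid ℕ, C M → (∀ e ∈ M.E, M.Indep {e}) →
      ∀ E : Finset ℕ, (E : Set ℕ) = M.E → ∀ x : ℝ, d < x →
        (∑ X ∈ E.powerset, (-1 : ℝ) ^ X.card *
          x ^ (sSup {n : ℕ | ∃ I ⊆ M.E, M.Indep I ∧ I.ncard = n}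
               - sSup {n : ℕ | ∃ I ⊆ (X : Set ℕ), M.Indep I ∧ I.ncard = n})) ≠ 0) ↔
    0 < MeasureTheory.volume {x : ℝ | 0 < x ∧ ∀ M : Matroid ℕ, C M →
      ∀ E : Finset ℕ, (E : Set ℕ) = M.E →
        0 ≤ (∑ X ∈ E.powerset, (-1 : ℝ) ^ X.card *
          x ^ (sSup {n : ℕ | ∃ I ⊆ M.E, M.Indep I ∧ I.ncard = n}
               - sSup {n : ℕ | ∃ I ⊆ (X : Set ℕ), M.Indep I ∧ I.ncard = n}))} := by
  change (∃ d : ℝ, ∀ M : Matroid ℕ, C M → (∀ e ∈ M.E, M.Indep {e}) →
      ∀ E : Finset ℕ, (E : Set ℕ) = M.E → ∀ x : ℝ, d < x → chf M E x ≠ 0) ↔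
    0 < MeasureTheory.volume {x : ℝ | 0 < x ∧ ∀ M : Matroid ℕ, C M →
      ∀ E : Finset ℕ, (E : Set ℕ) = M.E → 0 ≤ chf M E x}
  set S : Set ℝ := {x : ℝ | 0 < x ∧ ∀ M : Matroid ℕ, C M →
      ∀ E : Finset ℕ, (E : Set ℕ) = M.E → 0 ≤ chf M E x} with hSdef
  constructor
  · rintro ⟨d, hd⟩
    have hsub : Set.Ioo (max d 1) (max d 1 + 1) ⊆ S := by
      intro x hx
      have hx1 : max d 1 < x := hx.1
      refine ⟨lt_trans (by positivity) hx1, ?_⟩
      intro M hM E hE
      by_contra hneg
      push Not at hneg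
      obtain ⟨y, hy, hy0⟩ := exists_root_of_chf_neg E hE x hneg
      exact hd M hM (loopless_of_chf_ne_zero E hE x hneg.ne) E hE y
        (lt_trans (lt_of_le_of_lt (le_max_left d 1) hx1) hy) hy0
    refine lt_of_lt_of_le ?_ (MeasureTheory.measure_mono hsub)
    rw [Real.volume_Ioo]
    simp
  · intro hvol
    have hterm : ∀ x ∈ S, ∀ y ∈ S, ∀ M : Matroid ℕ, C M → ∀ E : Finset ℕ, (E : Set ℕ) = M.E →
        ∀ G ∈ E.powerset, 0 ≤ y ^ (rks M M.E - rks M (G : Set ℕ)) *
      chf (M.delete ((E \ G : Finset ℕ) : Set ℕ)) G y *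
      chf (M.contract (G : Set ℕ)) (E \ G) x := by
      intro x hx y hy M hM E hE G hG
      have hGE : G ⊆ E := Finset.mem_powerset.mp hG
      have h1 : C (M.delete ((E \ G : Finset ℕ) : Set ℕ)) := by
        have := hmin M hM ∅ ((E \ G : Finset ℕ) : Set ℕ)
        rwa [Matroid.contract_empty] at this
      have h2 : C (M.contract (G : Set ℕ)) := by
        have := hmin M hM (G : Set ℕ) ∅
        rwa [Matroid.delete_empty] at this
      have h3 : ((G : Finset ℕ) : Set ℕ) = (M.delete ((E \ G : Finset ℕ) : Set ℕ)).E := by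
        rw [Matroid.delete_ground, ← hE]
        ext e
        simp only [Finset.coe_sdiff, Set.mem_sdiff, Finset.mem_coe]
        constructor
        · intro h
          exact ⟨hGE h, fun h' => h'.2 h⟩
        · rintro ⟨h, h'⟩
          by_contra hc
          exact h' ⟨h, hc⟩
      have h4 : ((E \ G : Finset ℕ) : Set ℕ) = (M.contract (G : Set ℕ)).E := by
        rw [Matroid.contract_ground, ← hE]
        simp
      exact mul_nonneg (mul_nonneg (pow_nonneg hy.1.le _) (hy.2 _ h1 G h3)) (hx.2 _ h2 _ h4)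
    have hmul : ∀ x ∈ S, ∀ y ∈ S, x * y ∈ S := by
      intro x hx y hy
      refine ⟨mul_pos hx.1 hy.1, ?_⟩
      intro M hM E hE
      rw [chf_mul E hE]
      exact Finset.sum_nonneg (hterm x hx y hy M hM E hE)
    have hmeas : MeasurableSet S := by
      have : S = Set.Ioi 0 ∩ ⋂ M : Matroid ℕ, ⋂ _ : C M, ⋂ E : Finset ℕ,
          ⋂ _ : (E : Set ℕ) = M.E, {x : ℝ | 0 ≤ chf M E x} := by
        ext x
        simp only [hSdef, Set.mem_ofPred_eq, Set.mem_inter_iff, Set.mem_Ioi, Set.mem_iInter]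
      rw [this]
      refine measurableSet_Ioi.inter (IsClosed.measurableSet ?_)
      refine isClosed_iInter fun M => isClosed_iInter fun _ => isClosed_iInter fun E =>
        isClosed_iInter fun _ => ?_
      exact isClosed_le continuous_const (chf_continuous M E)
    obtain ⟨a, b, ha, hab, hI⟩ := exists_interval_of_volume_pos S (fun x hx => hx.1) hmeas hmul hvol
    have hq : (1 : ℝ) < (Fintype.card F : ℝ) := by exact_mod_cast Fintype.one_lt_card
    have hqS : (Fintype.card F : ℝ) ∈ S := by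
      refine ⟨by linarith, ?_⟩
      intro M hM E hE
      obtain ⟨_, n, v, hv⟩ := hrep M hM
      exact chf_card_nonneg F E hE v hv
    obtain ⟨c, hc1, hc⟩ := semigroup_cover S hmul _ hq hqS a b ha hab hI
    refine ⟨(c + 1) * (c + 1), ?_⟩
    intro M hM hl E hE x hx h0
    have hx0 : 0 < x := by nlinarith
    have hzero : ∀ y ∈ Set.Ioo c (c + 1), chf M E y = 0 := by
      intro y hy
      have hy0 : 0 < y := by linarith [hy.1]
      have hyS : y ∈ S := hc hy.1
      have hxS : x / y ∈ S := by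
        apply hc
        show c < x / y
        rw [lt_div_iff₀ hy0]
        nlinarith [hy.1, hy.2]
      have h1 : chf M E (x / y * y) = 0 := by rw [div_mul_cancel₀ x hy0.ne', h0]
      rw [chf_mul E hE] at h1
      have h2 := (Finset.sum_eq_zero_iff_of_nonneg (hterm _ hxS y hyS M hM E hE)).mp h1 E
        (Finset.mem_powerset_self E)
      rw [hE, Nat.sub_self, pow_zero, one_mul, ← hE, Finset.sdiff_self, Finset.coe_empty,
        Matroid.delete_empty, chf_contract_all E hE, mul_one] at h2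
      exact h2
    have hfin := chf_zeros_finite E hE hl
    have hinf : (Set.Ioo c (c + 1)).Infinite := Set.Ioo_infinite (by linarith)
    exact hinf (hfin.subset hzero)

end Pool.Agent.Lib.MP_4a8162_co.Dichotomy
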