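import Pool.Agent.Lib.MP_4a8162_co.Defs

set_option autoImplicit false

namespace Pool.Agent.Lib.MP_4a8162_co

private theorem indep_insert {F : Type*} [Field F] {M : Matroid ℕ} {m : ℕ}
    {u : ℕ → Fin m → F}
    (h : ∀ I : Set ℕ, M.Indep I ↔ (I ⊆ M.E ∧ LinearIndependent F (fun x : I => u x)))
    {B : Set ℕ} (hB : M.Indep B) {e : ℕ} (he : e ∈ M.E)
    (hs : u e ∉ Submodule.span F (u '' B)) : M.Indep (insert e B) := by
  rw [h]
  refine ⟨Set.insert_subset he hB.subset_ground, ?_⟩
  have hB' := ((h B).1 hB).2
  by_cases heB : e ∈ B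
  · exact (hs (Submodule.subset_span ⟨e, heB, rfl⟩)).elim
  · exact (linearIndepOn_insert heB).2 ⟨hB', hs⟩

private theorem mem_span_of_dep {F : Type*} [Field F] {M : Matroid ℕ} {m : ℕ}
    {u : ℕ → Fin m → F}
    (h : ∀ I : Set ℕ, M.Indep I ↔ (I ⊆ M.E ∧ LinearIndependent F (fun x : I => u x)))
    {B : Set ℕ} (hB : M.Indep B) {e : ℕ} (he : e ∈ M.E) (hd : ¬ M.Indep (insert e B)) :
    u e ∈ Submodule.span F (u '' B) := by
  by_contra hs
  exact hd (indep_insert h hB he hs)

/-- The dual of a matroid represented over a field is represented over this field. -/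
theorem dual_rep (F : Type*) [Field F] {M : Matroid ℕ} (hM : M.Finite) {m : ℕ}
    (u : ℕ → Fin m → F)
    (h : ∀ I : Set ℕ, M.Indep I ↔ (I ⊆ M.E ∧ LinearIndependent F (fun x : I => u x))) :
    ∃ n : ℕ, ∃ v : ℕ → (Fin n → F), ∀ I : Set ℕ,
      M.dual.Indep I ↔ (I ⊆ M.E ∧ LinearIndependent F (fun x : I => v x)) := by
  classical
  have hfin : M.E.Finite := hM.ground_finite
  set Ef : Finset ℕ := hfin.toFinset with hEf
  have hmE : ∀ e, e ∈ Ef ↔ e ∈ M.E := fun e => hfin.mem_toFinset
  set T : (Ef → F) →ₗ[F] (Fin m → F) := Fintype.linearCombination F (fun e : Ef => u e) with hT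
  have hTz : ∀ z, T z = ∑ e : Ef, z e • u e := fun z => Fintype.linearCombination_apply F _ z
  set b := Module.finBasis F (LinearMap.ker T) with hb
  set v : ℕ → (Fin (Module.finrank F (LinearMap.ker T)) → F) :=
    fun e i => if he : e ∈ Ef then (b i : Ef → F) ⟨e, he⟩ else 0 with hv
  have hve : ∀ (e : Ef) i, v e i = (b i : Ef → F) e := by
    intro e i
    rw [hv]
    dsimp only
    rw [dif_pos e.2]
  -- the linear combinations of the `v e`
  have hlc : ∀ (l : ℕ →₀ F), (∀ e, l e ≠ 0 → e ∈ Ef) → ∀ i,
      (Finsupp.linearCombination F v l) i = ∑ e : Ef, l e * (b i : Ef → F) e := by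
    intro l hl i
    have e1 : (l.sum fun e a => a • v e) = ∑ e ∈ Ef, l e • v e :=
      Finsupp.sum_of_support_subset l (fun e he => hl e (Finsupp.mem_support_iff.1 he)) _
        (fun e _ => zero_smul F (v e))
    rw [Finsupp.linearCombination_apply, e1, Finset.sum_apply, ← Finset.sum_coe_sort Ef]
    refine Finset.sum_congr rfl fun e _ => ?_
    rw [Pi.smul_apply, smul_eq_mul, hve]
  refine ⟨_, v, fun X => ?_⟩
  rw [Matroid.dual_indep_iff_exists']
  refine and_congr_right fun hX => ?_
  have hXE : ∀ e ∈ X, e ∈ Ef := fun e he => (hmE e).2 (hX he)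
  constructor
  · rintro ⟨B, hB, hdis⟩
    show LinearIndepOn F v X
    rw [linearIndepOn_iff]
    intro l hl hl0
    rw [Finsupp.mem_supported] at hl
    have hlE : ∀ e, l e ≠ 0 → e ∈ Ef := fun e he => hXE e (hl (Finsupp.mem_support_iff.2 he))
    set f : Module.Dual F (Ef → F) := Fintype.linearCombination F (fun e : Ef => l e) with hf
    have hfz : ∀ z, f z = ∑ e : Ef, z e * l e := by
      intro z
      rw [hf, Fintype.linearCombination_apply]
      rfl
    have hker : f ∈ (LinearMap.ker T).dualAnnihilator := by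
      have h1 : f ∘ₗ (LinearMap.ker T).subtype = 0 := by
        refine b.ext fun i => ?_
        have h2 := hlc l hlE i
        rw [hl0] at h2
        show f (b i : Ef → F) = 0
        rw [hfz]
        have h3 : (∑ e : Ef, l e * (b i : Ef → F) e) = 0 := h2.symm
        rw [← h3]
        exact Finset.sum_congr rfl fun e _ => mul_comm _ _
      rw [Submodule.mem_dualAnnihilator]
      intro w hw
      exact LinearMap.congr_fun h1 ⟨w, hw⟩
    rw [← LinearMap.range_dualMap_eq_dualAnnihilator_ker] at hker
    obtain ⟨g, hg⟩ := hker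
    have hle : ∀ e ∈ Ef, l e = g (u e) := by
      intro e he
      have h1 := LinearMap.congr_fun hg (Pi.single (⟨e, he⟩ : Ef) (1 : F))
      rw [LinearMap.dualMap_apply, hfz, hTz] at h1
      have h2 : (∑ e' : Ef, (Pi.single (⟨e, he⟩ : Ef) (1 : F) : Ef → F) e' • u e') = u e := by
        rw [Finset.sum_eq_single ⟨e, he⟩]
        · rw [Pi.single_eq_same, one_smul]
        · intro c _ hc
          rw [Pi.single_eq_of_ne hc, zero_smul]
        · intro hc
          exact absurd (Finset.mem_univ _) hc
      have h3 : (∑ e' : Ef, (Pi.single (⟨e, he⟩ : Ef) (1 : F) : Ef → F) e' * l e') = l e := by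
        rw [Finset.sum_eq_single ⟨e, he⟩]
        · rw [Pi.single_eq_same, one_mul]
        · intro c _ hc
          rw [Pi.single_eq_of_ne hc, zero_mul]
        · intro hc
          exact absurd (Finset.mem_univ _) hc
      rw [h2, h3] at h1
      exact h1.symm
    -- `g` vanishes on `u e`, `e ∈ B`
    have hgB : Submodule.span F (u '' B) ≤ LinearMap.ker g := by
      rw [Submodule.span_le]
      rintro _ ⟨e, he, rfl⟩
      show g (u e) = 0
      rw [← hle e ((hmE e).2 (hB.subset_ground he))]
      by_contra hne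
      have : e ∈ X := hl (Finsupp.mem_support_iff.2 hne)
      exact Set.disjoint_left.1 hdis this he
    ext e
    by_contra hne
    have heE : e ∈ M.E := (hmE e).1 (hlE e hne)
    have h1 : u e ∈ Submodule.span F (u '' B) := by
      by_cases heB : e ∈ B
      · exact Submodule.subset_span ⟨e, heB, rfl⟩
      · exact mem_span_of_dep h hB.indep heE (hB.insert_dep ⟨heE, heB⟩).not_indep
    have h2 : g (u e) = 0 := hgB h1
    rw [← hle e (hlE e hne)] at h2
    exact hne h2
  · intro hli
    change LinearIndepOn F v X at hli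
    obtain ⟨B, hB⟩ := M.exists_isBasis (M.E \ X) Set.sdiff_subset
    refine ⟨B, ?_, ?_⟩
    · by_contra hnb
      have h1 : ∃ e ∈ M.E \ B, M.Indep (insert e B) := by
        by_contra hcon
        refine hnb (hB.indep.isBase_of_forall_insert fun e he hi => hcon ⟨e, he, hi⟩)
      obtain ⟨f, hf, hfi⟩ := h1
      have h2 : u f ∉ Submodule.span F (u '' B) :=
        ((linearIndepOn_insert hf.2).1 ((h _).1 hfi).2).2
      obtain ⟨g, hgf, hgk⟩ := Submodule.exists_le_ker_of_notMem h2
      have hgX : ∀ e ∈ M.E, e ∉ X → g (u e) = 0 := by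
        intro e he heX
        have h3 : u e ∈ Submodule.span F (u '' B) := by
          by_cases heB : e ∈ B
          · exact Submodule.subset_span ⟨e, heB, rfl⟩
          · exact mem_span_of_dep h hB.indep he (hB.insert_dep ⟨⟨he, heX⟩, heB⟩).not_indep
        exact hgk h3
      set l : ℕ →₀ F := Finsupp.indicator Ef (fun e _ => g (u e)) with hl
      have hle : ∀ e ∈ Ef, l e = g (u e) := fun e he => Finsupp.indicator_of_mem he _
      have hlE : ∀ e, l e ≠ 0 → e ∈ Ef := by
        intro e he
        by_contra hcon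
        exact he (Finsupp.indicator_of_notMem hcon _)
      have hlX : l ∈ Finsupp.supported F F X := by
        rw [Finsupp.mem_supported]
        intro e he
        have he' := Finsupp.mem_support_iff.1 he
        by_contra heX
        refine he' ?_
        rw [hle e (hlE e he')]
        exact hgX e ((hmE e).1 (hlE e he')) heX
      have hl0 : Finsupp.linearCombination F v l = 0 := by
        funext i
        rw [hlc l hlE i]
        have h3 : T (b i : Ef → F) = 0 := (b i).2
        have h4 : g (T (b i : Ef → F)) = 0 := by rw [h3, map_zero]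
        rw [hTz, map_sum] at h4
        rw [Pi.zero_apply, ← h4]
        refine Finset.sum_congr rfl fun e _ => ?_
        rw [map_smul, smul_eq_mul, hle e e.2, mul_comm]
      have h5 := (linearIndepOn_iff.1 hli) l hlX hl0
      have h6 : l f = 0 := by rw [h5]; rfl
      rw [hle f ((hmE f).2 hf.1)] at h6
      exact hgf h6
    · rw [Set.disjoint_left]
      intro e heX heB
      exact (hB.subset heB).2 heX

end Pool.Agent.Lib.MP_4a8162_co
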