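import Pool.Agent.Lib.MP_4a8162_co.Defs

set_option autoImplicit false

namespace Pool.Agent.Lib.MP_4a8162_co

open MvPolynomial

/-! ### auxiliary facts -/

private theorem dl_add (N : ℕ) (i : Fin N) (f g : MvPolynomial (Fin N) ℚ) :
    dl N i (f + g) = dl N i f + dl N i g := by
  unfold dl
  rw [← Finset.sum_add_distrib]
  refine Finset.sum_congr rfl fun j _ => ?_
  rw [map_add, mul_add]

private theorem dl_C_mul (N : ℕ) (i : Fin N) (r : ℚ) (f : MvPolynomial (Fin N) ℚ) :
    dl N i (C r * f) = C r * dl N i f := by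
  unfold dl
  rw [Finset.mul_sum]
  refine Finset.sum_congr rfl fun j _ => ?_
  rw [pderiv_C_mul]
  ring

private theorem lap_add (N : ℕ) (f g : MvPolynomial (Fin N) ℚ) :
    lap N (f + g) = lap N f + lap N g := by
  unfold lap
  rw [← Finset.sum_add_distrib]
  refine Finset.sum_congr rfl fun j _ => ?_
  rw [dl_add, map_add]

private theorem lap_C_mul (N : ℕ) (r : ℚ) (f : MvPolynomial (Fin N) ℚ) :
    lap N (C r * f) = C r * lap N f := by
  unfold lap
  rw [Finset.mul_sum]
  refine Finset.sum_congr rfl fun j _ => ?_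
  rw [dl_C_mul, pderiv_C_mul]

private theorem it_add (N m : ℕ) (f g : MvPolynomial (Fin N) ℚ) :
    (lap N)^[m] (f + g) = (lap N)^[m] f + (lap N)^[m] g := by
  induction m with
  | zero => rfl
  | succ m ih =>
    rw [Function.iterate_succ_apply', Function.iterate_succ_apply', Function.iterate_succ_apply',
      ih, lap_add]

private theorem it_C_mul (N m : ℕ) (r : ℚ) (f : MvPolynomial (Fin N) ℚ) :
    (lap N)^[m] (C r * f) = C r * (lap N)^[m] f := by
  induction m with
  | zero => rfl
  | succ m ih =>
    rw [Function.iterate_succ_apply', Function.iterate_succ_apply', ih, lap_C_mul]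

theorem em_zero (N : ℕ) (f : MvPolynomial (Fin N) ℚ) : em N 0 f = constantCoeff f := by
  unfold em
  simp

theorem em_add (N m : ℕ) (f g : MvPolynomial (Fin N) ℚ) : em N m (f + g) = em N m f + em N m g := by
  unfold em
  rw [it_add, map_add, mul_add]

theorem em_C_mul (N m : ℕ) (r : ℚ) (f : MvPolynomial (Fin N) ℚ) :
    em N m (C r * f) = r * em N m f := by
  unfold em
  rw [it_C_mul, map_mul, constantCoeff_C]
  ring

theorem em_sum (N m : ℕ) {ι : Type*} (s : Finset ι) (f : ι → MvPolynomial (Fin N) ℚ) :
    em N m (∑ i ∈ s, f i) = ∑ i ∈ s, em N m (f i) := by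
  classical
  induction s using Finset.induction_on with
  | empty =>
    rw [Finset.sum_empty, Finset.sum_empty]
    have h1 := em_C_mul N m 0 0
    rw [mul_zero, zero_mul] at h1
    exact h1
  | insert a s ha ih => rw [Finset.sum_insert ha, Finset.sum_insert ha, em_add, ih]

private theorem pd_comm {N : ℕ} (i j : Fin N) (f : MvPolynomial (Fin N) ℚ) :
    pderiv i (pderiv j f) = pderiv j (pderiv i f) := by
  classical
  induction f using MvPolynomial.induction_on with
  | C a => rw [pderiv_C, pderiv_C, map_zero, map_zero]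
  | add p q hp hq => rw [map_add, map_add, map_add, map_add, hp, hq]
  | mul_X p k hp =>
    rw [pderiv_mul, pderiv_mul, map_add, map_add, pderiv_mul, pderiv_mul, pderiv_mul, pderiv_mul,
      hp]
    have h1 : ∀ a b : Fin N, pderiv a (pderiv b (X k : MvPolynomial (Fin N) ℚ)) = 0 := by
      intro a b
      rw [pderiv_X]
      by_cases h : b = k
      · subst h
        rw [Pi.single_eq_same, pderiv_one]
      · rw [Pi.single_eq_of_ne (Ne.symm h), map_zero]
    rw [h1, h1]
    ring

private theorem pd_sum {N : ℕ} (i : Fin N) {ι : Type*} (s : Finset ι)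
    (f : ι → MvPolynomial (Fin N) ℚ) : pderiv i (∑ a ∈ s, f a) = ∑ a ∈ s, pderiv i (f a) :=
  map_sum _ _ _

private theorem pd_dl {N : ℕ} (i j : Fin N) (f : MvPolynomial (Fin N) ℚ) :
    pderiv j (dl N i f) = dl N i (pderiv j f) := by
  unfold dl
  rw [pd_sum]
  refine Finset.sum_congr rfl fun k _ => ?_
  rw [pderiv_C_mul, pd_comm]

private theorem dl_sum {N : ℕ} (i : Fin N) {ι : Type*} (s : Finset ι)
    (f : ι → MvPolynomial (Fin N) ℚ) : dl N i (∑ a ∈ s, f a) = ∑ a ∈ s, dl N i (f a) := by
  unfold dl
  rw [Finset.sum_comm]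
  refine Finset.sum_congr rfl fun k _ => ?_
  rw [pd_sum, Finset.mul_sum]

private theorem dl_dl {N : ℕ} (i j : Fin N) (f : MvPolynomial (Fin N) ℚ) :
    dl N i (dl N j f) = dl N j (dl N i f) := by
  conv_lhs => unfold dl
  conv_rhs => unfold dl
  simp only [pd_sum, pderiv_C_mul, Finset.mul_sum]
  rw [Finset.sum_comm]
  refine Finset.sum_congr rfl fun k _ => Finset.sum_congr rfl fun l _ => ?_
  rw [pd_comm]
  ring

private theorem lap_dl {N : ℕ} (i : Fin N) (f : MvPolynomial (Fin N) ℚ) :
    lap N (dl N i f) = dl N i (lap N f) := by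
  unfold lap
  rw [dl_sum]
  refine Finset.sum_congr rfl fun k _ => ?_
  rw [dl_dl, pd_dl]

private theorem it_dl {N : ℕ} (i : Fin N) (m : ℕ) (f : MvPolynomial (Fin N) ℚ) :
    (lap N)^[m] (dl N i f) = dl N i ((lap N)^[m] f) := by
  induction m with
  | zero => rfl
  | succ m ih => rw [Function.iterate_succ_apply', Function.iterate_succ_apply', ih, lap_dl]

private theorem kov_symm (N : ℕ) (i j : Fin N) : kov N i j = kov N j i := by
  unfold kov
  by_cases h : i = j
  · subst h
    rfl
  · rw [if_neg h, if_neg (Ne.symm h)]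

private theorem dl_X_mul {N : ℕ} (i j : Fin N) (f : MvPolynomial (Fin N) ℚ) :
    dl N j (X i * f) = X i * dl N j f + C (kov N j i) * f := by
  classical
  unfold dl
  have h1 : ∀ k, C (kov N j k) * pderiv k (X i * f) =
      X i * (C (kov N j k) * pderiv k f) + (if k = i then C (kov N j k) * f else 0) := by
    intro k
    rw [pderiv_mul, pderiv_X]
    by_cases h : k = i
    · subst h
      rw [Pi.single_eq_same, if_pos rfl]
      ring
    · rw [Pi.single_eq_of_ne (Ne.symm h), if_neg h]
      ring
  rw [Finset.sum_congr rfl fun k _ => h1 k, Finset.sum_add_distrib, Finset.mul_sum]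
  congr 1
  rw [Finset.sum_ite_eq' Finset.univ i, if_pos (Finset.mem_univ i)]

private theorem lap_X_mul {N : ℕ} (i : Fin N) (f : MvPolynomial (Fin N) ℚ) :
    lap N (X i * f) = X i * lap N f + C 2 * dl N i f := by
  classical
  unfold lap
  have h1 : ∀ k, pderiv k (dl N k (X i * f)) = X i * pderiv k (dl N k f) +
      ((if k = i then dl N k f else 0) + C (kov N i k) * pderiv k f) := by
    intro k
    rw [dl_X_mul, map_add, pderiv_mul, pderiv_X, pderiv_C_mul, kov_symm N k i]
    by_cases h : k = i
    · subst h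
      rw [Pi.single_eq_same, if_pos rfl]
      ring
    · rw [Pi.single_eq_of_ne (Ne.symm h), if_neg h]
      ring
  rw [Finset.sum_congr rfl fun k _ => h1 k, Finset.sum_add_distrib, Finset.mul_sum]
  congr 1
  rw [Finset.sum_add_distrib, Finset.sum_ite_eq' Finset.univ i, if_pos (Finset.mem_univ i)]
  have h2 : ∑ k, C (kov N i k) * pderiv k f = dl N i f := rfl
  rw [h2]
  have h3 : (C 2 : MvPolynomial (Fin N) ℚ) = 2 := by
    rw [← map_ofNat C 2]
  rw [h3]
  ring

private theorem it_X_mul {N : ℕ} (i : Fin N) (m : ℕ) (f : MvPolynomial (Fin N) ℚ) :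
    (lap N)^[m + 1] (X i * f) = X i * (lap N)^[m + 1] f +
      C (2 * ((m : ℚ) + 1)) * dl N i ((lap N)^[m] f) := by
  induction m with
  | zero =>
    rw [Function.iterate_succ_apply', Function.iterate_succ_apply']
    simp only [Function.iterate_zero, id]
    rw [lap_X_mul]
    norm_num
  | succ m ih =>
    rw [Function.iterate_succ_apply', ih, lap_add, lap_X_mul, lap_C_mul, lap_dl,
      Function.iterate_succ_apply' (lap N) (m + 1) f, Function.iterate_succ_apply' (lap N) m f]
    push_cast
    simp only [map_mul, map_add, map_one]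
    ring

/-- Gaussian integration by parts. -/
theorem em_succ_X_mul (N m : ℕ) (i : Fin N) (f : MvPolynomial (Fin N) ℚ) :
    em N (m + 1) (X i * f) = em N m (dl N i f) := by
  unfold em
  rw [it_X_mul, it_dl, map_add, map_mul, map_mul, constantCoeff_X, constantCoeff_C, zero_mul,
    zero_add, Nat.factorial_succ]
  have h1 : (m.factorial : ℚ) ≠ 0 := by positivity
  have h2 : ((m : ℚ) + 1) ≠ 0 := by positivity
  push_cast
  field_simp
  ring

theorem em_zero_X_mul (N : ℕ) (i : Fin N) (f : MvPolynomial (Fin N) ℚ) :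
    em N 0 (X i * f) = 0 := by
  rw [em_zero, map_mul, constantCoeff_X, zero_mul]

private theorem dl_rename (N : ℕ) (σ : Equiv.Perm (Fin N)) (i : Fin N)
    (f : MvPolynomial (Fin N) ℚ) : dl N (σ i) (rename σ f) = rename σ (dl N i f) := by
  unfold dl
  rw [← Equiv.sum_comp σ, map_sum]
  refine Finset.sum_congr rfl fun k _ => ?_
  rw [pderiv_rename σ.injective, map_mul, rename_C]
  have h1 : kov N (σ i) (σ k) = kov N i k := by
    unfold kov
    simp only [EmbeddingLike.apply_eq_iff_eq]
  rw [h1]

private theorem lap_rename (N : ℕ) (σ : Equiv.Perm (Fin N)) (f : MvPolynomial (Fin N) ℚ) :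
    lap N (rename σ f) = rename σ (lap N f) := by
  unfold lap
  rw [← Equiv.sum_comp σ, map_sum]
  refine Finset.sum_congr rfl fun k _ => ?_
  rw [dl_rename, pderiv_rename σ.injective]

/-- Invariance under permutations of the colours. -/
theorem em_rename (N m : ℕ) (σ : Equiv.Perm (Fin N)) (f : MvPolynomial (Fin N) ℚ) :
    em N m (rename σ f) = em N m f := by
  unfold em
  have h1 : (lap N)^[m] (rename σ f) = rename σ ((lap N)^[m] f) := by
    induction m with
    | zero => rfl
    | succ m ih => rw [Function.iterate_succ_apply', Function.iterate_succ_apply', ih, lap_rename]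
  rw [h1, constantCoeff_rename]

end Pool.Agent.Lib.MP_4a8162_co
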