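import Pool.Agent.Lib.MP_4a8162_co.EmSq

set_option autoImplicit false

namespace Pool.Agent.Lib.MP_4a8162_co

open MvPolynomial

/-! ### the derivation `dl` -/

private theorem f5_dl_add (N : ℕ) (a : Fin N) (f g : MvPolynomial (Fin N) ℚ) :
    dl N a (f + g) = dl N a f + dl N a g := by
  unfold dl
  rw [← Finset.sum_add_distrib]
  refine Finset.sum_congr rfl fun j _ => ?_
  rw [map_add, mul_add]

private theorem f5_dl_mul (N : ℕ) (a : Fin N) (f g : MvPolynomial (Fin N) ℚ) :
    dl N a (f * g) = dl N a f * g + f * dl N a g := by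
  unfold dl
  rw [Finset.sum_mul, Finset.mul_sum, ← Finset.sum_add_distrib]
  refine Finset.sum_congr rfl fun j _ => ?_
  rw [Derivation.leibniz, smul_eq_mul, smul_eq_mul]
  ring

private theorem f5_dl_one (N : ℕ) (a : Fin N) : dl N a 1 = 0 := by
  unfold dl
  refine Finset.sum_eq_zero fun j _ => ?_
  rw [Derivation.map_one_eq_zero, mul_zero]

private theorem f5_dl_zero (N : ℕ) (a : Fin N) : dl N a 0 = 0 := by
  unfold dl
  refine Finset.sum_eq_zero fun j _ => ?_
  rw [map_zero, mul_zero]

private theorem f5_dl_X (N : ℕ) (a c : Fin N) : dl N a (X c) = C (kov N a c) := by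
  unfold dl
  rw [Finset.sum_eq_single c]
  · rw [pderiv_X_self, mul_one]
  · intro j _ hj
    rw [pderiv_X_of_ne hj.symm, mul_zero]
  · intro h
    exact absurd (Finset.mem_univ _) h

private theorem f5_dl_sum (N : ℕ) (a : Fin N) {ι : Type} (s : Finset ι)
    (f : ι → MvPolynomial (Fin N) ℚ) : dl N a (∑ i ∈ s, f i) = ∑ i ∈ s, dl N a (f i) := by
  classical
  induction s using Finset.induction_on with
  | empty => rw [Finset.sum_empty, Finset.sum_empty, f5_dl_zero]
  | insert i s hi ih => rw [Finset.sum_insert hi, Finset.sum_insert hi, f5_dl_add, ih]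

private theorem f5_dl_pow (N : ℕ) (a : Fin N) (f : MvPolynomial (Fin N) ℚ) (n : ℕ) :
    dl N a (f ^ (n + 1)) = C ((n : ℚ) + 1) * (f ^ n * dl N a f) := by
  induction n with
  | zero => simp
  | succ n ih =>
    rw [pow_succ, f5_dl_mul, ih]
    push_cast
    simp only [map_add, map_one]
    ring

private theorem f5_dl_prod (N : ℕ) (a : Fin N) (B : Finset (Fin N)) :
    dl N a (∏ i ∈ B, X i) = ∑ c ∈ B, C (kov N a c) * ∏ i ∈ B.erase c, X i := by
  classical
  induction B using Finset.induction_on with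
  | empty => rw [Finset.prod_empty, Finset.sum_empty, f5_dl_one]
  | insert b B hb ih =>
    rw [Finset.prod_insert hb, Finset.sum_insert hb, f5_dl_mul, f5_dl_X, ih,
      Finset.erase_insert hb, Finset.mul_sum]
    congr 1
    refine Finset.sum_congr rfl fun c hc => ?_
    have hcb : c ≠ b := fun h => hb (h ▸ hc)
    rw [Finset.erase_insert_of_ne (Ne.symm hcb), Finset.prod_insert]
    · ring
    · intro h
      exact hb (Finset.mem_of_mem_erase h)

private theorem f5_dl_prod_neg (N : ℕ) (a : Fin N) (B : Finset (Fin N)) (ha : a ∉ B) :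
    dl N a (∏ i ∈ B, X i) = ∑ c ∈ B, C (-1) * ∏ i ∈ B.erase c, X i := by
  rw [f5_dl_prod]
  refine Finset.sum_congr rfl fun c hc => ?_
  have : a ≠ c := fun h => ha (h ▸ hc)
  unfold kov
  rw [if_neg this]

private theorem f5_dl_pth (N : ℕ) (a : Fin N) :
    dl N a (pth N) = C 3 * (C (N : ℚ) * X a ^ 2 - ∑ i, X i ^ 2) := by
  unfold pth
  rw [f5_dl_sum]
  have h1 : ∀ i : Fin N, dl N a (X i ^ 3) = C 3 * (C (kov N a i) * X i ^ 2) := by
    intro i
    rw [f5_dl_pow N a (X i) 2, f5_dl_X]
    have : ((2 : ℕ) : ℚ) + 1 = 3 := by norm_num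
    rw [this]
    ring
  simp only [h1]
  rw [← Finset.mul_sum]
  congr 1
  have h2 : ∀ i : Fin N, (C (kov N a i) * X i ^ 2 : MvPolynomial (Fin N) ℚ) =
      (if a = i then C (N : ℚ) * X a ^ 2 else 0) - X i ^ 2 := by
    intro i
    unfold kov
    split_ifs with h
    · subst h
      simp only [map_sub, map_one]
      ring
    · simp only [map_neg, map_one]
      ring
  simp only [h2]
  rw [Finset.sum_sub_distrib, Finset.sum_ite_eq, if_pos (Finset.mem_univ _)]

private theorem f5_em_neg (N m : ℕ) (f : MvPolynomial (Fin N) ℚ) : em N m (-f) = - em N m f := by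
  have : -f = C (-1) * f := by
    simp
  rw [this, em_C_mul]
  ring

private theorem f5_em_sub (N m : ℕ) (f g : MvPolynomial (Fin N) ℚ) :
    em N m (f - g) = em N m f - em N m g := by
  rw [sub_eq_add_neg, em_add, f5_em_neg]
  ring

/-! ### symmetry -/

private theorem f5_rename_pth (N : ℕ) (σ : Equiv.Perm (Fin N)) : rename σ (pth N) = pth N := by
  unfold pth
  rw [map_sum]
  simp only [map_pow, rename_X]
  exact Equiv.sum_comp σ (fun i => (X i ^ 3 : MvPolynomial (Fin N) ℚ))

private theorem f5_sym (N m j : ℕ) (σ : Equiv.Perm (Fin N)) (f g : MvPolynomial (Fin N) ℚ)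
    (h : rename σ f = g) : em N m (f * pth N ^ j) = em N m (g * pth N ^ j) := by
  rw [← em_rename N m σ (f * pth N ^ j), map_mul, map_pow, f5_rename_pth, h]

private theorem f5_exists_perm (N : ℕ) (B B' : Finset (Fin N)) (h : B.card = B'.card) :
    ∃ σ : Equiv.Perm (Fin N), B.map σ.toEmbedding = B' := by
  classical
  refine ⟨(Finset.equivOfCardEq h).extendSubtype, ?_⟩
  apply Finset.eq_of_subset_of_card_le
  · intro x hx
    obtain ⟨y, hy, rfl⟩ := Finset.mem_map.1 hx
    exact (Finset.equivOfCardEq h).extendSubtype_mem y hy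
  · rw [Finset.card_map, h]

private theorem f5_inv (N m j : ℕ) (B B' : Finset (Fin N)) (h : B.card = B'.card) :
    em N m ((∏ i ∈ B, X i) * pth N ^ j) = em N m ((∏ i ∈ B', X i) * pth N ^ j) := by
  obtain ⟨σ, rfl⟩ := f5_exists_perm N B B' h
  refine f5_sym N m j σ _ _ ?_
  rw [map_prod, Finset.prod_map]
  simp only [rename_X]
  rfl

private theorem f5_pth_hom (N j : ℕ) : (pth N ^ j).IsHomogeneous (3 * j) := by
  refine IsHomogeneous.pow ?_ j
  unfold pth
  refine IsHomogeneous.sum _ _ _ fun i _ => ?_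
  have := (isHomogeneous_X ℚ i).pow 3
  rwa [one_mul] at this

private theorem f5_prod_hom (N : ℕ) (B : Finset (Fin N)) :
    (∏ i ∈ B, (X i : MvPolynomial (Fin N) ℚ)).IsHomogeneous B.card := by
  have := IsHomogeneous.prod B (fun i => (X i : MvPolynomial (Fin N) ℚ)) (fun _ => 1)
    (fun i _ => isHomogeneous_X ℚ i)
  rwa [Finset.sum_const, smul_eq_mul, mul_one] at this

/-! ### the case `(j + 1, 0)` -/

private theorem f5_case_zero (N j m : ℕ) (h : 3 + 3 * j ≤ N) (B3 : Finset (Fin N))
    (hB3 : B3.card = 3) :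
    em N m (pth N ^ (j + 1)) =
      (N : ℚ) * (((N : ℚ) - 1) * ((N : ℚ) - 2) / 2) * em N m ((∏ i ∈ B3, X i) * pth N ^ j) := by
  classical
  obtain ⟨a, b, c, hab, hac, hbc, rfl⟩ := Finset.card_eq_three.1 hB3
  have e0 : (∏ i ∈ ({a, b, c} : Finset (Fin N)), (X i : MvPolynomial (Fin N) ℚ)) =
      X a * X b * X c := by
    rw [Finset.prod_insert (by simp [hab, hac]), Finset.prod_insert (by simp [hbc]),
      Finset.prod_singleton, mul_assoc]
  -- step 1
  have e1 : em N m (pth N ^ (j + 1)) = (N : ℚ) * em N m (X a ^ 3 * pth N ^ j) := by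
    have h1 : pth N ^ (j + 1) = ∑ i, X i ^ 3 * pth N ^ j := by
      rw [pow_succ']
      conv_lhs => rw [show pth N = ∑ i, X i ^ 3 from rfl]
      rw [Finset.sum_mul]
      rfl
    rw [h1, em_sum]
    have h2 : ∀ i : Fin N, em N m (X i ^ 3 * pth N ^ j) = em N m (X a ^ 3 * pth N ^ j) := by
      intro i
      refine f5_sym N m j (Equiv.swap i a) _ _ ?_
      rw [map_pow, rename_X, Equiv.swap_apply_left]
    simp only [h2]
    rw [Finset.sum_const, Finset.card_univ, Fintype.card_fin, nsmul_eq_mul]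
  -- step 2
  have e2 : em N m (X a ^ 3 * pth N ^ j) =
      -((N : ℚ) - 1) * em N m (X a ^ 2 * X b * pth N ^ j) := by
    have h1 := em_sum_X_mul N m (X a ^ 2 * pth N ^ j)
    rw [Finset.sum_mul, em_sum, ← Finset.add_sum_erase _ _ (Finset.mem_univ a)] at h1
    have h2 : ∀ i ∈ Finset.univ.erase a, em N m (X i * (X a ^ 2 * pth N ^ j)) =
        em N m (X a ^ 2 * X b * pth N ^ j) := by
      intro i hi
      have hia : i ≠ a := Finset.ne_of_mem_erase hi
      have h3 : (X i * (X a ^ 2 * pth N ^ j) : MvPolynomial (Fin N) ℚ) =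
          (X a ^ 2 * X i) * pth N ^ j := by ring
      rw [h3]
      refine f5_sym N m j (Equiv.swap i b) _ _ ?_
      rw [map_mul, map_pow, rename_X, rename_X, Equiv.swap_apply_left,
        Equiv.swap_apply_of_ne_of_ne hia.symm hab]
    rw [Finset.sum_congr rfl h2, Finset.sum_const, Finset.card_erase_of_mem (Finset.mem_univ _),
      Finset.card_univ, Fintype.card_fin, nsmul_eq_mul, Nat.cast_sub (by omega), Nat.cast_one] at h1
    have h4 : (X a * (X a ^ 2 * pth N ^ j) : MvPolynomial (Fin N) ℚ) = X a ^ 3 * pth N ^ j := by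
      ring
    rw [h4] at h1
    linarith
  -- step 3
  have e3 : 2 * em N m (X a ^ 2 * X b * pth N ^ j) =
      -((N : ℚ) - 2) * em N m (X a * X b * X c * pth N ^ j) := by
    have h1 := em_sum_X_mul N m (X a * X b * pth N ^ j)
    have hb' : b ∈ Finset.univ.erase a := Finset.mem_erase.2 ⟨hab.symm, Finset.mem_univ _⟩
    rw [Finset.sum_mul, em_sum, ← Finset.add_sum_erase _ _ (Finset.mem_univ a),
      ← Finset.add_sum_erase _ _ hb'] at h1
    have h2 : ∀ i ∈ (Finset.univ.erase a).erase b, em N m (X i * (X a * X b * pth N ^ j)) =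
        em N m (X a * X b * X c * pth N ^ j) := by
      intro i hi
      have hib : i ≠ b := Finset.ne_of_mem_erase hi
      have hia : i ≠ a := Finset.ne_of_mem_erase (Finset.mem_of_mem_erase hi)
      have h3 : (X i * (X a * X b * pth N ^ j) : MvPolynomial (Fin N) ℚ) =
          (X a * X b * X i) * pth N ^ j := by ring
      rw [h3]
      refine f5_sym N m j (Equiv.swap i c) _ _ ?_
      rw [map_mul, map_mul, rename_X, rename_X, rename_X, Equiv.swap_apply_left,
        Equiv.swap_apply_of_ne_of_ne hia.symm hac, Equiv.swap_apply_of_ne_of_ne hib.symm hbc]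
    rw [Finset.sum_congr rfl h2, Finset.sum_const, Finset.card_erase_of_mem hb',
      Finset.card_erase_of_mem (Finset.mem_univ _),
      Finset.card_univ, Fintype.card_fin, nsmul_eq_mul] at h1
    have h5 : ((N - 1 - 1 : ℕ) : ℚ) = (N : ℚ) - 2 := by
      rw [Nat.sub_sub, Nat.cast_sub (by omega)]
      norm_num
    rw [h5] at h1
    have h4 : (X a * (X a * X b * pth N ^ j) : MvPolynomial (Fin N) ℚ) =
        X a ^ 2 * X b * pth N ^ j := by
      ring
    have h6 : (X b * (X a * X b * pth N ^ j) : MvPolynomial (Fin N) ℚ) =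
        X b ^ 2 * X a * pth N ^ j := by
      ring
    have h7 : em N m (X b ^ 2 * X a * pth N ^ j) = em N m (X a ^ 2 * X b * pth N ^ j) := by
      refine f5_sym N m j (Equiv.swap a b) _ _ ?_
      rw [map_mul, map_pow, rename_X, rename_X, Equiv.swap_apply_left, Equiv.swap_apply_right]
    rw [h4, h6, h7] at h1
    linarith
  rw [e0, e1, e2]
  linear_combination (-(N : ℚ) * ((N : ℚ) - 1) / 2) * e3

/-! ### the case `(j + 1, 1)` -/

private theorem f5_case_one (N j m : ℕ) (hN : 1 ≤ N) (B : Finset (Fin N)) (hB : B.card = 1) :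
    em N m ((∏ i ∈ B, X i) * pth N ^ j) = 0 := by
  classical
  obtain ⟨a, rfl⟩ := Finset.card_eq_one.1 hB
  have h1 := em_sum_X_mul N m (pth N ^ j)
  rw [Finset.sum_mul, em_sum] at h1
  have h2 : ∀ i : Fin N, em N m (X i * pth N ^ j) = em N m (X a * pth N ^ j) := by
    intro i
    refine f5_sym N m j (Equiv.swap i a) _ _ ?_
    rw [rename_X, Equiv.swap_apply_left]
  simp only [h2] at h1
  rw [Finset.sum_const, Finset.card_univ, Fintype.card_fin, nsmul_eq_mul] at h1
  rw [Finset.prod_singleton]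
  have h3 : (N : ℚ) ≠ 0 := by
    have : N ≠ 0 := by omega
    exact_mod_cast this
  rcases mul_eq_zero.1 h1 with h | h
  · exact absurd h h3
  · exact h

/-! ### the term `D` -/

private theorem f5_D (N j m b : ℕ) (hb : b + 3 ≤ N) (a : Fin N) (B' : Finset (Fin N))
    (ha : a ∉ B') (hB' : B'.card = b + 1) (B3 : Finset (Fin N)) (hB3 : B3.card = b + 3) :
    ((b : ℚ) + 2) * em N m ((∏ i ∈ B', X i) * X a ^ 2 * pth N ^ j) =
      -((N : ℚ) - ((b : ℚ) + 2)) * em N m ((∏ i ∈ B3, X i) * pth N ^ j) := by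
  classical
  have h1 := em_sum_X_mul N m ((∏ i ∈ B', X i) * X a * pth N ^ j)
  rw [Finset.sum_mul, em_sum, ← Finset.sum_add_sum_compl (insert a B'),
    Finset.sum_insert ha] at h1
  have h2 : ∀ i ∈ B', em N m (X i * ((∏ i ∈ B', X i) * X a * pth N ^ j)) =
      em N m ((∏ i ∈ B', X i) * X a ^ 2 * pth N ^ j) := by
    intro i hi
    have hia : i ≠ a := fun h => ha (h ▸ hi)
    have h3 : (X i * ((∏ i ∈ B', X i) * X a * pth N ^ j) : MvPolynomial (Fin N) ℚ) =
        (X i * (∏ i ∈ B', X i) * X a) * pth N ^ j := by ring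
    rw [h3]
    refine f5_sym N m j (Equiv.swap i a) _ _ ?_
    rw [← Finset.mul_prod_erase _ _ hi]
    rw [map_mul, map_mul, map_mul, map_prod]
    simp only [rename_X]
    rw [Equiv.swap_apply_left, Equiv.swap_apply_right]
    have h4 : (∏ x ∈ B'.erase i, (X (Equiv.swap i a x) : MvPolynomial (Fin N) ℚ)) =
        ∏ x ∈ B'.erase i, X x := by
      refine Finset.prod_congr rfl fun x hx => ?_
      have hxi : x ≠ i := Finset.ne_of_mem_erase hx
      have hxa : x ≠ a := fun h => ha (h ▸ Finset.mem_of_mem_erase hx)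
      rw [Equiv.swap_apply_of_ne_of_ne hxi hxa]
    rw [h4]
    ring
  have h5 : ∀ i ∈ (insert a B')ᶜ, em N m (X i * ((∏ i ∈ B', X i) * X a * pth N ^ j)) =
      em N m ((∏ i ∈ B3, X i) * pth N ^ j) := by
    intro i hi
    rw [Finset.mem_compl] at hi
    have h3 : (X i * ((∏ i ∈ B', X i) * X a * pth N ^ j) : MvPolynomial (Fin N) ℚ) =
        (∏ x ∈ insert i (insert a B'), X x) * pth N ^ j := by
      rw [Finset.prod_insert hi, Finset.prod_insert ha]
      ring
    rw [h3]
    refine f5_inv N m j _ _ ?_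
    rw [Finset.card_insert_of_notMem hi, Finset.card_insert_of_notMem ha, hB', hB3]
  rw [Finset.sum_congr rfl h2, Finset.sum_congr rfl h5, Finset.sum_const, Finset.sum_const,
    Finset.card_compl, Finset.card_insert_of_notMem ha, hB', Fintype.card_fin, nsmul_eq_mul,
    nsmul_eq_mul, Nat.cast_sub (by omega)] at h1
  have h6 : (X a * ((∏ i ∈ B', X i) * X a * pth N ^ j) : MvPolynomial (Fin N) ℚ) =
      (∏ i ∈ B', X i) * X a ^ 2 * pth N ^ j := by ring
  rw [h6] at h1
  push_cast at h1
  linarith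

/-! ### the general step -/

private theorem f5_exists_card (N b : ℕ) (h : b ≤ N) : ∃ B : Finset (Fin N), B.card = b := by
  obtain ⟨B, -, hB⟩ := Finset.exists_subset_card_eq (s := (Finset.univ : Finset (Fin N))) (n := b)
    (by rw [Finset.card_univ, Fintype.card_fin]; exact h)
  exact ⟨B, hB⟩

/-- The recurrence computes the Gaussian moments. -/
theorem em_rc (N j b m : ℕ) (hN : 1 ≤ N) (h : b + 3 * j ≤ N) (hm : b + 3 * j = 2 * m)
    (B : Finset (Fin N)) (hB : B.card = b) :
    em N m ((∏ i ∈ B, X i) * pth N ^ j) = (N : ℚ) ^ j * rc (N : ℚ) j b := by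
  classical
  induction j generalizing b m B with
  | zero =>
    induction b using Nat.twoStepInduction generalizing m B with
    | zero =>
      have hm0 : m = 0 := by omega
      subst hm0
      rw [Finset.card_eq_zero.1 hB, Finset.prod_empty, em_zero]
      simp [rc, rowZero]
    | one => omega
    | more b ih1 ih2 =>
      obtain ⟨m', rfl⟩ : ∃ m', m = m' + 1 := ⟨m - 1, by omega⟩
      have hne : B.Nonempty := by
        rw [← Finset.card_pos]
        omega
      obtain ⟨a, ha⟩ := hne
      rw [← Finset.mul_prod_erase _ _ ha, mul_assoc, em_succ_X_mul, pow_zero, mul_one,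
        f5_dl_prod_neg N a _ (Finset.notMem_erase _ _), em_sum]
      have h1 : ∀ c ∈ B.erase a, em N m' (C (-1) * ∏ i ∈ (B.erase a).erase c, X i) =
          - rowZero ℚ b := by
        intro c hc
        rw [em_C_mul]
        have h2 := ih1 m' (by omega) (by omega) ((B.erase a).erase c) (by
          rw [Finset.card_erase_of_mem hc, Finset.card_erase_of_mem ha, hB]
          omega)
        rw [pow_zero, mul_one, pow_zero, one_mul] at h2
        rw [h2]
        change -1 * rowZero ℚ b = _
        ring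
      rw [Finset.sum_congr rfl h1, Finset.sum_const, Finset.card_erase_of_mem ha, hB, nsmul_eq_mul]
      change ((b + 2 - 1 : ℕ) : ℚ) * - rowZero ℚ b = (N : ℚ) ^ 0 * (-((b : ℚ) + 1) * rowZero ℚ b)
      have h3 : ((b + 2 - 1 : ℕ) : ℚ) = (b : ℚ) + 1 := by
        have : b + 2 - 1 = b + 1 := by omega
        rw [this]
        push_cast
        ring
      rw [h3, pow_zero]
      ring
  | succ j ihj =>
    induction b using Nat.twoStepInduction generalizing m B with
    | zero =>
      obtain ⟨B3, hB3⟩ := f5_exists_card N 3 (by omega)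
      rw [Finset.card_eq_zero.1 hB, Finset.prod_empty, one_mul,
        f5_case_zero N j m (by omega) B3 hB3, ihj 3 m (by omega) (by omega) B3 hB3]
      change _ = (N : ℚ) ^ (j + 1) *
        (algebraMap ℚ ℚ (1 / 2) * (((N : ℚ) - 1) * ((N : ℚ) - 2)) * rc (N : ℚ) j 3)
      rw [Algebra.algebraMap_self, RingHom.id_apply]
      ring
    | one =>
      rw [f5_case_one N (j + 1) m hN B hB]
      change 0 = (N : ℚ) ^ (j + 1) * 0
      rw [mul_zero]
    | more b ih1 ih2 =>
      obtain ⟨m', rfl⟩ : ∃ m', m = m' + 1 := ⟨m - 1, by omega⟩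
      obtain ⟨m'', rfl⟩ : ∃ m'', m' = m'' + 1 := ⟨m' - 1, by omega⟩
      have hne : B.Nonempty := by
        rw [← Finset.card_pos]
        omega
      obtain ⟨a, ha⟩ := hne
      obtain ⟨B3, hB3⟩ := f5_exists_card N (b + 3) (by omega)
      set B' := B.erase a with hB'
      have hcB' : B'.card = b + 1 := by
        rw [hB', Finset.card_erase_of_mem ha, hB]
        omega
      have haB' : a ∉ B' := Finset.notMem_erase _ _
      rw [← Finset.mul_prod_erase _ _ ha, mul_assoc, em_succ_X_mul, ← hB', f5_dl_mul,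
        f5_dl_prod_neg N a _ haB', f5_dl_pow, f5_dl_pth, em_add]
      -- first term
      have t1 : em N (m'' + 1) ((∑ c ∈ B', C (-1) * ∏ i ∈ B'.erase c, X i) * pth N ^ (j + 1)) =
          -((b : ℚ) + 1) * ((N : ℚ) ^ (j + 1) * rc (N : ℚ) (j + 1) b) := by
        rw [Finset.sum_mul, em_sum]
        have h1 : ∀ c ∈ B', em N (m'' + 1) (C (-1) * (∏ i ∈ B'.erase c, X i) * pth N ^ (j + 1)) =
            - ((N : ℚ) ^ (j + 1) * rc (N : ℚ) (j + 1) b) := by
          intro c hc
          rw [mul_assoc, em_C_mul, ih1 (m'' + 1) (by omega) (by omega) (B'.erase c) (by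
            rw [Finset.card_erase_of_mem hc, hcB']
            omega)]
          ring
        rw [Finset.sum_congr rfl h1, Finset.sum_const, hcB', nsmul_eq_mul]
        push_cast
        ring
      -- the term `R`
      have tR : em N (m'' + 1) ((∑ i, X i ^ 2) * ((∏ i ∈ B', X i) * pth N ^ j)) =
          (N : ℚ) * ((N : ℚ) + b + 3 * j) * ((N : ℚ) ^ j * rc (N : ℚ) j (b + 1)) := by
        have hh : ((∏ i ∈ B', X i) * pth N ^ j : MvPolynomial (Fin N) ℚ).IsHomogeneous
            (2 * m'') := by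
          have := (f5_prod_hom N B').mul (f5_pth_hom N j)
          rw [hcB'] at this
          have e : b + 1 + 3 * j = 2 * m'' := by omega
          rwa [e] at this
        rw [em_sq_mul N m'' _ hh, ihj (b + 1) m'' (by omega) (by omega) B' hcB']
        have e : (2 : ℚ) * (m'' : ℚ) = (b : ℚ) + 1 + 3 * (j : ℚ) := by
          have : 2 * m'' = b + 1 + 3 * j := by omega
          exact_mod_cast this
        rw [e]
        ring
      -- the term `D`
      have tD := f5_D N j (m'' + 1) b (by omega) a B' haB' hcB' B3 hB3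
      rw [ihj (b + 3) (m'' + 1) (by omega) (by omega) B3 hB3] at tD
      have e1 : ((∏ i ∈ B', X i) * (C ((j : ℚ) + 1) *
          (pth N ^ j * (C 3 * (C (N : ℚ) * X a ^ 2 - ∑ i, X i ^ 2)))) :
            MvPolynomial (Fin N) ℚ) =
          C (3 * ((j : ℚ) + 1)) * (C (N : ℚ) * ((∏ i ∈ B', X i) * X a ^ 2 * pth N ^ j) -
            (∑ i, X i ^ 2) * ((∏ i ∈ B', X i) * pth N ^ j)) := by
        rw [map_mul]
        ring
      rw [t1, e1, em_C_mul, f5_em_sub, em_C_mul, tR]
      change _ = (N : ℚ) ^ (j + 1) * (-((b : ℚ) + 1) * rc (N : ℚ) (j + 1) b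
        - 3 * ((j : ℚ) + 1) * (((N : ℚ) + 3 * (j : ℚ) + (b : ℚ)) * rc (N : ℚ) j (b + 1)
        + algebraMap ℚ ℚ (1 / ((b : ℚ) + 2)) * (((N : ℚ) - ((b : ℚ) + 2)) * rc (N : ℚ) j (b + 3))))
      rw [Algebra.algebraMap_self, RingHom.id_apply]
      have hb2 : (b : ℚ) + 2 ≠ 0 := by positivity
      have tD' : em N (m'' + 1) ((∏ i ∈ B', X i) * X a ^ 2 * pth N ^ j) =
          1 / ((b : ℚ) + 2) * (-((N : ℚ) - ((b : ℚ) + 2)) *
            ((N : ℚ) ^ j * rc (N : ℚ) j (b + 3))) := by
        rw [← tD]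
        field_simp
      rw [tD']
      ring

end Pool.Agent.Lib.MP_4a8162_co
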