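import Pool.Agent.Lib.MP_4a8162_co.Em

set_option autoImplicit false

namespace Pool.Agent.Lib.MP_4a8162_co

open MvPolynomial

private theorem sum_kov (N : ℕ) (j : Fin N) : ∑ i, kov N i j = 0 := by
  have h1 : ∀ i : Fin N, kov N i j = (if i = j then (N : ℚ) else 0) - 1 := by
    intro i
    unfold kov
    split_ifs <;> ring
  simp only [h1, Finset.sum_sub_distrib, Finset.sum_ite_eq', Finset.mem_univ, if_true,
    Finset.sum_const, Finset.card_univ, Fintype.card_fin, nsmul_eq_mul, mul_one, sub_self]

private theorem sum_dl (N : ℕ) (f : MvPolynomial (Fin N) ℚ) : ∑ i, dl N i f = 0 := by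
  unfold dl
  rw [Finset.sum_comm]
  refine Finset.sum_eq_zero fun j _ => ?_
  rw [← Finset.sum_mul, ← map_sum, sum_kov, map_zero, zero_mul]

/-- The sum of the coordinates is zero. -/
theorem em_sum_X_mul (N m : ℕ) (f : MvPolynomial (Fin N) ℚ) :
    em N m ((∑ i, X i) * f) = 0 := by
  rw [Finset.sum_mul, em_sum]
  cases m with
  | zero => exact Finset.sum_eq_zero fun i _ => em_zero_X_mul N i f
  | succ m =>
    simp only [em_succ_X_mul]
    rw [← em_sum, sum_dl]
    have h := em_C_mul N m 0 0
    simpa using h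

private theorem dl_X_mul (N : ℕ) (i : Fin N) (f : MvPolynomial (Fin N) ℚ) :
    dl N i (X i * f) = C (kov N i i) * f + X i * dl N i f := by
  unfold dl
  have h1 : ∀ j : Fin N, C (kov N i j) * pderiv j (X i * f) =
      (if j = i then C (kov N i j) * f else 0) + X i * (C (kov N i j) * pderiv j f) := by
    intro j
    rw [Derivation.leibniz, smul_eq_mul, smul_eq_mul, pderiv_X, Pi.single_apply]
    split_ifs with h2 h3 h3
    · ring
    · exact absurd h2.symm h3
    · exact absurd h3.symm h2
    · ring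
  simp only [h1, Finset.sum_add_distrib, Finset.sum_ite_eq', Finset.mem_univ, if_true,
    ← Finset.mul_sum]

/-- The square of the radius. -/
theorem em_sq_mul (N m : ℕ) (f : MvPolynomial (Fin N) ℚ) (hf : f.IsHomogeneous (2 * m)) :
    em N (m + 1) ((∑ i, X i ^ 2) * f) = (N : ℚ) * ((N : ℚ) - 1 + 2 * m) * em N m f := by
  have h1 : (∑ i, X i ^ 2) * f = ∑ i : Fin N, X i * (X i * f) := by
    rw [Finset.sum_mul]
    exact Finset.sum_congr rfl fun i _ => by ring
  rw [h1, em_sum]
  simp only [em_succ_X_mul]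
  rw [← em_sum]
  simp only [dl_X_mul]
  rw [Finset.sum_add_distrib, ← Finset.sum_mul, ← map_sum]
  have h2 : ∑ i : Fin N, kov N i i = (N : ℚ) * ((N : ℚ) - 1) := by
    simp only [kov, if_true, Finset.sum_const, Finset.card_univ, Fintype.card_fin, nsmul_eq_mul]
  have h3 : ∑ i : Fin N, X i * dl N i f =
      C (N : ℚ) * (∑ i : Fin N, X i * pderiv i f) - (∑ i, X i) * (∑ j, pderiv j f) := by
    have h4 : ∀ i : Fin N, X i * dl N i f =
        C (N : ℚ) * (X i * pderiv i f) - X i * (∑ j, pderiv j f) := by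
      intro i
      have h5 : dl N i f = C (N : ℚ) * pderiv i f - ∑ j, pderiv j f := by
        unfold dl
        have h6 : ∀ j : Fin N, C (kov N i j) * pderiv j f =
            (if i = j then C (N : ℚ) * pderiv j f else 0) - pderiv j f := by
          intro j
          unfold kov
          split_ifs with h
          · rw [C_sub, C_1]; ring
          · rw [C_neg, C_1]; ring
        simp only [h6, Finset.sum_sub_distrib, Finset.sum_ite_eq, Finset.mem_univ, if_true]
      rw [h5]
      ring
    simp only [h4, Finset.sum_sub_distrib, ← Finset.mul_sum, ← Finset.sum_mul]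
  have h7 : ∑ i : Fin N, X i * pderiv i f = C ((2 * m : ℕ) : ℚ) * f := by
    have := hf.sum_X_mul_pderiv
    rw [this, nsmul_eq_mul, ← map_natCast (C : ℚ →+* MvPolynomial (Fin N) ℚ)]
  have hsub : ∀ g₁ g₂ : MvPolynomial (Fin N) ℚ, em N m (g₁ - g₂) = em N m g₁ - em N m g₂ := by
    intro g₁ g₂
    have e1 : g₁ - g₂ = g₁ + C (-1) * g₂ := by
      rw [C_neg, C_1]; ring
    rw [e1, em_add, em_C_mul]
    ring
  rw [h2, h3, h7, em_add, hsub, em_sum_X_mul, em_C_mul, em_C_mul, em_C_mul]
  push_cast
  ring

end Pool.Agent.Lib.MP_4a8162_co
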