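import Pool.Agent.Lib.MP_4a8162_co.Cc

set_option autoImplicit false

namespace Pool.Agent.Lib.MP_4a8162_co

/-- A graphic matroid is represented over every field by its edge vectors. -/
theorem graphic_rep (K : Type*) [Field K] {M : Matroid ℕ} (hM : M.Finite) {m : ℕ}
    (ends : ℕ → Fin m × Fin m)
    (h : ∀ I : Set ℕ, M.Indep I ↔ (I ⊆ M.E ∧ LinearIndependent ℚ
      (fun x : I => (Pi.single (ends x).1 (1 : ℚ) - Pi.single (ends x).2 (1 : ℚ) : Fin m → ℚ))))
    (I : Set ℕ) :
    M.Indep I ↔ (I ⊆ M.E ∧ LinearIndependent K (fun x : I => evec K (ends x))) := by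
  rw [h I]
  constructor
  · rintro ⟨h1, h2⟩
    have hf : I.Finite := hM.ground_finite.subset h1
    exact ⟨h1, (indep_edges K ends I hf).2 ((indep_edges ℚ ends I hf).1 h2)⟩
  · rintro ⟨h1, h2⟩
    have hf : I.Finite := hM.ground_finite.subset h1
    exact ⟨h1, (indep_edges ℚ ends I hf).2 ((indep_edges K ends I hf).1 h2)⟩

private theorem mb_card {n : ℕ} (v : ℕ → Fin n → ℚ) {I : Set ℕ} (hI : I.Finite)
    (h : LinearIndepOn ℚ v I) :
    Module.finrank ℚ (Submodule.span ℚ (v '' I)) = I.ncard := by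
  have := hI.fintype
  have h1 := finrank_span_eq_card (R := ℚ) (b := fun x : I => v x) h
  rw [Set.image_eq_range, h1, ← Nat.card_eq_fintype_card, Nat.card_coe_set_eq]

private theorem mb_span {n : ℕ} (v : ℕ → Fin n → ℚ) {I J : Set ℕ} (hI : LinearIndepOn ℚ v I)
    (h : ∀ e ∈ J, LinearIndepOn ℚ v (insert e I) → e ∈ I) :
    Submodule.span ℚ (v '' J) ≤ Submodule.span ℚ (v '' I) := by
  rw [Submodule.span_le]
  rintro _ ⟨e, he, rfl⟩
  by_cases heI : e ∈ I
  · exact Submodule.subset_span ⟨e, heI, rfl⟩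
  · by_contra hx
    exact heI (h e he (LinearIndepOn.insert hI hx))

private theorem mb_aug {n : ℕ} (v : ℕ → Fin n → ℚ) {I J : Set ℕ} (hIf : I.Finite) (hJf : J.Finite)
    (hI : LinearIndepOn ℚ v I) (hJ : LinearIndepOn ℚ v J) (hlt : I.ncard < J.ncard) :
    ∃ e ∈ J, e ∉ I ∧ LinearIndepOn ℚ v (insert e I) := by
  by_contra hcon
  push Not at hcon
  have h1 := mb_span v (J := J) hI (fun e he hi => by
    by_contra heI
    exact hcon e he heI hi)
  have h2 := Submodule.finrank_mono h1
  rw [mb_card v hJf hJ, mb_card v hIf hI] at h2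
  omega

/-- Every list of edges is the edge list of a graphic matroid with ground set
`{0, ..., length - 1}`. -/
theorem exists_graphic {n : ℕ} (es : List (Fin n × Fin n)) :
    ∃ M : Matroid ℕ, M.E = {i | i < es.length} ∧ IsGraphic M ∧
      ∀ A : Finset (Fin es.length),
        M.eRk ((fun i : Fin es.length => (i : ℕ)) '' (A : Set (Fin es.length)))
          = ((n - cc es.get (A : Set (Fin es.length)) : ℕ) : ℕ∞) := by
  rcases Nat.eq_zero_or_pos n with rfl | hn
  · cases es with
    | cons a l => exact a.1.elim0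
    | nil =>
      refine ⟨Matroid.emptyOn ℕ, ?_, ⟨⟨?_⟩, 1, fun _ => (0, 0), fun I => ?_⟩, fun A => ?_⟩
      · rw [Matroid.emptyOn_ground]
        ext i
        simp
      · rw [Matroid.emptyOn_ground]
        exact Set.finite_empty
      · rw [Matroid.emptyOn_indep_iff, Matroid.emptyOn_ground, Set.subset_empty_iff]
        constructor
        · rintro rfl
          exact ⟨rfl, linearIndependent_empty_type⟩
        · exact fun h => h.1
      · have hA : (A : Set (Fin ([] : List (Fin 0 × Fin 0)).length)) = ∅ := by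
          ext i
          exact i.elim0
        rw [hA, Set.image_empty, Matroid.eRk_empty, Nat.zero_sub, Nat.cast_zero]
  · classical
    let ends : ℕ → Fin n × Fin n := fun i =>
      if h : i < es.length then es.get ⟨i, h⟩ else (⟨0, hn⟩, ⟨0, hn⟩)
    let v : ℕ → Fin n → ℚ := fun i => evec ℚ (ends i)
    let E : Set ℕ := {i | i < es.length}
    have hE : E.Finite := Set.finite_lt_nat _
    let IM : IndepMatroid ℕ := IndepMatroid.ofFinite hE (fun I => I ⊆ E ∧ LinearIndepOn ℚ v I)
      ⟨Set.empty_subset _, linearIndepOn_empty ℚ v⟩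
      (fun I J hJ hIJ => ⟨hIJ.trans hJ.1, hJ.2.mono hIJ⟩)
      (fun I J hI hJ hlt => by
        obtain ⟨e, he, heI, h⟩ := mb_aug v (hE.subset hI.1) (hE.subset hJ.1) hI.2 hJ.2 hlt
        exact ⟨e, he, heI, Set.insert_subset (hJ.1 he) hI.1, h⟩)
      (fun I hI => hI.1)
    have hind : ∀ I, IM.matroid.Indep I ↔ (I ⊆ E ∧ LinearIndepOn ℚ v I) := fun I =>
      IndepMatroid.matroid_indep_iff
    refine ⟨IM.matroid, rfl, ⟨⟨hE⟩, n, ends, hind⟩, fun A => ?_⟩
    set X : Set ℕ := (fun i : Fin es.length => (i : ℕ)) '' (A : Set (Fin es.length)) with hX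
    have hXE : X ⊆ IM.matroid.E := by
      rintro _ ⟨i, -, rfl⟩
      exact i.2
    obtain ⟨I, hI⟩ := IM.matroid.exists_isBasis X hXE
    obtain ⟨hIE, hIi⟩ := (hind I).1 hI.indep
    rw [hI.eRk_eq_encard, ← (hE.subset hIE).cast_ncard_eq]
    congr 1
    have hv : (Set.range fun x : (A : Set (Fin es.length)) => evec ℚ (es.get x)) = v '' X := by
      rw [hX, Set.image_image, Set.image_eq_range]
      refine congrArg Set.range (funext fun x => ?_)
      change evec ℚ (es.get x) = evec ℚ (ends ((x : Fin es.length) : ℕ))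
      have : ends ((x : Fin es.length) : ℕ) = es.get x := dif_pos (x : Fin es.length).2
      rw [this]
    have h1 := finrank_edges ℚ es.get (A : Set (Fin es.length)) A.finite_toSet
    have h2 : Submodule.span ℚ (v '' X) = Submodule.span ℚ (v '' I) := by
      refine le_antisymm (mb_span v hIi fun e he h => ?_)
        (Submodule.span_mono (Set.image_mono hI.subset))
      exact hI.mem_of_insert_indep he ((hind _).2 ⟨Set.insert_subset (hXE he) hIE, h⟩)
    rw [hv, h2, mb_card v (hE.subset hIE) hIi] at h1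
    omega

end Pool.Agent.Lib.MP_4a8162_co
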