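import Pool.Agent.Lib.MP_4a8162_co.MatBase

set_option autoImplicit false

namespace Pool.Agent.Lib.MP_4a8162_co

namespace K5_

/-- the edges of the complete graph with five vertices -/
def es : List (Fin 5 × Fin 5) :=
  [(0, 1), (0, 2), (0, 3), (0, 4), (1, 2), (1, 3), (1, 4), (2, 3), (2, 4), (3, 4)]

private theorem es_len : es.length = 10 := rfl

/-- the end of an edge -/
private def en1 (s : Bool) (e : Fin 5 × Fin 5) : Fin 5 := if s then e.1 else e.2

private theorem es_pair : ∀ i j : Fin es.length, i ≠ j → ∃ s t : Bool,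
    en1 s (es.get i) ≠ en1 t (es.get j) ∧ en1 (!s) (es.get i) ≠ en1 t (es.get j) ∧
    en1 (!t) (es.get j) ≠ en1 s (es.get i) ∧ en1 (!s) (es.get i) ≠ en1 s (es.get i) ∧
    en1 (!t) (es.get j) ≠ en1 t (es.get j) := by
  decide +kernel

private theorem card_sub : ∀ x y : Fin 5, x ≠ y →
    Fintype.card {v : Fin 5 // v ≠ x ∧ v ≠ y} = 3 := by
  decide +kernel

private theorem mk_eq {ι : Type*} (en : ι → Fin 5 × Fin 5) (A : Set ι) (i : ι) (hi : i ∈ A)
    (s : Bool) : Quot.mk (edgeRel en A) (en1 s (en i)) = Quot.mk _ (en1 (!s) (en i)) := by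
  cases s
  · exact (Quot.sound ⟨i, hi, rfl⟩).symm
  · exact Quot.sound ⟨i, hi, rfl⟩

private theorem cc_pair (i j : Fin es.length) (h : i ≠ j) :
    cc es.get ({i, j} : Set (Fin es.length)) ≤ 3 := by
  obtain ⟨s, t, h1, h2, h3, h4, h5⟩ := es_pair i j h
  unfold cc
  have hs : Function.Surjective (fun v : {v : Fin 5 // v ≠ en1 s (es.get i) ∧
      v ≠ en1 t (es.get j)} => Quot.mk (edgeRel es.get ({i, j} : Set (Fin es.length))) v.1) := by
    intro q
    induction q using Quot.ind with
    | mk v =>
      by_cases hv1 : v = en1 s (es.get i)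
      · refine ⟨⟨en1 (!s) (es.get i), h4, h2⟩, ?_⟩
        rw [hv1]
        exact (mk_eq es.get _ i (by simp) s).symm
      · by_cases hv2 : v = en1 t (es.get j)
        · refine ⟨⟨en1 (!t) (es.get j), h3, h5⟩, ?_⟩
          rw [hv2]
          exact (mk_eq es.get _ j (by simp) t).symm
        · exact ⟨⟨v, hv1, hv2⟩, rfl⟩
  refine (Nat.card_le_card_of_surjective _ hs).trans ?_
  rw [Nat.card_eq_fintype_card, card_sub _ _ h1]

private theorem cc_pos (A : Set (Fin es.length)) : 1 ≤ cc es.get A := by
  unfold cc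
  have : Nonempty (Quot (edgeRel es.get A)) := ⟨Quot.mk _ 0⟩
  have : Finite (Quot (edgeRel es.get A)) := Finite.of_surjective _ Quot.mk_surjective
  exact Nat.one_le_iff_ne_zero.2 Nat.card_pos.ne'

variable {G : Matroid ℕ} (hE : G.E = {i | i < es.length})
  (hr : ∀ A : Finset (Fin es.length),
    G.eRk ((fun i : Fin es.length => (i : ℕ)) '' (A : Set (Fin es.length)))
      = ((5 - cc es.get (A : Set (Fin es.length)) : ℕ) : ℕ∞))

include hr in
private theorem indep_pair {a b : ℕ} (ha : a < 10) (hb : b < 10) (h : a ≠ b) :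
    G.Indep {a, b} := by
  rw [Matroid.indep_iff_eRk_eq_encard_of_finite (Set.toFinite _)]
  refine le_antisymm (G.eRk_le_encard _) ?_
  have h1 := hr {⟨a, ha⟩, ⟨b, hb⟩}
  have h2 : (fun i : Fin es.length => (i : ℕ)) ''
      ((({⟨a, ha⟩, ⟨b, hb⟩} : Finset (Fin es.length)) : Set (Fin es.length))) = {a, b} := by
    rw [Finset.coe_pair, Set.image_pair]
  rw [h2] at h1
  rw [h1, Set.encard_pair h, Finset.coe_pair]
  have h3 := cc_pair ⟨a, ha⟩ ⟨b, hb⟩ (by
    intro h'
    exact h (congrArg Fin.val h'))
  have h4 : 2 ≤ 5 - cc es.get ({⟨a, ha⟩, ⟨b, hb⟩} : Set (Fin es.length)) := by omega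
  exact_mod_cast h4

include hr in
private theorem indep_small {S : Finset ℕ} (hS : ∀ a ∈ S, a < 10) (h : S.card ≤ 2) :
    G.Indep (S : Set ℕ) := by
  rcases Nat.lt_or_ge S.card 1 with h0 | h0
  · have : S = ∅ := Finset.card_eq_zero.1 (by omega)
    rw [this, Finset.coe_empty]
    exact G.empty_indep
  · rcases Nat.lt_or_ge S.card 2 with h1 | h1
    · obtain ⟨a, rfl⟩ := Finset.card_eq_one.1 (by omega : S.card = 1)
      have ha := hS a (by simp)
      obtain ⟨b, hb, hab⟩ : ∃ b < 10, a ≠ b := by
        by_cases h : a = 0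
        · exact ⟨1, by norm_num, by omega⟩
        · exact ⟨0, by norm_num, h⟩
      refine (indep_pair hr ha hb hab).subset ?_
      simp
    · obtain ⟨a, b, hab, rfl⟩ := Finset.card_eq_two.1 (by omega : S.card = 2)
      have := indep_pair hr (hS a (by simp)) (hS b (by simp)) hab
      rwa [Finset.coe_pair]

include hE hr in
private theorem eRank_dual : (6 : ℕ∞) ≤ G.dual.eRank := by
  have h1 := G.eRank_add_eRank_dual
  have h2 : G.eRank ≤ 4 := by
    have h3 := hr Finset.univ
    have h4 : (fun i : Fin es.length => (i : ℕ)) ''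
        ((Finset.univ : Finset (Fin es.length)) : Set (Fin es.length)) = G.E := by
      rw [hE]
      ext a
      constructor
      · rintro ⟨i, _, rfl⟩
        exact i.2
      · intro ha
        exact ⟨⟨a, ha⟩, by simp, rfl⟩
    rw [h4, G.eRk_ground] at h3
    rw [h3]
    have h5 := cc_pos ((Finset.univ : Finset (Fin es.length)) : Set (Fin es.length))
    have h6 : 5 - cc es.get ((Finset.univ : Finset (Fin es.length)) : Set (Fin es.length)) ≤ 4 := by
      omega
    exact_mod_cast h6
  have h3 : G.E.encard = 10 := by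
    have h4 : G.E = (Finset.range 10 : Set ℕ) := by
      rw [hE, es_len]
      ext a
      simp
    rw [h4, Set.encard_coe_eq_coe_finsetCard, Finset.card_range]
    rfl
  rw [h3] at h1
  by_contra h4
  push Not at h4
  have h5 : G.eRank + G.dual.eRank < 10 := by
    have h6 : G.dual.eRank ≤ 5 := by
      have h7 : (6 : ℕ∞) = 5 + 1 := by norm_num
      rw [h7] at h4
      exact Order.le_of_lt_add_one h4
    calc G.eRank + G.dual.eRank ≤ 4 + 5 := add_le_add h2 h6
      _ < 10 := by norm_num
  exact absurd h1 h5.ne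

end K5_

open K5_ in
/-- Some graphic matroid (the cycle matroid of `K_5`) is not cographic. -/
theorem exists_graphic_not_cographic : ∃ G : Matroid ℕ, IsGraphic G ∧ ¬ IsGraphic G.dual := by
  classical
  obtain ⟨G, hE, hG, hr⟩ := exists_graphic es
  refine ⟨G, hG, ?_⟩
  rintro ⟨hfin, m, ends, h⟩
  set v : ℕ → Fin m → ℚ := fun e => evec ℚ (ends e) with hv
  have hME : G.dual.E = {i | i < 10} := by
    rw [Matroid.dual_ground, hE, es_len]
  -- the support of the vectors
  let D : Fin m → Finset ℕ := fun x => (Finset.range 10).filter fun e => v e x ≠ 0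
  have hD : ∀ x, (D x).Nonempty → 3 ≤ (D x).card := by
    intro x hx
    by_contra hc
    have h1 : G.Indep (D x : Set ℕ) := indep_small hr (fun a ha => by
      have := (Finset.mem_filter.1 ha).1
      exact Finset.mem_range.1 this) (by omega)
    rw [← G.dual_dual, Matroid.dual_indep_iff_exists'] at h1
    obtain ⟨_, B, hB, hdis⟩ := h1
    obtain ⟨e, he⟩ := hx
    have he1 := Finset.mem_filter.1 he
    have heB : e ∉ B := fun h' => Set.disjoint_left.1 hdis he h'
    have hBi := (h B).1 hB.indep
    have h2 : G.dual.Indep (insert e B) := by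
      rw [h]
      refine ⟨Set.insert_subset ?_ hBi.1, ?_⟩
      · rw [hME]
        exact Finset.mem_range.1 he1.1
      · have h3 : LinearIndepOn ℚ v (insert e B) := by
          rw [linearIndepOn_insert heB]
          refine ⟨hBi.2, fun h4 => he1.2 ?_⟩
          have h5 : Submodule.span ℚ (v '' B) ≤ LinearMap.ker (LinearMap.proj x :
              (Fin m → ℚ) →ₗ[ℚ] ℚ) := by
            rw [Submodule.span_le]
            rintro u ⟨b, hb, rfl⟩
            by_contra h6
            refine Set.disjoint_left.1 hdis ?_ hb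
            refine Finset.mem_coe.2 (Finset.mem_filter.2 ⟨Finset.mem_range.2 ?_, h6⟩)
            have := hBi.1 hb
            rw [hME] at this
            exact this
          exact h5 h4
        exact h3
    have h3 := hB.eq_of_subset_indep h2 (Set.subset_insert _ _)
    exact heB (h3 ▸ Set.mem_insert _ _)
  -- the set of touched vertices
  let W : Finset (Fin m) := Finset.univ.filter fun x => (D x).Nonempty
  have hW : 3 * W.card ≤ 20 := by
    have h1 : ∀ e, (Finset.univ.filter fun x => v e x ≠ 0).card ≤ 2 := by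
      intro e
      refine (Finset.card_le_card (t := {(ends e).1, (ends e).2}) ?_).trans Finset.card_le_two
      intro x hx
      have hx1 := (Finset.mem_filter.1 hx).2
      by_contra hc
      simp only [Finset.mem_insert, Finset.mem_singleton, not_or] at hc
      apply hx1
      rw [hv]
      simp only [evec, Pi.sub_apply]
      rw [Pi.single_eq_of_ne hc.1, Pi.single_eq_of_ne hc.2, sub_zero]
    calc 3 * W.card = ∑ x ∈ W, 3 := by rw [Finset.sum_const, smul_eq_mul, mul_comm]
      _ ≤ ∑ x ∈ W, (D x).card := Finset.sum_le_sum fun x hx => hD x (Finset.mem_filter.1 hx).2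
      _ ≤ ∑ x, (D x).card := Finset.sum_le_sum_of_subset (Finset.filter_subset _ _)
      _ = ∑ e ∈ Finset.range 10, (Finset.univ.filter fun x => v e x ≠ 0).card := by
        simp only [D, Finset.card_filter]
        exact Finset.sum_comm
      _ ≤ ∑ e ∈ Finset.range 10, 2 := Finset.sum_le_sum fun e _ => h1 e
      _ = 20 := by simp
  obtain ⟨B, hB⟩ := G.dual.exists_isBase
  have hBi := (h B).1 hB.indep
  have hBl : LinearIndependent ℚ (fun b : B => v b) := hBi.2
  have hBf : B.Finite := hfin.ground_finite.subset hB.subset_ground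
  have := hBf.fintype
  have hBc : 6 ≤ Fintype.card B := by
    have h1 := eRank_dual hE hr
    rw [← hB.encard_eq_eRank, hBf.encard_eq_coe_toFinset_card] at h1
    have h2 : 6 ≤ hBf.toFinset.card := by exact_mod_cast h1
    rwa [← Set.toFinset_card, ← Set.Finite.toFinset_eq_toFinset hBf]
  have hin : ∀ b ∈ B, ∀ x, x ∉ W → v b x = 0 := by
    intro b hb x hx
    by_contra hc
    apply hx
    refine Finset.mem_filter.2 ⟨Finset.mem_univ _, b, Finset.mem_filter.2 ⟨?_, hc⟩⟩
    have := hBi.1 hb
    rw [hME] at this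
    exact Finset.mem_range.2 this
  obtain ⟨b0⟩ : Nonempty B := by
    rw [← Fintype.card_pos_iff]
    omega
  obtain ⟨w0, hw0⟩ : ∃ w0, w0 ∈ W := by
    by_contra hc
    push Not at hc
    apply hBl.ne_zero b0
    funext x
    exact hin b0 b0.2 x (hc x)
  -- the restriction to `W` without `w0`
  let f : (Fin m → ℚ) →ₗ[ℚ] ({x // x ∈ W.erase w0} → ℚ) :=
    LinearMap.funLeft ℚ ℚ (fun x : {x // x ∈ W.erase w0} => x.1)
  have hf : LinearIndependent ℚ (fun b : B => f (v b)) := by
    refine hBl.map ?_
    rw [Submodule.disjoint_def]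
    intro u hu hu2
    have h1 : ∀ x, x ∉ W → u x = 0 := by
      intro x hx
      have h5 : Submodule.span ℚ (Set.range fun b : B => v b) ≤
          LinearMap.ker (LinearMap.proj x : (Fin m → ℚ) →ₗ[ℚ] ℚ) := by
        rw [Submodule.span_le]
        rintro u ⟨b, rfl⟩
        exact hin b b.2 x hx
      exact h5 hu
    have h2 : ∑ x, u x = 0 := by
      have h5 : Submodule.span ℚ (Set.range fun b : B => v b) ≤
          LinearMap.ker (∑ x, LinearMap.proj x : (Fin m → ℚ) →ₗ[ℚ] ℚ) := by
        rw [Submodule.span_le]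
        rintro u ⟨b, rfl⟩
        simp only [SetLike.mem_coe, LinearMap.mem_ker, LinearMap.sum_apply, LinearMap.proj_apply]
        rw [hv]
        simp only [evec, Pi.sub_apply, Finset.sum_sub_distrib]
        rw [Finset.sum_pi_single', Finset.sum_pi_single']
        simp
      have h6 := h5 hu
      simpa using h6
    have h3 : ∀ x, x ≠ w0 → u x = 0 := by
      intro x hx
      by_cases hxW : x ∈ W
      · have h4 := congrFun (LinearMap.mem_ker.1 hu2) ⟨x, Finset.mem_erase.2 ⟨hx, hxW⟩⟩
        exact h4
      · exact h1 x hxW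
    funext x
    by_cases hx : x = w0
    · rw [Finset.sum_eq_single w0 (fun b _ hb => h3 b hb) (fun h' => absurd (Finset.mem_univ _) h')]
        at h2
      rw [hx]
      exact h2
    · exact h3 x hx
  have h1 := hf.fintype_card_le_finrank
  rw [Module.finrank_fintype_fun_eq_card, Fintype.card_coe, Finset.card_erase_of_mem hw0] at h1
  omega

end Pool.Agent.Lib.MP_4a8162_co
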