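import Pool.Agent.Lib.MP_4a8162_co.Defs

set_option autoImplicit false

namespace Pool.Agent.Lib.MP_4a8162_co

namespace F8

/-- The positive part of the bracket. -/
def PP (p Q B0 A b op qp qn : ℕ) : ℕ :=
  A * (b * (B0 + b * Q)) * op + A * (p - (b + 2) * Q) * qp + A * ((b + 2) * Q - p) * qn

theorem kstep_nil (p Q B0 A b yp yn op on : ℕ) (acc : L) :
    kstep p Q B0 A L.nil b yp yn op on acc = acc := rfl

theorem kstep_cons (p Q B0 A qp qn : ℕ) (t : L) (b yp yn op on : ℕ) (acc : L) :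
    kstep p Q B0 A (L.cons qp qn t) b yp yn op on acc =
      Bool.rec (motive := fun _ => L) acc
        (kstep p Q B0 A t (b + 2)
          ((((b - 1) * yn + PP p Q B0 A b on qn qp / (b + 1)) -
            ((b - 1) * yp + PP p Q B0 A b op qp qn / (b + 1))) +
              (A * (b * (B0 + b * Q))) * 1009)
          ((((b - 1) * yp + PP p Q B0 A b op qp qn / (b + 1)) -
            ((b - 1) * yn + PP p Q B0 A b on qn qp / (b + 1))) +
              (A * (b * (B0 + b * Q))) * 1009) qp qn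
          (L.cons
            ((((b - 1) * yn + PP p Q B0 A b on qn qp / (b + 1)) -
              ((b - 1) * yp + PP p Q B0 A b op qp qn / (b + 1))) +
                (A * (b * (B0 + b * Q))) * 1009)
            ((((b - 1) * yp + PP p Q B0 A b op qp qn / (b + 1)) -
              ((b - 1) * yn + PP p Q B0 A b on qn qp / (b + 1))) +
                (A * (b * (B0 + b * Q))) * 1009) acc))
        (Nat.beq (PP p Q B0 A b op qp qn % (b + 1)) (PP p Q B0 A b on qn qp % (b + 1))) :=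
  rfl

/-- The list holds `f b, f (b+2), ...`. -/
def Rep : L → (ℕ → ℚ) → ℕ → Prop
  | L.nil, _, _ => True
  | L.cons a c t, f, b => (a : ℚ) - c = f b ∧ Rep t f (b + 2)

/-- The list holds `f (e-2), f (e-4), ..., f b0`. -/
def RR : L → (ℕ → ℚ) → ℕ → ℕ → Prop
  | L.nil, _, b0, e => e = b0
  | L.cons a c t, f, b0, e => ∃ e', e = e' + 2 ∧ (a : ℚ) - c = f e' ∧ RR t f b0 e'

theorem krev_spec (f : ℕ → ℚ) (b0 : ℕ) : ∀ (l acc : L) (e : ℕ), RR l f b0 e → Rep acc f e →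
    Rep (krev l acc) f b0 := by
  intro l
  induction l with
  | nil =>
    intro acc e h1 h2
    have h1' : e = b0 := h1
    subst h1'
    exact h2
  | cons a c t ih =>
    intro acc e h1 h2
    obtain ⟨e', rfl, h3, h4⟩ := h1
    exact ih (L.cons a c acc) e' h4 ⟨h3, h2⟩

theorem div_val (P N b : ℕ) (h : P % (b + 1) = N % (b + 1)) :
    ((P / (b + 1) : ℕ) : ℚ) - ((N / (b + 1) : ℕ) : ℚ) = ((P : ℚ) - N) / ((b : ℚ) + 1) := by
  have h1 := Nat.div_add_mod P (b + 1)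
  have h2 := Nat.div_add_mod N (b + 1)
  have h3 : (P : ℚ) = ((b : ℚ) + 1) * ((P / (b + 1) : ℕ) : ℚ) + ((P % (b + 1) : ℕ) : ℚ) := by
    exact_mod_cast h1.symm
  have h4 : (N : ℚ) = ((b : ℚ) + 1) * ((N / (b + 1) : ℕ) : ℚ) + ((N % (b + 1) : ℕ) : ℚ) := by
    exact_mod_cast h2.symm
  have hb : ((b : ℚ) + 1) ≠ 0 := by positivity
  rw [eq_div_iff hb]
  conv_rhs => rw [h3, h4, h]
  ring

theorem sub_val (X Y s : ℕ) :
    ((Y - X + s : ℕ) : ℚ) - ((X - Y + s : ℕ) : ℚ) = (Y : ℚ) - X := by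
  have h : ((Y - X + s : ℕ) : ℤ) - ((X - Y + s : ℕ) : ℤ) = (Y : ℤ) - X := by omega
  exact_mod_cast h

theorem PP_val (p Q B0 A b op on qp qn : ℕ) :
    (PP p Q B0 A b op qp qn : ℚ) - PP p Q B0 A b on qn qp =
      A * (b * (B0 + b * Q)) * ((op : ℚ) - on) + A * ((p : ℚ) - (b + 2) * Q) * ((qp : ℚ) - qn) := by
  have h : ((p - (b + 2) * Q : ℕ) : ℚ) - (((b + 2) * Q - p : ℕ) : ℚ) = (p : ℚ) - (b + 2) * Q := by
    have := sub_val ((b + 2) * Q) p 0
    push_cast [Nat.add_zero] at this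
    simpa using this
  unfold PP
  push_cast
  linear_combination (A : ℚ) * ((qp : ℚ) - qn) * h

/-- The recurrence satisfied by a new row. -/
def Step (p Q B0 A : ℕ) (f g : ℕ → ℚ) : Prop := ∀ b : ℕ, 1 ≤ b →
  ((b : ℚ) + 1) * g (b + 2) = -((b : ℚ) + 1) * ((b : ℚ) - 1) * g b -
    A * (b * (B0 + b * Q) * f (b + 1) + ((p : ℚ) - (b + 2) * Q) * f (b + 3))

theorem kstep_spec (p Q B0 A : ℕ) (f g : ℕ → ℚ) (hG : Step p Q B0 A f g) (b0 : ℕ) :
    ∀ (row : L) (b yp yn op on : ℕ) (acc : L), 1 ≤ b → Rep row f (b + 3) →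
      ((yp : ℚ) - yn = g b ∨ b = 1) → (op : ℚ) - on = f (b + 1) → RR acc g b0 (b + 2) →
      ∃ e, RR (kstep p Q B0 A row b yp yn op on acc) g b0 e := by
  intro row
  induction row with
  | nil =>
    intro b yp yn op on acc _ _ _ _ hacc
    rw [kstep_nil]
    exact ⟨_, hacc⟩
  | cons qp qn t ih =>
    intro b yp yn op on acc hb hrow hy ho hacc
    rw [kstep_cons]
    obtain ⟨hq, ht⟩ := hrow
    cases hbeq : Nat.beq (PP p Q B0 A b op qp qn % (b + 1)) (PP p Q B0 A b on qn qp % (b + 1)) with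
    | false => exact ⟨_, hacc⟩
    | true =>
      have hmod := Nat.eq_of_beq_eq_true hbeq
      have hval : (((((b - 1) * yn + PP p Q B0 A b on qn qp / (b + 1)) -
            ((b - 1) * yp + PP p Q B0 A b op qp qn / (b + 1))) +
              (A * (b * (B0 + b * Q))) * 1009 : ℕ) : ℚ) -
          (((((b - 1) * yp + PP p Q B0 A b op qp qn / (b + 1)) -
            ((b - 1) * yn + PP p Q B0 A b on qn qp / (b + 1))) +
              (A * (b * (B0 + b * Q))) * 1009 : ℕ) : ℚ) = g (b + 2) := by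
        rw [sub_val]
        have h1 := div_val _ _ b hmod
        rw [PP_val, ho, hq] at h1
        have h2 := hG b hb
        have hb1 : ((b : ℚ) + 1) ≠ 0 := by positivity
        have h3 : ((b - 1 : ℕ) : ℚ) = (b : ℚ) - 1 := by
          rw [Nat.cast_sub hb, Nat.cast_one]
        have h4 : ((b : ℚ) - 1) * ((yp : ℚ) - yn) = ((b : ℚ) - 1) * g b := by
          rcases hy with h | h
          · rw [h]
          · rw [h]
            norm_num
        rw [div_eq_mul_inv] at h1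
        apply mul_left_cancel₀ hb1
        rw [h2]
        push_cast
        rw [h3]
        have h5 : ((b : ℚ) + 1) * (((PP p Q B0 A b op qp qn / (b + 1) : ℕ) : ℚ) -
            ((PP p Q B0 A b on qn qp / (b + 1) : ℕ) : ℚ)) =
            A * (b * (B0 + b * Q)) * f (b + 1) + A * ((p : ℚ) - (b + 2) * Q) * f (b + 3) := by
          rw [h1]
          field_simp
        push_cast at h5
        linear_combination -h5 - ((b : ℚ) + 1) * h4
      exact ih (b + 2) _ _ qp qn _ (by omega) ht (Or.inl hval) hq ⟨b + 2, rfl, hval, hacc⟩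

theorem krow0_spec (f : ℕ → ℚ) (hf : ∀ b : ℕ, 2 ≤ b → f (b + 2) = -((b : ℚ) - 1) * f b)
    (b0 : ℕ) : ∀ (m b yp yn : ℕ) (acc : L), 2 ≤ b → (yp : ℚ) - yn = f b → RR acc f b0 b →
      ∃ e, RR (krow0 m b yp yn acc) f b0 e := by
  intro m
  induction m with
  | zero =>
    intro b yp yn acc _ _ hacc
    exact ⟨_, hacc⟩
  | succ m ih =>
    intro b yp yn acc hb hy hacc
    refine ih (b + 2) ((b - 1) * yn) ((b - 1) * yp) (L.cons yp yn acc) (by omega) ?_
      ⟨b, rfl, hy, hacc⟩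
    have h3 : ((b - 1 : ℕ) : ℚ) = (b : ℚ) - 1 := by
      rw [Nat.cast_sub (by omega), Nat.cast_one]
    rw [hf b hb, ← hy]
    push_cast
    rw [h3]
    ring

/-- The scaled recurrence. -/
noncomputable def w (p Q j b : ℕ) : ℚ := (Q : ℚ) ^ j * rc ((p : ℚ) / Q) j b / ((b : ℚ) - 1)

theorem w_zero_two (p Q : ℕ) : w p Q 0 2 = -1 := by
  unfold w
  have : rc ((p : ℚ) / Q) 0 2 = -(((0 : ℕ) : ℚ) + 1) * 1 := rfl
  rw [this]
  norm_num

theorem w_zero_step (p Q b : ℕ) (hb : 2 ≤ b) : w p Q 0 (b + 2) = -((b : ℚ) - 1) * w p Q 0 b := by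
  unfold w
  have : rc ((p : ℚ) / Q) 0 (b + 2) = -((b : ℚ) + 1) * rc ((p : ℚ) / Q) 0 b := rfl
  rw [this]
  have h1 : (b : ℚ) - 1 ≠ 0 := by
    have : (2 : ℚ) ≤ b := by exact_mod_cast hb
    intro h
    linarith
  have h2 : (b : ℚ) + 1 ≠ 0 := by positivity
  have h3 : ((b + 2 : ℕ) : ℚ) - 1 = (b : ℚ) + 1 := by
    push_cast
    ring
  rw [h3]
  field_simp

theorem rc_succ (t : ℚ) (j b : ℕ) : rc t (j + 1) (b + 2) = -((b : ℚ) + 1) * rc t (j + 1) b
      - 3 * ((j : ℚ) + 1) * ((t + 3 * (j : ℚ) + (b : ℚ)) * rc t j (b + 1)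
        + (1 / ((b : ℚ) + 2)) * ((t - ((b : ℚ) + 2)) * rc t j (b + 3))) := rfl

theorem rc_succ_zero (t : ℚ) (j : ℕ) :
    rc t (j + 1) 0 = (1 / 2) * ((t - 1) * (t - 2)) * rc t j 3 := rfl

theorem rc_one (t : ℚ) (j : ℕ) : rc t j 1 = 0 := by
  cases j <;> rfl

theorem w_succ_two (p Q j : ℕ) (hQ : 0 < Q) :
    w p Q (j + 1) 2 = -((p : ℚ) - 2 * Q) * (p + (3 * j + 2) * Q) * w p Q j 3 / Q := by
  unfold w
  have h := rc_succ ((p : ℚ) / Q) j 0
  rw [rc_succ_zero, zero_add, rc_one] at h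
  have hQ' : (Q : ℚ) ≠ 0 := by exact_mod_cast hQ.ne'
  rw [h]
  push_cast
  field_simp
  ring

theorem w_step (p Q j : ℕ) (hQ : 0 < Q) :
    Step p Q (3 * j * Q + p) (3 * (j + 1)) (w p Q j) (w p Q (j + 1)) := by
  intro b hb
  unfold w
  have hQ' : (Q : ℚ) ≠ 0 := by exact_mod_cast hQ.ne'
  have hb' : (1 : ℚ) ≤ b := by exact_mod_cast hb
  have h0 : (b : ℚ) ≠ 0 := by positivity
  have h1 : (b : ℚ) + 1 ≠ 0 := by positivity
  have h2 : (b : ℚ) + 2 ≠ 0 := by positivity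
  have e1 : ((b + 2 : ℕ) : ℚ) - 1 = (b : ℚ) + 1 := by push_cast; ring
  have e2 : ((b + 1 : ℕ) : ℚ) - 1 = (b : ℚ) := by push_cast; ring
  have e3 : ((b + 3 : ℕ) : ℚ) - 1 = (b : ℚ) + 2 := by push_cast; ring
  have e4 : ((b : ℚ) - 1) * ((Q : ℚ) ^ (j + 1) * rc ((p : ℚ) / Q) (j + 1) b / ((b : ℚ) - 1)) =
      (Q : ℚ) ^ (j + 1) * rc ((p : ℚ) / Q) (j + 1) b := by
    rcases Nat.lt_or_ge 1 b with h | h
    · have : (b : ℚ) - 1 ≠ 0 := by
        have : (1 : ℚ) < b := by exact_mod_cast h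
        intro h
        linarith
      field_simp
    · have : b = 1 := by omega
      subst this
      rw [rc_one]
      simp
  rw [e1, e2, e3, rc_succ, mul_assoc (-((b : ℚ) + 1)), e4]
  push_cast
  field_simp
  ring

theorem kodd_spec (p Q j : ℕ) (hQ : 0 < Q) (e : L) (he : Rep e (w p Q j) 2) :
    Rep (kodd p Q j e) (w p Q (j + 1)) 3 := by
  cases e with
  | nil => trivial
  | cons op on t =>
    obtain ⟨h1, h2⟩ := he
    obtain ⟨e', he'⟩ := kstep_spec p Q (3 * j * Q + p) (3 * (j + 1)) (w p Q j) (w p Q (j + 1))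
      (w_step p Q j hQ) 3 t 1 0 0 op on L.nil le_rfl h2 (Or.inr rfl) h1 rfl
    exact krev_spec _ _ _ _ e' he' trivial

theorem keven_cons (p Q j op on : ℕ) (t : L) : keven p Q j (L.cons op on t) =
    Bool.rec (motive := fun _ => L) L.nil
      (krev (kstep p Q (3 * j * Q + p) (3 * (j + 1)) t 2
        ((p - 2 * Q) * (p + (3 * j + 2) * Q) * on / Q)
        ((p - 2 * Q) * (p + (3 * j + 2) * Q) * op / Q) op on
        (L.cons ((p - 2 * Q) * (p + (3 * j + 2) * Q) * on / Q)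
        ((p - 2 * Q) * (p + (3 * j + 2) * Q) * op / Q) L.nil)) L.nil)
      (Nat.beq ((p - 2 * Q) * (p + (3 * j + 2) * Q) * op % Q)
        ((p - 2 * Q) * (p + (3 * j + 2) * Q) * on % Q)) := rfl

theorem keven_spec (p Q j : ℕ) (hQ : 0 < Q) (hp : 2 * Q ≤ p) (o : L) (ho : Rep o (w p Q j) 3) :
    Rep (keven p Q j o) (w p Q (j + 1)) 2 := by
  cases o with
  | nil => trivial
  | cons op on t =>
    obtain ⟨h1, h2⟩ := ho
    rw [keven_cons]
    cases hbeq : Nat.beq ((p - 2 * Q) * (p + (3 * j + 2) * Q) * op % Q)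
        ((p - 2 * Q) * (p + (3 * j + 2) * Q) * on % Q) with
    | false => trivial
    | true =>
      have hmod := Nat.eq_of_beq_eq_true hbeq
      have hval : (((p - 2 * Q) * (p + (3 * j + 2) * Q) * on / Q : ℕ) : ℚ) -
          (((p - 2 * Q) * (p + (3 * j + 2) * Q) * op / Q : ℕ) : ℚ) = w p Q (j + 1) 2 := by
        obtain ⟨q, rfl⟩ : ∃ q, Q = q + 1 := ⟨Q - 1, by omega⟩
        rw [div_val _ _ q hmod.symm, w_succ_two p (q + 1) j hQ, ← h1]
        have h3 : ((p - 2 * (q + 1) : ℕ) : ℚ) = (p : ℚ) - 2 * (q + 1) := by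
          rw [Nat.cast_sub hp]
          push_cast
          ring
        push_cast
        rw [h3]
        ring
      obtain ⟨e', he'⟩ := kstep_spec p Q (3 * j * Q + p) (3 * (j + 1)) (w p Q j) (w p Q (j + 1))
        (w_step p Q j hQ) 2 t 2 _ _ op on
        (L.cons ((p - 2 * Q) * (p + (3 * j + 2) * Q) * on / Q)
          ((p - 2 * Q) * (p + (3 * j + 2) * Q) * op / Q) L.nil) (by norm_num) h2 (Or.inl hval) h1
        ⟨2, rfl, hval, rfl⟩
      exact krev_spec _ _ _ _ e' he' trivial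

theorem kiter_spec (p Q : ℕ) (hQ : 0 < Q) (hp : 2 * Q ≤ p) : ∀ (m j : ℕ) (e : L),
    Rep e (w p Q j) 2 → Rep (kiter p Q m j e) (w p Q (j + 2 * m)) 2 := by
  intro m
  induction m with
  | zero =>
    intro j e he
    exact he
  | succ m ih =>
    intro j e he
    have h := ih (j + 2) (keven p Q (j + 1) (kodd p Q j e))
      (keven_spec p Q (j + 1) hQ hp _ (kodd_spec p Q j hQ e he))
    have e1 : j + 2 * (m + 1) = j + 2 + 2 * m := by ring
    rw [e1]
    exact h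

end F8

/-- Correctness of the kernel computation. -/
theorem kneg_correct (p Q m : ℕ) (hQ : 0 < Q) (hp : 2 * Q ≤ p) (h : kneg p Q m = true) :
    rc ((p : ℚ) / Q) (2 * m + 1) 3 < 0 := by
  have h0 : ∃ e, F8.RR (krow0 (m + 2) 2 0 1 L.nil) (F8.w p Q 0) 2 e :=
    F8.krow0_spec (F8.w p Q 0) (fun b hb => F8.w_zero_step p Q b hb) 2 (m + 2) 2 0 1 L.nil le_rfl
      (by rw [F8.w_zero_two]; norm_num) rfl
  obtain ⟨e, he⟩ := h0
  have h1 : F8.Rep (krev (krow0 (m + 2) 2 0 1 L.nil) L.nil) (F8.w p Q 0) 2 :=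
    F8.krev_spec _ _ _ _ e he trivial
  have h2 := F8.kiter_spec p Q hQ hp m 0 _ h1
  rw [zero_add] at h2
  have h3 := F8.kodd_spec p Q (2 * m) hQ _ h2
  have h4 : kneg p Q m = L.rec (motive := fun _ => Bool) false
    (fun a b _ _ => Nat.ble (Nat.add a 1) b)
    (kodd p Q (2 * m) (kiter p Q m 0 (krev (krow0 (m + 2) 2 0 1 L.nil) L.nil))) := rfl
  rw [h4] at h
  generalize kodd p Q (2 * m) (kiter p Q m 0 (krev (krow0 (m + 2) 2 0 1 L.nil) L.nil)) = l at h h3
  cases l with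
  | nil => exact absurd h (by simp)
  | cons a b t =>
    have h5 : a + 1 ≤ b := Nat.le_of_ble_eq_true h
    have h6 : ((a : ℚ)) - b = F8.w p Q (2 * m + 1) 3 := h3.1
    have h7 : F8.w p Q (2 * m + 1) 3 < 0 := by
      rw [← h6]
      have : (a : ℚ) + 1 ≤ b := by exact_mod_cast h5
      linarith
    unfold F8.w at h7
    have hQ' : (0 : ℚ) < (Q : ℚ) ^ (2 * m + 1) := by
      have : (0 : ℚ) < Q := by exact_mod_cast hQ
      positivity
    have h8 : ((3 : ℕ) : ℚ) - 1 = 2 := by norm_num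
    rw [h8] at h7
    by_contra hneg
    push Not at hneg
    have : 0 ≤ (Q : ℚ) ^ (2 * m + 1) * rc ((p : ℚ) / Q) (2 * m + 1) 3 / 2 := by positivity
    linarith

end Pool.Agent.Lib.MP_4a8162_co
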