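import Pool.Agent.Lib.MP_4a8162_co.Defs

set_option autoImplicit false
set_option maxRecDepth 100000

namespace Pool.Agent.Lib.MP_4a8162_co

/-- Kernel computation (about one minute). -/
theorem kneg_eval : kneg 61 10 519 = true := by decide +kernel

end Pool.Agent.Lib.MP_4a8162_co
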