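import Pool.Agent.Lib.MP_4a8162_co.Defs

set_option autoImplicit false

namespace Pool.Agent.Lib.MP_4a8162_co

namespace MinorAux

/-- edge vectors -/
def wv {m : ℕ} (ends : ℕ → Fin m × Fin m) (x : ℕ) : Fin m → ℚ :=
  Pi.single (ends x).1 (1 : ℚ) - Pi.single (ends x).2 (1 : ℚ)

theorem isGraphic_iff (M : Matroid ℕ) : IsGraphic M ↔ M.Finite ∧ ∃ m : ℕ,
    ∃ ends : ℕ → Fin m × Fin m, ∀ I : Set ℕ,
      M.Indep I ↔ (I ⊆ M.E ∧ LinearIndepOn ℚ (wv ends) I) := Iff.rfl

/-- the vertex representatives modulo a subspace -/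
theorem exists_rep {m : ℕ} (S : Submodule ℚ (Fin m → ℚ)) :
    ∃ π : Fin m → Fin m, (∀ u, (Pi.single u (1 : ℚ) - Pi.single (π u) 1 : Fin m → ℚ) ∈ S) ∧
      ∀ u v, (Pi.single u (1 : ℚ) - Pi.single v 1 : Fin m → ℚ) ∈ S → π u = π v := by
  classical
  let s : Setoid (Fin m) :=
    { r := fun u v => (Pi.single u (1 : ℚ) - Pi.single v 1 : Fin m → ℚ) ∈ S
      iseqv := by
        refine ⟨fun u => ?_, fun {u v} h => ?_, fun {u v w} h h' => ?_⟩
        · rw [sub_self]
          exact S.zero_mem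
        · rw [← neg_sub]
          exact S.neg_mem h
        · rw [← sub_add_sub_cancel _ (Pi.single v (1 : ℚ) : Fin m → ℚ) _]
          exact S.add_mem h h' }
  refine ⟨fun u => (Quotient.mk s u).out, fun u => ?_, fun u v h => ?_⟩
  · have h1 : s.r (Quotient.mk s u).out u := Quotient.mk_out (s := s) u
    have h2 : s.r u (Quotient.mk s u).out := s.iseqv.symm h1
    exact h2
  · have h1 : Quotient.mk s u = Quotient.mk s v := Quotient.sound (s := s) h
    show (Quotient.mk s u).out = (Quotient.mk s v).out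
    rw [h1]

/-- the induced linear map on vertex vectors -/
noncomputable def pm {m : ℕ} (π : Fin m → Fin m) : (Fin m → ℚ) →ₗ[ℚ] (Fin m → ℚ) :=
  Fintype.linearCombination ℚ (fun u => (Pi.single (π u) (1 : ℚ) : Fin m → ℚ))

theorem pm_single {m : ℕ} (π : Fin m → Fin m) (u : Fin m) :
    pm π (Pi.single u (1 : ℚ)) = Pi.single (π u) 1 := by
  unfold pm
  rw [Fintype.linearCombination_apply_single, one_smul]

theorem pm_wv {m : ℕ} (π : Fin m → Fin m) (ends : ℕ → Fin m × Fin m) (x : ℕ) :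
    pm π (wv ends x) = wv (fun y => (π (ends y).1, π (ends y).2)) x := by
  unfold wv
  rw [map_sub, pm_single, pm_single]

theorem sub_pm_mem {m : ℕ} (S : Submodule ℚ (Fin m → ℚ)) (π : Fin m → Fin m)
    (hπ : ∀ u, (Pi.single u (1 : ℚ) - Pi.single (π u) 1 : Fin m → ℚ) ∈ S) (x : Fin m → ℚ) :
    x - pm π x ∈ S := by
  have h1 : x = ∑ u, x u • (Pi.single u (1 : ℚ) : Fin m → ℚ) := by
    conv_lhs => rw [← Finset.univ_sum_single x]
    refine Finset.sum_congr rfl fun u _ => ?_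
    rw [← Pi.single_smul', smul_eq_mul, mul_one]
  have h2 : x - pm π x = ∑ u, x u • (Pi.single u (1 : ℚ) - Pi.single (π u) 1 : Fin m → ℚ) := by
    simp only [smul_sub, Finset.sum_sub_distrib]
    rw [← h1]
    unfold pm
    rw [Fintype.linearCombination_apply]
  rw [h2]
  exact S.sum_mem fun u _ => S.smul_mem _ (hπ u)

theorem ker_pm {m : ℕ} (ends : ℕ → Fin m × Fin m) (J : Set ℕ) (π : Fin m → Fin m)
    (hπ : ∀ u, (Pi.single u (1 : ℚ) - Pi.single (π u) 1 : Fin m → ℚ) ∈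
      Submodule.span ℚ (wv ends '' J))
    (hπ' : ∀ u v, (Pi.single u (1 : ℚ) - Pi.single v 1 : Fin m → ℚ) ∈
      Submodule.span ℚ (wv ends '' J) → π u = π v) :
    LinearMap.ker (pm π) = Submodule.span ℚ (wv ends '' J) := by
  apply le_antisymm
  · intro x hx
    have h := sub_pm_mem _ π hπ x
    rw [LinearMap.mem_ker.1 hx, sub_zero] at h
    exact h
  · rw [Submodule.span_le]
    rintro _ ⟨e, he, rfl⟩
    have h1 : π (ends e).1 = π (ends e).2 :=
      hπ' _ _ (Submodule.subset_span ⟨e, he, rfl⟩)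
    show wv ends e ∈ LinearMap.ker (pm π)
    rw [LinearMap.mem_ker, pm_wv]
    show (Pi.single (π (ends e).1) (1 : ℚ) - Pi.single (π (ends e).2) 1 : Fin m → ℚ) = 0
    rw [h1, sub_self]

theorem contr_aux {m : ℕ} (w : ℕ → Fin m → ℚ) (P : (Fin m → ℚ) →ₗ[ℚ] (Fin m → ℚ)) (I J : Set ℕ)
    (hP : LinearMap.ker P = Submodule.span ℚ (w '' J)) (hJ : LinearIndepOn ℚ w J)
    (hd : Disjoint J I) :
    LinearIndepOn ℚ w (J ∪ I) ↔ LinearIndepOn ℚ (fun x => P (w x)) I := by
  rw [← hJ.quotient_iff_union hd]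
  let Q : ((Fin m → ℚ) ⧸ Submodule.span ℚ (w '' J)) →ₗ[ℚ] (Fin m → ℚ) :=
    Submodule.liftQ _ P hP.ge
  have hQ : LinearMap.ker Q = ⊥ := Submodule.ker_liftQ_eq_bot _ _ _ hP.le
  have h1 : (fun x : I => P (w x)) = Q ∘ (fun x : I => (Submodule.mkQ _ ∘ w) x) := by
    funext x
    show P (w x) = Submodule.liftQ _ P hP.ge (Submodule.mkQ _ (w x))
    rw [Submodule.mkQ_apply, Submodule.liftQ_apply]
  unfold LinearIndepOn
  rw [h1, LinearMap.linearIndependent_iff Q hQ]

end MinorAux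

open MinorAux

/-- Graphic matroids are closed under contraction. -/
theorem graphic_contract {M : Matroid ℕ} (hM : IsGraphic M) (X : Set ℕ) :
    IsGraphic (M.contract X) := by
  rw [isGraphic_iff] at hM ⊢
  obtain ⟨hfin, m, ends, hI⟩ := hM
  obtain ⟨J, hJ⟩ := M.exists_isBasis' X
  have hJ1 := (hI J).1 hJ.indep
  obtain ⟨π, hπ, hπ'⟩ := exists_rep (Submodule.span ℚ (wv ends '' J))
  have hk := ker_pm ends J π hπ hπ'
  refine ⟨inferInstance, m, fun y => (π (ends y).1, π (ends y).2), fun I => ?_⟩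
  have h1 : (wv fun y => (π (ends y).1, π (ends y).2)) = fun x => pm π (wv ends x) := by
    funext x
    rw [pm_wv]
  rw [h1, hJ.contract_indep_iff, hI, Matroid.contract_ground]
  constructor
  · rintro ⟨⟨h2, h3⟩, h4⟩
    have h5 : Disjoint J I := Set.disjoint_of_subset_left hJ.subset h4
    refine ⟨fun x hx => ⟨h2 (Or.inl hx), fun hxX => Set.disjoint_left.1 h4 hxX hx⟩, ?_⟩
    rw [← contr_aux (wv ends) (pm π) I J hk hJ1.2 h5, Set.union_comm]
    exact h3
  · rintro ⟨h2, h3⟩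
    have h4 : Disjoint X I := Set.disjoint_left.2 fun x hxX hx => (h2 hx).2 hxX
    have h5 : Disjoint J I := Set.disjoint_of_subset_left hJ.subset h4
    rw [← contr_aux (wv ends) (pm π) I J hk hJ1.2 h5, Set.union_comm] at h3
    exact ⟨⟨Set.union_subset (fun x hx => (h2 hx).1) hJ1.1, h3⟩, h4⟩

/-- Graphic matroids are closed under deletion. -/
theorem graphic_delete {M : Matroid ℕ} (hM : IsGraphic M) (X : Set ℕ) :
    IsGraphic (M.delete X) := by
  rw [isGraphic_iff] at hM ⊢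
  obtain ⟨hfin, m, ends, hI⟩ := hM
  refine ⟨inferInstance, m, ends, fun I => ?_⟩
  rw [Matroid.delete_indep_iff, hI, Matroid.delete_ground]
  constructor
  · rintro ⟨⟨h2, h3⟩, h4⟩
    exact ⟨fun x hx => ⟨h2 hx, fun hxX => Set.disjoint_left.1 h4 hx hxX⟩, h3⟩
  · rintro ⟨h2, h3⟩
    exact ⟨⟨fun x hx => (h2 hx).1, h3⟩, Set.disjoint_left.2 fun x hx hxX => (h2 hx).2 hxX⟩

/-- Graphic matroids are closed under relabelling. -/
theorem graphic_map {M : Matroid ℕ} (hM : IsGraphic M) (f : ℕ → ℕ) (hf : Set.InjOn f M.E) :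
    IsGraphic (M.map f hf) := by
  rw [isGraphic_iff] at hM ⊢
  obtain ⟨hfin, m, ends, hI⟩ := hM
  have key : ∀ I : Set ℕ, I ⊆ M.E →
      (LinearIndepOn ℚ (wv ends) I ↔
        LinearIndepOn ℚ (wv (ends ∘ Function.invFunOn f M.E)) (f '' I)) := by
    intro I hIE
    have hinj : Set.InjOn f I := hf.mono hIE
    have h1 : ∀ x ∈ I, Function.invFunOn f M.E (f x) = x := fun x hx =>
      hf.leftInvOn_invFunOn (hIE hx)
    let e : I ≃ (f '' I) := Equiv.Set.imageOfInjOn f I hinj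
    have h2 : (fun x : I => wv ends x) =
        (fun y : (f '' I) => wv (ends ∘ Function.invFunOn f M.E) y) ∘ e := by
      funext x
      show wv ends x = wv (ends ∘ Function.invFunOn f M.E) (f x)
      unfold wv
      rw [Function.comp_apply, h1 x x.2]
    unfold LinearIndepOn
    rw [h2, linearIndependent_equiv e]
  refine ⟨inferInstance, m, ends ∘ Function.invFunOn f M.E, fun I => ?_⟩
  rw [Matroid.map_indep_iff, Matroid.map_ground]
  constructor
  · rintro ⟨I0, h1, rfl⟩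
    have h2 := (hI I0).1 h1
    exact ⟨Set.image_mono h2.1, (key I0 h2.1).1 h2.2⟩
  · rintro ⟨h1, h2⟩
    obtain ⟨I0, h3, rfl⟩ := Set.subset_image_iff.1 h1
    exact ⟨I0, (hI I0).2 ⟨h3, (key I0 h3).2 h2⟩, rfl⟩

end Pool.Agent.Lib.MP_4a8162_co
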