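import Pool.Agent.Lib.MP_4a8162_co.Defs

set_option autoImplicit false

namespace Pool.Agent.Lib.MP_4a8162_co

private theorem eval_rowZero (x : ℚ) : ∀ b : ℕ,
    (rowZero (Polynomial ℚ) b).eval x = rowZero ℚ b ∧
      (rowZero (Polynomial ℚ) (b + 1)).eval x = rowZero ℚ (b + 1) := by
  intro b
  induction b with
  | zero => exact ⟨Polynomial.eval_one, Polynomial.eval_zero⟩
  | succ b ih =>
    refine ⟨ih.2, ?_⟩
    show (-((b : Polynomial ℚ) + 1) * rowZero (Polynomial ℚ) b).eval x =
      -((b : ℚ) + 1) * rowZero ℚ b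
    rw [Polynomial.eval_mul, Polynomial.eval_neg, Polynomial.eval_add, Polynomial.eval_natCast,
      Polynomial.eval_one, ih.1]

private theorem eval_rowNext (x : ℚ) (j : ℕ) (r : ℕ → Polynomial ℚ) (r' : ℕ → ℚ)
    (h : ∀ b, (r b).eval x = r' b) : ∀ b : ℕ,
    (rowNext (Polynomial.X : Polynomial ℚ) j r b).eval x = rowNext x j r' b ∧
      (rowNext (Polynomial.X : Polynomial ℚ) j r (b + 1)).eval x = rowNext x j r' (b + 1) := by
  intro b
  induction b with
  | zero =>
    constructor
    · show (algebraMap ℚ (Polynomial ℚ) (1 / 2) *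
        (((Polynomial.X : Polynomial ℚ) - 1) * (Polynomial.X - 2)) * r 3).eval x =
        algebraMap ℚ ℚ (1 / 2) * ((x - 1) * (x - 2)) * r' 3
      rw [Polynomial.eval_mul, Polynomial.eval_mul, Polynomial.eval_mul, Polynomial.eval_sub,
        Polynomial.eval_sub, Polynomial.eval_X, Polynomial.eval_one, Polynomial.eval_ofNat, h,
        Polynomial.algebraMap_eq, Polynomial.eval_C]
      rfl
    · exact Polynomial.eval_zero
  | succ b ih =>
    refine ⟨ih.2, ?_⟩
    show (-((b : Polynomial ℚ) + 1) * rowNext (Polynomial.X : Polynomial ℚ) j r b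
        - 3 * ((j : Polynomial ℚ) + 1) * ((Polynomial.X + 3 * (j : Polynomial ℚ) +
          (b : Polynomial ℚ)) * r (b + 1) + algebraMap ℚ (Polynomial ℚ) (1 / ((b : ℚ) + 2)) *
          ((Polynomial.X - ((b : Polynomial ℚ) + 2)) * r (b + 3)))).eval x =
      -((b : ℚ) + 1) * rowNext x j r' b
        - 3 * ((j : ℚ) + 1) * ((x + 3 * (j : ℚ) + (b : ℚ)) * r' (b + 1)
        + algebraMap ℚ ℚ (1 / ((b : ℚ) + 2)) * ((x - ((b : ℚ) + 2)) * r' (b + 3)))
    simp only [Polynomial.eval_sub, Polynomial.eval_mul, Polynomial.eval_add, Polynomial.eval_neg,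
      Polynomial.eval_natCast, Polynomial.eval_one, Polynomial.eval_ofNat, Polynomial.eval_X,
      Polynomial.algebraMap_eq, Polynomial.eval_C, ih.1, h]
    rfl

/-- The recurrence commutes with evaluation. -/
theorem eval_rc (x : ℚ) (j b : ℕ) :
    (rc (Polynomial.X : Polynomial ℚ) j b).eval x = rc x j b := by
  induction j generalizing b with
  | zero => exact (eval_rowZero x b).1
  | succ j ih => exact (eval_rowNext x j _ _ ih b).1

end Pool.Agent.Lib.MP_4a8162_co
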