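import Pool.Agent.Lib.MP_4a8162_co.Cc

set_option autoImplicit false

namespace Pool.Agent.Lib.MP_4a8162_co

/-- The flow polynomial at an integer as a Potts partition function. -/
theorem potts {n : ℕ} (N : ℕ) (es : List (Fin n × Fin n)) :
    (N : ℚ) ^ n * (FP es).eval (N : ℚ) =
      ∑ c : Fin n → Fin N, (es.map fun e => kov N (c e.1) (c e.2)).prod := by
  classical
  have hkov : ∀ a b : Fin N, kov N a b = (N : ℚ) * (if a = b then 1 else 0) + (-1) := by
    intro a b
    unfold kov
    split_ifs <;> ring
  have hexp : ∀ c : Fin n → Fin N, (es.map fun e => kov N (c e.1) (c e.2)).prod =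
      ∑ A : Finset (Fin es.length), (N : ℚ) ^ A.card * (-1) ^ (es.length - A.card) *
        (if ∀ i ∈ (A : Set (Fin es.length)), c (es.get i).1 = c (es.get i).2 then 1 else 0) := by
    intro c
    rw [← Fin.prod_univ_fun_getElem]
    simp_rw [hkov]
    rw [Finset.prod_add, Finset.powerset_univ]
    refine Finset.sum_congr rfl fun A _ => ?_
    rw [Finset.prod_mul_distrib, Finset.prod_const, Finset.prod_const,
      Finset.card_sdiff_of_subset (Finset.subset_univ A), Finset.card_univ, Fintype.card_fin]
    have h1 : ∏ i ∈ A, (if c (es[i.1]).1 = c (es[i.1]).2 then (1 : ℚ) else 0) =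
        if ∀ i ∈ (A : Set (Fin es.length)), c (es.get i).1 = c (es.get i).2 then 1 else 0 := by
      split_ifs with h
      · refine Finset.prod_eq_one fun i hi => ?_
        exact if_pos (h i (Finset.mem_coe.2 hi))
      · push Not at h
        obtain ⟨i, hi, hne⟩ := h
        exact Finset.prod_eq_zero (Finset.mem_coe.1 hi) (if_neg hne)
    rw [h1]
    ring
  have hcount : ∀ A : Finset (Fin es.length),
      ∑ c : Fin n → Fin N,
        (if ∀ i ∈ (A : Set (Fin es.length)), c (es.get i).1 = c (es.get i).2 then (1 : ℚ) else 0) =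
        (N : ℚ) ^ cc es.get (A : Set (Fin es.length)) := by
    intro A
    rw [Finset.sum_boole, ← Nat.cast_pow, ← card_const (N := N) es.get (A : Set (Fin es.length)),
      Nat.card_eq_fintype_card, Fintype.card_subtype]
  simp_rw [hexp]
  rw [Finset.sum_comm]
  simp_rw [← Finset.mul_sum, hcount]
  unfold FP
  rw [Polynomial.eval_finsetSum, Finset.mul_sum]
  refine Finset.sum_congr rfl fun A _ => ?_
  rw [Polynomial.eval_mul, Polynomial.eval_pow, Polynomial.eval_pow, Polynomial.eval_X,
    Polynomial.eval_neg, Polynomial.eval_one]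
  have hle := le_card_add_cc es.get A
  have h2 : (N : ℚ) ^ n * (N : ℚ) ^ (A.card + cc es.get (A : Set (Fin es.length)) - n) =
      (N : ℚ) ^ A.card * (N : ℚ) ^ cc es.get (A : Set (Fin es.length)) := by
    rw [← pow_add, ← pow_add, Nat.add_sub_cancel' hle]
  calc (N : ℚ) ^ n * ((-1) ^ (es.length - A.card) *
        (N : ℚ) ^ (A.card + cc es.get (A : Set (Fin es.length)) - n)) =
      (-1) ^ (es.length - A.card) * ((N : ℚ) ^ n *
        (N : ℚ) ^ (A.card + cc es.get (A : Set (Fin es.length)) - n)) := by ring
    _ = _ := by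
      rw [h2]
      ring

end Pool.Agent.Lib.MP_4a8162_co
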