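import Pool.Agent.Lib.MP_4a8162_co.Em
import Pool.Agent.Lib.MP_4a8162_co.Potts

set_option autoImplicit false

namespace Pool.Agent.Lib.MP_4a8162_co

open MvPolynomial

private theorem dl_one (N : ℕ) (i : Fin N) : dl N i (1 : MvPolynomial (Fin N) ℚ) = 0 := by
  unfold dl
  refine Finset.sum_eq_zero fun j _ => ?_
  rw [pderiv_one, mul_zero]

private theorem dl_mul (N : ℕ) (i : Fin N) (f g : MvPolynomial (Fin N) ℚ) :
    dl N i (f * g) = dl N i f * g + f * dl N i g := by
  unfold dl
  rw [Finset.sum_mul, Finset.mul_sum, ← Finset.sum_add_distrib]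
  refine Finset.sum_congr rfl fun j _ => ?_
  rw [pderiv_mul]
  ring

private theorem dl_X (N : ℕ) (i j : Fin N) : dl N i (X j) = C (kov N i j) := by
  unfold dl
  rw [Finset.sum_eq_single j]
  · rw [pderiv_X_self, mul_one]
  · intro k _ hk
    rw [pderiv_X_of_ne (Ne.symm hk), mul_zero]
  · intro h
    exact absurd (Finset.mem_univ j) h

private theorem dl_prod {n : ℕ} (N : ℕ) (i : Fin N) (c : Fin n → Fin N) (l : List (Fin n)) :
    dl N i ((l.map fun b => (X (c b) : MvPolynomial (Fin N) ℚ)).prod) =
      ∑ j : Fin l.length, C (kov N i (c (l.get j))) *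
        (((l.eraseIdx j).map fun b => (X (c b) : MvPolynomial (Fin N) ℚ)).prod) := by
  induction l with
  | nil =>
    simp [dl_one]
  | cons a l ih =>
    rw [List.map_cons, List.prod_cons, dl_mul, dl_X, ih]
    refine Eq.trans ?_ (Fin.sum_univ_succ (n := l.length) (fun j : Fin (l.length + 1) =>
      C (kov N i (c ((a :: l).get j))) *
        ((((a :: l).eraseIdx j).map fun b => (X (c b) : MvPolynomial (Fin N) ℚ)).prod))).symm
    congr 1
    rw [Finset.mul_sum]
    refine Finset.sum_congr rfl fun j _ => ?_
    have h1 : (a :: l).eraseIdx (Fin.succ j).val = a :: l.eraseIdx j.val := by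
      simp
    rw [h1, List.map_cons, List.prod_cons]
    have h2 : (a :: l).get (Fin.succ j) = l.get j := rfl
    rw [h2]
    ring

private theorem tot_nil {n : ℕ} (k : ℕ) (es : List (Fin n × Fin n)) : tot k [] es = FP es := by
  cases k <;> rfl

private theorem tot_zero_cons {n : ℕ} (a : Fin n) (l : List (Fin n))
    (es : List (Fin n × Fin n)) : tot 0 (a :: l) es = 0 := rfl

private theorem tot_succ_cons {n : ℕ} (k : ℕ) (a : Fin n) (l : List (Fin n))
    (es : List (Fin n × Fin n)) :
    tot (k + 1) (a :: l) es =
      ∑ i : Fin l.length, tot k (l.eraseIdx i) ((a, l.get i) :: es) := rfl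

/-- The sum over all pairings, evaluated at an integer. -/
theorem tot_eval {n : ℕ} (N k : ℕ) (l : List (Fin n)) (hl : l.length = 2 * k)
    (es : List (Fin n × Fin n)) :
    (N : ℚ) ^ n * (tot k l es).eval (N : ℚ) =
      ∑ c : Fin n → Fin N, (es.map fun e => kov N (c e.1) (c e.2)).prod *
        em N k ((l.map fun a => X (c a)).prod) := by
  induction k generalizing l es with
  | zero =>
    have hl0 : l = [] := by
      rw [mul_zero] at hl
      exact List.length_eq_zero_iff.1 hl
    subst hl0
    rw [tot_nil, potts]
    refine Finset.sum_congr rfl fun c _ => ?_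
    rw [em_zero]
    simp
  | succ k ih =>
    cases l with
    | nil =>
      simp at hl
    | cons a l =>
      have hl' : l.length = 2 * k + 1 := by
        rw [List.length_cons] at hl
        omega
      rw [tot_succ_cons, Polynomial.eval_finsetSum, Finset.mul_sum]
      have h1 : ∀ i : Fin l.length, (N : ℚ) ^ n *
          (tot k (l.eraseIdx i) ((a, l.get i) :: es)).eval (N : ℚ) =
          ∑ c : Fin n → Fin N, (es.map fun e => kov N (c e.1) (c e.2)).prod *
            (kov N (c a) (c (l.get i)) *
              em N k (((l.eraseIdx i).map fun a => X (c a)).prod)) := by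
        intro i
        rw [ih (l.eraseIdx i) (by
          rw [List.length_eraseIdx_of_lt i.2]
          omega) ((a, l.get i) :: es)]
        refine Finset.sum_congr rfl fun c _ => ?_
        rw [List.map_cons, List.prod_cons]
        ring
      rw [Finset.sum_congr rfl fun i _ => h1 i, Finset.sum_comm]
      refine Finset.sum_congr rfl fun c _ => ?_
      rw [← Finset.mul_sum]
      congr 1
      rw [List.map_cons, List.prod_cons, em_succ_X_mul, dl_prod, em_sum]
      refine Finset.sum_congr rfl fun i _ => ?_
      rw [em_C_mul]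

theorem cubic_length (n : ℕ) : (cubic n).length = 3 * n := by
  unfold cubic
  rw [List.length_flatMap]
  simp
  ring

private theorem flatMap_prod {n N : ℕ} (c : Fin n → Fin N) (l : List (Fin n)) :
    ((l.flatMap fun v => [v, v, v]).map fun a => (X (c a) : MvPolynomial (Fin N) ℚ)).prod =
      (l.map fun v => (X (c v) : MvPolynomial (Fin N) ℚ) ^ 3).prod := by
  induction l with
  | nil => simp
  | cons a l ih =>
    rw [List.flatMap_cons, List.map_append, List.prod_append, ih, List.map_cons, List.prod_cons]
    congr 1
    simp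
    ring

theorem cubic_sum (n N : ℕ) :
    ∑ c : Fin n → Fin N, ((cubic n).map fun a => (X (c a) : MvPolynomial (Fin N) ℚ)).prod
      = pth N ^ n := by
  unfold cubic pth
  have h1 : ∀ c : Fin n → Fin N,
      (((List.finRange n).flatMap fun v => [v, v, v]).map
        fun a => (X (c a) : MvPolynomial (Fin N) ℚ)).prod =
      ∏ v : Fin n, (X (c v) : MvPolynomial (Fin N) ℚ) ^ 3 := by
    intro c
    rw [flatMap_prod]
    rw [← List.ofFn_eq_map, List.prod_ofFn]
  rw [Finset.sum_congr rfl fun c _ => h1 c]
  have h2 := Finset.prod_univ_sum (ι := Fin n) (κ := fun _ => Fin N)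
    (t := fun _ => Finset.univ) (f := fun _ i => (X i : MvPolynomial (Fin N) ℚ) ^ 3)
  rw [Finset.prod_const, Finset.card_univ, Fintype.card_fin] at h2
  rw [h2, Fintype.piFinset_univ]

/-- A negative total forces a negative flow polynomial. -/
theorem exists_neg {n : ℕ} (x : ℚ) (k : ℕ) (l : List (Fin n)) (es : List (Fin n × Fin n))
    (h : (tot k l es).eval x < 0) : ∃ es' : List (Fin n × Fin n), (FP es').eval x < 0 := by
  induction k generalizing l es with
  | zero =>
    cases l with
    | nil =>
      rw [tot_nil] at h
      exact ⟨es, h⟩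
    | cons a l =>
      rw [tot_zero_cons, Polynomial.eval_zero] at h
      exact absurd h (lt_irrefl _)
  | succ k ih =>
    cases l with
    | nil =>
      rw [tot_nil] at h
      exact ⟨es, h⟩
    | cons a l =>
      rw [tot_succ_cons, Polynomial.eval_finsetSum] at h
      obtain ⟨i, hi, hneg⟩ : ∃ i ∈ (Finset.univ : Finset (Fin l.length)),
          (tot k (l.eraseIdx i) ((a, l.get i) :: es)).eval x < 0 := by
        by_contra hcon
        push Not at hcon
        exact absurd h (not_lt.2 (Finset.sum_nonneg hcon))
      exact ih _ _ hneg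

end Pool.Agent.Lib.MP_4a8162_co
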