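import Pool.Agent.Lib.MP_4a8162_co.EmRc
import Pool.Agent.Lib.MP_4a8162_co.TotEval
import Pool.Agent.Lib.MP_4a8162_co.Rc
import Pool.Agent.Lib.MP_4a8162_co.KCorrect
import Pool.Agent.Lib.MP_4a8162_co.KEval

set_option autoImplicit false

namespace Pool.Agent.Lib.MP_4a8162_co

open MvPolynomial

/-- The sum of the flow polynomials over all cubic pairings is given by the recurrence. -/
theorem tot_eq (m : ℕ) :
    tot (3 * m) (cubic (2 * m)) [] = rc (Polynomial.X : Polynomial ℚ) (2 * m) 0 := by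
  have key : ∀ N : ℕ, 6 * m + 1 ≤ N →
      (tot (3 * m) (cubic (2 * m)) []).eval (N : ℚ) =
        (rc (Polynomial.X : Polynomial ℚ) (2 * m) 0).eval (N : ℚ) := by
    intro N hN
    have hN0 : (N : ℚ) ≠ 0 := by
      have : 0 < N := by omega
      positivity
    have h1 := tot_eval N (3 * m) (cubic (2 * m)) (by rw [cubic_length]; ring) []
    have h2 := em_rc N (2 * m) 0 (3 * m) (by omega) (by omega) (by ring) ∅ rfl
    rw [Finset.prod_empty, one_mul, ← cubic_sum, em_sum] at h2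
    have h3 : (N : ℚ) ^ (2 * m) * (tot (3 * m) (cubic (2 * m)) []).eval (N : ℚ)
        = (N : ℚ) ^ (2 * m) * rc (N : ℚ) (2 * m) 0 := by
      rw [h1, ← h2]
      refine Finset.sum_congr rfl fun c _ => ?_
      simp
    rw [eval_rc]
    exact mul_left_cancel₀ (pow_ne_zero _ hN0) h3
  refine Polynomial.eq_of_infinite_eval_eq _ _ ?_
  refine Set.Infinite.mono (s := (fun N : ℕ => ((N + (6 * m + 1) : ℕ) : ℚ)) '' Set.univ) ?_ ?_
  · rintro _ ⟨N, -, rfl⟩
    exact key _ (by omega)
  · refine Set.infinite_univ.image ?_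
    intro a _ b _ hab
    have h : ((a + (6 * m + 1) : ℕ) : ℚ) = ((b + (6 * m + 1) : ℕ) : ℚ) := hab
    have : a + (6 * m + 1) = b + (6 * m + 1) := by exact_mod_cast h
    omega

theorem exists_FP_neg : ∃ es : List (Fin 1040 × Fin 1040), (FP es).eval (61 / 10 : ℚ) < 0 := by
  have h1 : rc (61 / 10 : ℚ) 1039 3 < 0 := by
    have := kneg_correct 61 10 519 (by norm_num) (by norm_num) kneg_eval
    norm_num at this ⊢
    exact this
  have h2 : rc (61 / 10 : ℚ) 1040 0 < 0 := by
    have h : rc (61 / 10 : ℚ) 1040 0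
        = algebraMap ℚ ℚ (1 / 2) * ((61 / 10 - 1) * (61 / 10 - 2)) * rc (61 / 10 : ℚ) 1039 3 := rfl
    rw [h]
    simp only [Algebra.algebraMap_self, RingHom.id_apply]
    nlinarith
  refine exists_neg (61 / 10) (3 * 520) (cubic (2 * 520)) [] ?_
  rw [tot_eq, eval_rc]
  exact h2

end Pool.Agent.Lib.MP_4a8162_co
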