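import Pool.Agent.Lib.MP_4a8162_co.TwDefs

set_option autoImplicit false

namespace Pool.Agent.Lib.MP_4a8162_co

private theorem repF_iff (F : Type) [Field F] (M : Matroid ℕ) : RepF F M ↔ ∃ n : ℕ,
    ∃ v : ℕ → (Fin n → F), ∀ I : Set ℕ,
      M.Indep I ↔ (I ⊆ M.E ∧ LinearIndepOn F v I) := Iff.rfl

theorem repF_delete (F : Type) [Field F] {M : Matroid ℕ} (h : RepF F M) (e : ℕ) :
    RepF F (M.delete {e}) := by
  rw [repF_iff] at h ⊢
  obtain ⟨n, v, hI⟩ := h
  refine ⟨n, v, fun I => ?_⟩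
  rw [Matroid.delete_indep_iff, hI, Matroid.delete_ground]
  constructor
  · rintro ⟨⟨h2, h3⟩, h4⟩
    exact ⟨fun x hx => ⟨h2 hx, fun hxX => Set.disjoint_left.1 h4 hx hxX⟩, h3⟩
  · rintro ⟨h2, h3⟩
    exact ⟨⟨fun x hx => (h2 hx).1, h3⟩, Set.disjoint_left.2 fun x hx hxX => (h2 hx).2 hxX⟩

private theorem rep_contr_aux (F : Type) [Field F] {n k : ℕ} (w : ℕ → Fin n → F)
    (P : (Fin n → F) →ₗ[F] (Fin k → F)) (I J : Set ℕ)
    (hP : LinearMap.ker P = Submodule.span F (w '' J)) (hJ : LinearIndepOn F w J)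
    (hd : Disjoint J I) :
    LinearIndepOn F w (J ∪ I) ↔ LinearIndepOn F (fun x => P (w x)) I := by
  rw [← hJ.quotient_iff_union hd]
  let Q : ((Fin n → F) ⧸ Submodule.span F (w '' J)) →ₗ[F] (Fin k → F) :=
    Submodule.liftQ _ P hP.ge
  have hQ : LinearMap.ker Q = ⊥ := Submodule.ker_liftQ_eq_bot _ _ _ hP.le
  have h1 : (fun x : I => P (w x)) = Q ∘ (fun x : I => (Submodule.mkQ _ ∘ w) x) := by
    funext x
    show P (w x) = Submodule.liftQ _ P hP.ge (Submodule.mkQ _ (w x))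
    rw [Submodule.mkQ_apply, Submodule.liftQ_apply]
  unfold LinearIndepOn
  rw [h1, LinearMap.linearIndependent_iff Q hQ]

private theorem exists_proj (F : Type) [Field F] {n : ℕ} (S : Submodule F (Fin n → F)) :
    ∃ (k : ℕ) (P : (Fin n → F) →ₗ[F] (Fin k → F)), LinearMap.ker P = S := by
  let b := Module.finBasis F ((Fin n → F) ⧸ S)
  refine ⟨_, b.equivFun.toLinearMap.comp S.mkQ, ?_⟩
  rw [LinearMap.ker_comp, LinearEquiv.ker, Submodule.comap_bot, Submodule.ker_mkQ]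

theorem repF_contract (F : Type) [Field F] {M : Matroid ℕ} (h : RepF F M) (e : ℕ) :
    RepF F (M.contract {e}) := by
  rw [repF_iff] at h ⊢
  obtain ⟨n, v, hI⟩ := h
  obtain ⟨J, hJ⟩ := M.exists_isBasis' {e}
  have hJ1 := (hI J).1 hJ.indep
  obtain ⟨k, P, hk⟩ := exists_proj F (Submodule.span F (v '' J))
  refine ⟨k, fun x => P (v x), fun I => ?_⟩
  rw [hJ.contract_indep_iff, hI, Matroid.contract_ground]
  constructor
  · rintro ⟨⟨h2, h3⟩, h4⟩
    have h5 : Disjoint J I := Set.disjoint_of_subset_left hJ.subset h4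
    refine ⟨fun x hx => ⟨h2 (Or.inl hx), fun hxX => Set.disjoint_left.1 h4 hxX hx⟩, ?_⟩
    rw [← rep_contr_aux F v P I J hk hJ1.2 h5, Set.union_comm]
    exact h3
  · rintro ⟨h2, h3⟩
    have h4 : Disjoint {e} I := Set.disjoint_left.2 fun x hxX hx => (h2 hx).2 hxX
    have h5 : Disjoint J I := Set.disjoint_of_subset_left hJ.subset h4
    rw [← rep_contr_aux F v P I J hk hJ1.2 h5, Set.union_comm] at h3
    exact ⟨⟨Set.union_subset (fun x hx => (h2 hx).1) hJ1.1, h3⟩, h4⟩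

end Pool.Agent.Lib.MP_4a8162_co
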