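import Pool.Agent.Lib.MP_4a8162_co.TwCrit
import Pool.Agent.Lib.MP_4a8162_co.TwRep
import Pool.Agent.Lib.MP_4a8162_co.DCrit

set_option autoImplicit false

namespace Pool.Agent.Lib.MP_4a8162_co

/-- `M'` is an elementary lift or an elementary quotient of `M`: for some matroid `K` and an
element `e` of `K`, one of `M`, `M'` is `K` with `e` deleted and the other is `K` with `e`
contracted. -/
def ElemStep (M M' : Matroid ℕ) : Prop :=
  ∃ (K : Matroid ℕ) (e : ℕ), e ∈ K.E ∧
    ((M = K.delete {e} ∧ M' = K.contract {e}) ∨ (M = K.contract {e} ∧ M' = K.delete {e}))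

/-- The matroids obtained from members of `C` by at most `t` elementary lifts and quotients. -/
def Near (C : Matroid ℕ → Prop) : ℕ → Matroid ℕ → Prop
  | 0, M => C M
  | t + 1, M => Near C t M ∨ ∃ M₀, Near C t M₀ ∧ ElemStep M₀ M

/-! ### ranks -/

private theorem pe_bdd (M : Matroid ℕ) (X : Set ℕ) (hX : X.Finite) :
    BddAbove {n : ℕ | ∃ I ⊆ X, M.Indep I ∧ I.ncard = n} := by
  refine ⟨X.ncard, ?_⟩
  rintro n ⟨I, hIX, _, rfl⟩
  exact Set.ncard_le_ncard hIX hX

private theorem pe_ge (M : Matroid ℕ) (X : Set ℕ) (hX : X.Finite) (I : Set ℕ) (hI : M.Indep I)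
    (hIX : I ⊆ X) : I.ncard ≤ rks M X :=
  le_csSup (pe_bdd M X hX) ⟨I, hIX, hI, rfl⟩

private theorem pe_le (M : Matroid ℕ) (X : Set ℕ) (k : ℕ)
    (h : ∀ I ⊆ X, M.Indep I → I.ncard ≤ k) : rks M X ≤ k := by
  refine csSup_le ⟨0, ∅, Set.empty_subset _, M.empty_indep, Set.ncard_empty _⟩ ?_
  rintro n ⟨J, hJX, hJ, rfl⟩
  exact h J hJX hJ

private theorem pe_mono (M : Matroid ℕ) {X Y : Set ℕ} (hY : Y.Finite) (h : X ⊆ Y) :
    rks M X ≤ rks M Y :=
  pe_le M X _ fun I hI hI' => pe_ge M Y hY I hI' (hI.trans h)

private theorem pe_sub {M : Matroid ℕ} (hM : M.Finite) {X Y : Set ℕ} (hX : X.Finite)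
    (hY : Y.Finite) : rks M (X ∩ Y) + rks M (X ∪ Y) ≤ rks M X + rks M Y := by
  have h := M.eRk_inter_add_eRk_union_le X Y
  rw [← rks_eq_eRk hM _ (hX.inter_of_left Y), ← rks_eq_eRk hM _ (hX.union hY),
    ← rks_eq_eRk hM _ hX, ← rks_eq_eRk hM _ hY] at h
  exact_mod_cast h

private theorem pe_ins {M : Matroid ℕ} (hM : M.Finite) {X : Set ℕ} (hX : X.Finite) (e : ℕ) :
    rks M (insert e X) ≤ rks M X + 1 := by
  have h := M.eRk_insert_le_add_one e X
  rw [← rks_eq_eRk hM _ (hX.insert e), ← rks_eq_eRk hM _ hX] at h
  exact_mod_cast h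

private theorem pe_indep (M : Matroid ℕ) {X : Set ℕ} (hX : X.Finite) (h : M.Indep X) :
    rks M X = X.ncard :=
  le_antisymm (pe_le M X _ fun _ hI _ => Set.ncard_le_ncard hI hX)
    (pe_ge M X hX X h (Set.Subset.refl _))

private theorem pe_del (M : Matroid ℕ) {e : ℕ} {X : Set ℕ} (he : e ∉ X) :
    rks (M.delete {e}) X = rks M X := by
  unfold rks
  congr 1
  ext n
  constructor
  · rintro ⟨I, hIX, hI, hn⟩
    rw [Matroid.delete_indep_iff] at hI
    exact ⟨I, hIX, hI.1, hn⟩
  · rintro ⟨I, hIX, hI, hn⟩
    refine ⟨I, hIX, ?_, hn⟩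
    rw [Matroid.delete_indep_iff]
    exact ⟨hI, Set.disjoint_singleton_right.2 fun h => he (hIX h)⟩

private theorem pe_delS (M : Matroid ℕ) {D X : Set ℕ} (h : Disjoint X D) :
    rks (M.delete D) X = rks M X := by
  unfold rks
  congr 1
  ext n
  constructor
  · rintro ⟨I, hIX, hI, hn⟩
    rw [Matroid.delete_indep_iff] at hI
    exact ⟨I, hIX, hI.1, hn⟩
  · rintro ⟨I, hIX, hI, hn⟩
    refine ⟨I, hIX, ?_, hn⟩
    rw [Matroid.delete_indep_iff]
    exact ⟨hI, Set.disjoint_of_subset_left hIX h⟩

private theorem pe_basis (M : Matroid ℕ) (X I : Set ℕ) (hX : X.Finite) (hI : M.IsBasis' I X) :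
    rks M X = I.ncard := by
  apply le_antisymm
  · apply pe_le
    intro J hJX hJ
    have h2 := hJ.encard_le_eRk_of_subset hJX
    rw [hI.eRk_eq_encard, ← (hX.subset hJX).cast_ncard_eq,
      ← (hX.subset hI.subset).cast_ncard_eq] at h2
    exact_mod_cast h2
  · exact pe_ge M X hX I hI.indep hI.subset

private theorem pe_con (M : Matroid ℕ) {e : ℕ} {B : Set ℕ} (hB : B.Finite) (he : e ∉ B) :
    rks (M.contract {e}) B = rks M (insert e B) - rks M {e} := by
  have hG : ({e} : Set ℕ).Finite := Set.finite_singleton e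
  have hd : Disjoint {e} B := Set.disjoint_singleton_left.2 he
  rw [← Set.singleton_union]
  obtain ⟨I, hI⟩ := M.exists_isBasis' {e}
  have hIf : I.Finite := hG.subset hI.subset
  have hr := pe_basis M {e} I hG hI
  obtain ⟨K, hK, hIK⟩ := hI.indep.subset_isBasis'_of_subset
    (hI.subset.trans (Set.subset_union_left (t := B)))
  have hKf : K.Finite := (hG.union hB).subset hK.subset
  have hr2 := pe_basis M ({e} ∪ B) K (hG.union hB) hK
  rw [hr, hr2]
  apply le_antisymm
  · apply pe_le
    intro J hJB hJ
    rw [hI.contract_indep_iff] at hJ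
    have hJf : J.Finite := hB.subset hJB
    have h1 := pe_ge M ({e} ∪ B) (hG.union hB) (J ∪ I) hJ.1
      (Set.union_subset (hJB.trans Set.subset_union_right) (hI.subset.trans Set.subset_union_left))
    have h2 : Disjoint J I := (Set.disjoint_of_subset hI.subset hJB hd).symm
    rw [Set.ncard_union_eq h2 hJf hIf, hr2] at h1
    omega
  · have hKG : K ∩ {e} = I := by
      symm
      refine hI.eq_of_subset_indep (hK.indep.subset Set.inter_subset_left) ?_
        Set.inter_subset_right
      exact Set.subset_inter hIK hI.subset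
    have h1 : K \ I ⊆ B := by
      intro z hz
      rcases hK.subset hz.1 with h | h
      · exact absurd (hKG ▸ ⟨hz.1, h⟩ : z ∈ I) hz.2
      · exact h
    have h2 : (M.contract {e}).Indep (K \ I) := by
      rw [hI.contract_indep_iff, Set.sdiff_union_of_subset hIK]
      exact ⟨hK.indep, Set.disjoint_of_subset_right h1 hd⟩
    have h3 := pe_ge (M.contract {e}) B hB (K \ I) h2 h1
    rwa [Set.ncard_sdiff hIK hIf] at h3

/-- elements in the closure of `Y` do not raise the rank -/
private theorem pe_clos {M : Matroid ℕ} (hM : M.Finite) {X Y : Set ℕ} (hX : X.Finite)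
    (hY : Y.Finite) (h : ∀ x ∈ X, rks M (insert x Y) ≤ rks M Y) : rks M (Y ∪ X) ≤ rks M Y := by
  classical
  have key : ∀ T : Finset ℕ, (T : Set ℕ) ⊆ X → rks M (Y ∪ (T : Set ℕ)) ≤ rks M Y := by
    intro T
    induction T using Finset.induction_on with
    | empty => intro _; simp
    | insert a T ha ih =>
      intro hT
      rw [Finset.coe_insert] at hT ⊢
      have h1 := ih ((Set.subset_insert _ _).trans hT)
      have h2 := h a (hT (Set.mem_insert _ _))
      have h3 := pe_sub hM (hY.union T.finite_toSet) (hY.insert a)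
      have h4 : (Y ∪ (T : Set ℕ)) ∪ insert a Y = Y ∪ insert a (T : Set ℕ) := by
        ext z
        simp only [Set.mem_union, Set.mem_insert_iff]
        tauto
      rw [h4] at h3
      have h5 : rks M Y ≤ rks M ((Y ∪ (T : Set ℕ)) ∩ insert a Y) := by
        refine pe_mono M ((hY.union T.finite_toSet).inter_of_left _) ?_
        exact Set.subset_inter Set.subset_union_left (Set.subset_insert _ _)
      omega
  have := key hX.toFinset (by rw [hX.coe_toFinset])
  rwa [hX.coe_toFinset] at this

/-! ### closure properties -/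

private theorem pe_del_congr (M : Matroid ℕ) {Y Y' : Set ℕ} (h : Y ∩ M.E = Y' ∩ M.E) :
    M.delete Y = M.delete Y' := by
  rw [← Matroid.delete_inter_ground_eq M Y, h, Matroid.delete_inter_ground_eq]

private theorem pe_con_congr (M : Matroid ℕ) {Y Y' : Set ℕ} (h : Y ∩ M.E = Y' ∩ M.E) :
    M.contract Y = M.contract Y' := by
  rw [← Matroid.contract_inter_ground_eq M Y, h, Matroid.contract_inter_ground_eq]

theorem ElemStep.ground {M M' : Matroid ℕ} (h : ElemStep M M') : M'.E = M.E := by
  obtain ⟨K, e, -, ⟨rfl, rfl⟩ | ⟨rfl, rfl⟩⟩ := h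
  · rw [Matroid.delete_ground, Matroid.contract_ground]
  · rw [Matroid.delete_ground, Matroid.contract_ground]

theorem ElemStep.delete {M M' : Matroid ℕ} (h : ElemStep M M') (Y : Set ℕ) :
    ElemStep (M.delete Y) (M'.delete Y) := by
  obtain ⟨K, e, he, h⟩ := h
  have hd : Disjoint {e} (Y \ {e}) := Set.disjoint_sdiff_right
  have h1 : (K.delete {e}).delete Y = (K.delete (Y \ {e})).delete {e} := by
    rw [pe_del_congr (K.delete {e}) (Y := Y) (Y' := Y \ {e}), Matroid.delete_comm]
    ext z
    simp only [Matroid.delete_ground, Set.mem_inter_iff, Set.mem_sdiff, Set.mem_singleton_iff]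
    tauto
  have h2 : (K.contract {e}).delete Y = (K.delete (Y \ {e})).contract {e} := by
    rw [pe_del_congr (K.contract {e}) (Y := Y) (Y' := Y \ {e}),
      Matroid.contract_delete_comm _ hd]
    ext z
    simp only [Matroid.contract_ground, Set.mem_inter_iff, Set.mem_sdiff, Set.mem_singleton_iff]
    tauto
  refine ⟨K.delete (Y \ {e}), e, ?_, ?_⟩
  · rw [Matroid.delete_ground]
    exact ⟨he, fun h => h.2 rfl⟩
  · rcases h with ⟨rfl, rfl⟩ | ⟨rfl, rfl⟩
    · exact Or.inl ⟨h1, h2⟩
    · exact Or.inr ⟨h2, h1⟩

theorem ElemStep.contract {M M' : Matroid ℕ} (h : ElemStep M M') (Y : Set ℕ) :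
    ElemStep (M.contract Y) (M'.contract Y) := by
  obtain ⟨K, e, he, h⟩ := h
  have hd : Disjoint (Y \ {e}) {e} := Set.disjoint_sdiff_left
  have h1 : (K.delete {e}).contract Y = (K.contract (Y \ {e})).delete {e} := by
    rw [pe_con_congr (K.delete {e}) (Y := Y) (Y' := Y \ {e}),
      Matroid.contract_delete_comm _ hd]
    ext z
    simp only [Matroid.delete_ground, Set.mem_inter_iff, Set.mem_sdiff, Set.mem_singleton_iff]
    tauto
  have h2 : (K.contract {e}).contract Y = (K.contract (Y \ {e})).contract {e} := by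
    rw [pe_con_congr (K.contract {e}) (Y := Y) (Y' := Y \ {e}),
      Matroid.contract_contract, Matroid.contract_contract, Set.union_comm]
    ext z
    simp only [Matroid.contract_ground, Set.mem_inter_iff, Set.mem_sdiff, Set.mem_singleton_iff]
    tauto
  refine ⟨K.contract (Y \ {e}), e, ?_, ?_⟩
  · rw [Matroid.contract_ground]
    exact ⟨he, fun h => h.2 rfl⟩
  · rcases h with ⟨rfl, rfl⟩ | ⟨rfl, rfl⟩
    · exact Or.inl ⟨h1, h2⟩
    · exact Or.inr ⟨h2, h1⟩

theorem Near.delete {C : Matroid ℕ → Prop}
    (hmin : ∀ M, C M → ∀ X Y : Set ℕ, C ((M.contract X).delete Y)) {t : ℕ} :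
    ∀ {M : Matroid ℕ}, Near C t M → ∀ Y : Set ℕ, Near C t (M.delete Y) := by
  induction t with
  | zero =>
    intro M h Y
    have := hmin M h ∅ Y
    rwa [Matroid.contract_empty] at this
  | succ t ih =>
    intro M h Y
    rcases h with h | ⟨M₀, h0, hs⟩
    · exact Or.inl (ih h Y)
    · exact Or.inr ⟨M₀.delete Y, ih h0 Y, hs.delete Y⟩

theorem Near.contract {C : Matroid ℕ → Prop}
    (hmin : ∀ M, C M → ∀ X Y : Set ℕ, C ((M.contract X).delete Y)) {t : ℕ} :
    ∀ {M : Matroid ℕ}, Near C t M → ∀ Y : Set ℕ, Near C t (M.contract Y) := by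
  induction t with
  | zero =>
    intro M h Y
    have := hmin M h Y ∅
    rwa [Matroid.delete_empty] at this
  | succ t ih =>
    intro M h Y
    rcases h with h | ⟨M₀, h0, hs⟩
    · exact Or.inl (ih h Y)
    · exact Or.inr ⟨M₀.contract Y, ih h0 Y, hs.contract Y⟩

theorem Near.finite {C : Matroid ℕ → Prop} (hfin : ∀ M, C M → M.Finite) {t : ℕ} :
    ∀ {M : Matroid ℕ}, Near C t M → M.Finite := by
  induction t with
  | zero => exact fun h => hfin _ h
  | succ t ih =>
    intro M h
    rcases h with h | ⟨M₀, h0, hs⟩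
    · exact ih h
    · refine ⟨?_⟩
      rw [hs.ground]
      exact (ih h0).ground_finite

/-! ### small cocircuits -/

/-- the matroid is simple -/
private def Sim (M : Matroid ℕ) : Prop := ∀ e ∈ M.E, ∀ f ∈ M.E, M.Indep {e, f}

/-- simple restrictions of rank `r` have at most `q^(r+s)` elements -/
private def Bd (q : ℕ) (M : Matroid ℕ) (s : ℕ) : Prop :=
  ∀ X ⊆ M.E, (∀ e ∈ X, ∀ f ∈ X, M.Indep {e, f}) → X.ncard ≤ q ^ (rks M X + s)

/-- the exponent of the bound -/
def pex : ℕ → ℕ → ℕ
  | 0, _ => 0
  | t + 1, s => (s + 2) + pex t (s + 1)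

theorem two_pex (t : ℕ) : ∀ s : ℕ, 2 * pex t s = t * (t + 3) + 2 * t * s := by
  induction t with
  | zero => intro s; simp [pex]
  | succ t ih =>
    intro s
    rw [pex, Nat.mul_add, ih (s + 1)]
    ring

private theorem pex_le (t s : ℕ) : pex t s ≤ pex (t + 1) s := by
  have h1 := two_pex t s
  have h2 := two_pex (t + 1) s
  have h3 : t * (t + 3) + 2 * t * s ≤ (t + 1) * (t + 1 + 3) + 2 * (t + 1) * s := by
    nlinarith
  omega

private theorem pex_two (t s : ℕ) : pex t s + 1 ≤ pex (t + 1) s := by
  have h1 := two_pex t s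
  have h2 := two_pex (t + 1) s
  have h3 : t * (t + 3) + 2 * t * s + 2 ≤ (t + 1) * (t + 1 + 3) + 2 * (t + 1) * s := by
    nlinarith
  omega

private theorem pe_con_indep {K : Matroid ℕ} {C I : Set ℕ} (h : (K.contract C).Indep I) :
    K.Indep I := by
  obtain ⟨J, hJ⟩ := K.exists_isBasis' C
  rw [hJ.contract_indep_iff] at h
  exact h.1.subset Set.subset_union_left

private theorem pe_indep_rk {M : Matroid ℕ} {x : ℕ} (h : M.Indep {x}) : rks M {x} = 1 := by
  rw [pe_indep M (Set.finite_singleton x) h, Set.ncard_singleton]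

private theorem pe_loop_rk {M : Matroid ℕ} {x : ℕ} (h : ¬ M.Indep {x}) : rks M {x} = 0 := by
  refine Nat.le_zero.1 (pe_le M _ _ fun I hI hI' => ?_)
  rcases Set.subset_singleton_iff_eq.1 hI with rfl | rfl
  · simp
  · exact absurd hI' h

/-- Two elements of an independent pair... if `{x, y}` is dependent then the rank is at most one. -/
private theorem pe_pair_rk {M : Matroid ℕ} {x y : ℕ} (h : ¬ M.Indep {x, y}) :
    rks M {x, y} ≤ 1 := by
  refine pe_le M _ _ fun I hI hI' => ?_
  have hf : ({x, y} : Set ℕ).Finite := (Set.finite_singleton y).insert x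
  by_contra hcon
  have h1 : ({x, y} : Set ℕ).ncard ≤ 2 := by
    refine (Set.ncard_insert_le x {y}).trans ?_
    rw [Set.ncard_singleton]
  have h2 : I = {x, y} := Set.eq_of_subset_of_ncard_le hI (by omega) hf
  exact h (h2 ▸ hI')

theorem near_small (C : Matroid ℕ → Prop) (hfin : ∀ M, C M → M.Finite)
    (hmin : ∀ M, C M → ∀ X Y : Set ℕ, C ((M.contract X).delete Y)) (d : ℕ) (hd : 1 ≤ d)
    (hco : ∀ M, C M → M.E.Nonempty → (∀ e ∈ M.E, ∀ f ∈ M.E, M.Indep {e, f}) →
      ∃ D : Finset ℕ, (D : Set ℕ) ⊆ M.E ∧ D.card ≤ d ∧ rks M (M.E \ (D : Set ℕ)) < rks M M.E)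
    (q : ℕ) (hq : 2 ≤ q) (t : ℕ) : ∀ (s : ℕ) (M : Matroid ℕ), Near C t M → M.E.Nonempty →
      (∀ e ∈ M.E, ∀ f ∈ M.E, M.Indep {e, f}) →
      (∀ X ⊆ M.E, (∀ e ∈ X, ∀ f ∈ X, M.Indep {e, f}) → X.ncard ≤ q ^ (rks M X + s)) →
      ∃ D : Finset ℕ, (D : Set ℕ) ⊆ M.E ∧ D.card ≤ d * q ^ pex t s ∧
        rks M (M.E \ (D : Set ℕ)) < rks M M.E := by
  classical
  induction t with
  | zero =>
    intro s M h hne hs _
    simpa [pex] using hco M h hne hs
  | succ t ih =>
    intro s M h hne hs hb
    have hMf : M.Finite := Near.finite hfin h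
    have hEf : M.E.Finite := hMf.ground_finite
    have hpos : 1 ≤ d * q ^ pex (t + 1) s := Nat.mul_pos hd (pow_pos (by omega) _)
    rcases h with h | ⟨M₀, h0, K, e, heK, ⟨rfl, rfl⟩ | ⟨rfl, rfl⟩⟩
    · -- no step
      obtain ⟨D, hD1, hD2, hD3⟩ := ih s M h hne hs hb
      exact ⟨D, hD1, hD2.trans (Nat.mul_le_mul_left d (Nat.pow_le_pow_right (by omega)
        (pex_le t s))), hD3⟩
    · -- quotient: `M = K / e`
      have hKf : K.Finite := by
        refine ⟨?_⟩
        rw [Matroid.contract_ground] at hEf
        refine (hEf.insert e).subset fun z hz => ?_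
        by_cases h : z = e
        · exact Or.inl h
        · exact Or.inr ⟨hz, h⟩
      set T : Set ℕ := K.E \ {e} with hT
      have hTf : T.Finite := hKf.ground_finite.subset Set.sdiff_subset
      have heT : e ∉ T := fun h => h.2 rfl
      have hE1 : (K.contract {e}).E = T := Matroid.contract_ground _ _
      have hE0 : (K.delete {e}).E = T := Matroid.delete_ground _ _
      rw [hE1] at hne hs hb ⊢
      have hs0 : ∀ x ∈ T, ∀ y ∈ T, (K.delete {e}).Indep {x, y} := by
        intro x hx y hy
        rw [Matroid.delete_indep_iff]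
        refine ⟨pe_con_indep (hs x hx y hy), ?_⟩
        rw [Set.disjoint_singleton_right]
        rintro (h | h)
        · exact heT (h ▸ hx)
        · exact heT (h ▸ hy)
      have hb0 : ∀ X ⊆ T, X.ncard ≤ q ^ (rks (K.delete {e}) X + s) := by
        intro X hX
        have heX : e ∉ X := fun h => heT (hX h)
        have hXf : X.Finite := hTf.subset hX
        have h1 := hb X hX fun x hx y hy => hs x (hX hx) y (hX hy)
        refine h1.trans (Nat.pow_le_pow_right (by omega) ?_)
        rw [pe_del K heX, pe_con K hXf heX]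
        have h2 := pe_sub hKf hXf (Set.finite_singleton e)
        rw [Set.union_singleton] at h2
        omega
      obtain ⟨D1, hD1, hD1c, hD1r⟩ := ih s (K.delete {e}) h0 (by rw [hE0]; exact hne)
        (by rw [hE0]; exact hs0) (by rw [hE0]; exact fun X hX _ => hb0 X hX)
      rw [hE0] at hD1 hD1r
      rw [pe_del K heT, pe_del K (fun h => heT h.1)] at hD1r
      by_cases hne2 : (T \ (D1 : Set ℕ)).Nonempty
      · -- a second set
        have hN : Near C t ((K.delete {e}).delete (D1 : Set ℕ)) := Near.delete hmin h0 _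
        have hE2 : ((K.delete {e}).delete (D1 : Set ℕ)).E = T \ (D1 : Set ℕ) := by
          rw [Matroid.delete_ground, hE0]
        obtain ⟨D2, hD2, hD2c, hD2r⟩ := ih s _ hN (by rw [hE2]; exact hne2)
          (by
            rw [hE2]
            intro x hx y hy
            rw [Matroid.delete_indep_iff]
            refine ⟨hs0 x hx.1 y hy.1, ?_⟩
            rw [Set.disjoint_left]
            rintro z (rfl | rfl) hz
            · exact hx.2 hz
            · exact hy.2 hz)
          (by
            rw [hE2]
            intro X hX _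
            rw [pe_delS _ (Set.disjoint_of_subset_left hX Set.disjoint_sdiff_left)]
            exact hb0 X (hX.trans Set.sdiff_subset))
        rw [hE2] at hD2 hD2r
        rw [pe_delS _ Set.disjoint_sdiff_left, pe_del K (fun h => heT h.1),
          pe_delS _ (Set.disjoint_of_subset_left Set.sdiff_subset Set.disjoint_sdiff_left),
          pe_del K (fun h => heT h.1.1)] at hD2r
        refine ⟨D1 ∪ D2, ?_, ?_, ?_⟩
        · rw [Finset.coe_union]
          exact Set.union_subset hD1 (hD2.trans Set.sdiff_subset)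
        · have h1 : (D1 ∪ D2).card ≤ 2 * (d * q ^ pex t s) :=
            (Finset.card_union_le _ _).trans (by omega)
          refine h1.trans ?_
          calc 2 * (d * q ^ pex t s) ≤ q * (d * q ^ pex t s) := Nat.mul_le_mul_right _ hq
            _ = d * q ^ (pex t s + 1) := by ring
            _ ≤ d * q ^ pex (t + 1) s :=
              Nat.mul_le_mul_left d (Nat.pow_le_pow_right (by omega) (pex_two t s))
        · have hA : T \ ((D1 ∪ D2 : Finset ℕ) : Set ℕ) = (T \ (D1 : Set ℕ)) \ (D2 : Set ℕ) := by
            ext z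
            simp only [Finset.coe_union, Set.mem_sdiff, Set.mem_union, Finset.mem_coe]
            tauto
          rw [hA]
          have hAf : ((T \ (D1 : Set ℕ)) \ (D2 : Set ℕ)).Finite :=
            hTf.subset (Set.sdiff_subset.trans Set.sdiff_subset)
          rw [pe_con K hAf (fun h => heT h.1.1), pe_con K hTf heT]
          have h1 := pe_ins hKf hAf e
          have h2 : rks K T ≤ rks K (insert e T) :=
            pe_mono K (hTf.insert e) (Set.subset_insert _ _)
          have h3 : rks K {e} ≤ rks K (insert e ((T \ (D1 : Set ℕ)) \ (D2 : Set ℕ))) :=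
            pe_mono K (hAf.insert e) (Set.singleton_subset_iff.2 (Set.mem_insert _ _))
          omega
      · -- `D1 = T`
        refine ⟨D1, hD1, hD1c.trans (Nat.mul_le_mul_left d (Nat.pow_le_pow_right (by omega)
          (pex_le t s))), ?_⟩
        rw [Set.not_nonempty_iff_eq_empty] at hne2
        rw [hne2]
        obtain ⟨x, hx⟩ := hne
        have h1 : rks (K.contract {e}) ∅ = 0 := by
          rw [pe_indep _ Set.finite_empty (Matroid.empty_indep _), Set.ncard_empty]
        have h2 : rks (K.contract {e}) {x} = 1 := by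
          refine pe_indep_rk ?_
          have := hs x hx x hx
          rwa [Set.pair_eq_singleton] at this
        have h3 := pe_mono (K.contract {e}) hTf (Set.singleton_subset_iff.2 hx)
        omega
    · -- lift: `M = K \ e`, `M₀ = K / e`
      have hKf : K.Finite := by
        refine ⟨?_⟩
        rw [Matroid.delete_ground] at hEf
        refine (hEf.insert e).subset fun z hz => ?_
        by_cases h : z = e
        · exact Or.inl h
        · exact Or.inr ⟨hz, h⟩
      set T : Set ℕ := K.E \ {e} with hT
      have hTf : T.Finite := hKf.ground_finite.subset Set.sdiff_subset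
      have heT : e ∉ T := fun h => h.2 rfl
      have hE1 : (K.delete {e}).E = T := Matroid.delete_ground _ _
      have hE0 : (K.contract {e}).E = T := Matroid.contract_ground _ _
      have hM0f : (K.contract {e}).Finite := Near.finite hfin h0
      rw [hE1] at hne hs hb ⊢
      have hsK : ∀ x ∈ T, ∀ y ∈ T, K.Indep {x, y} := fun x hx y hy =>
        ((Matroid.delete_indep_iff.1 (hs x hx y hy))).1
      have hbK : ∀ X ⊆ T, X.ncard ≤ q ^ (rks K X + s) := by
        intro X hX
        have h1 := hb X hX fun x hx y hy => hs x (hX hx) y (hX hy)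
        rwa [pe_del K (fun h => heT (hX h))] at h1
      have he1 : rks K {e} ≤ 1 := by
        have := pe_ins hKf Set.finite_empty e
        rw [pe_indep K Set.finite_empty K.empty_indep, Set.ncard_empty] at this
        simpa using this
      have hr0 : ∀ X ⊆ T, rks (K.contract {e}) X = rks K (insert e X) - rks K {e} ∧
          rks K {e} ≤ rks K (insert e X) ∧ rks K X ≤ rks K (insert e X) := by
        intro X hX
        have hXf := hTf.subset hX
        exact ⟨pe_con K hXf (fun h => heT (hX h)),
          pe_mono K (hXf.insert e) (Set.singleton_subset_iff.2 (Set.mem_insert _ _)),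
          pe_mono K (hXf.insert e) (Set.subset_insert _ _)⟩
      -- representatives of the parallel classes of `K / e`
      obtain ⟨S, hSmem, hSmax⟩ := Finset.exists_max_image
        (hTf.toFinset.powerset.filter fun S : Finset ℕ =>
          ∀ x ∈ S, ∀ y ∈ S, (K.contract {e}).Indep {x, y}) Finset.card
        ⟨∅, by simp⟩
      rw [Finset.mem_filter, Finset.mem_powerset] at hSmem
      have hST : (S : Set ℕ) ⊆ T := by
        intro x hx
        simpa using hSmem.1 hx
      have hSi := hSmem.2
      have hA : ∀ x ∈ T, x ∉ S → (K.contract {e}).Indep {x} →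
          ∃ y ∈ S, ¬ (K.contract {e}).Indep {x, y} := by
        intro x hx hxS hxi
        by_contra hcon
        push Not at hcon
        have h1 : insert x S ∈ (hTf.toFinset.powerset.filter fun S : Finset ℕ =>
            ∀ x ∈ S, ∀ y ∈ S, (K.contract {e}).Indep {x, y}) := by
          rw [Finset.mem_filter, Finset.mem_powerset]
          refine ⟨Finset.insert_subset (by simpa using hx) hSmem.1, ?_⟩
          intro a ha b hb
          rcases Finset.mem_insert.1 ha with ha1 | ha1
          · rcases Finset.mem_insert.1 hb with hb1 | hb1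
            · rw [ha1, hb1, Set.pair_eq_singleton]
              exact hxi
            · rw [ha1]
              exact hcon b hb1
          · rcases Finset.mem_insert.1 hb with hb1 | hb1
            · rw [hb1, Set.pair_comm]
              exact hcon a ha1
            · exact hSi a ha1 b hb1
        have h2 := hSmax _ h1
        rw [Finset.card_insert_of_notMem hxS] at h2
        omega
      rcases S.eq_empty_or_nonempty with hSe | hSne
      · -- everything is a loop of `K / e`
        have hloop : ∀ x ∈ T, ¬ (K.contract {e}).Indep {x} := by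
          intro x hx hxi
          obtain ⟨y, hy, -⟩ := hA x hx (by rw [hSe]; exact Finset.notMem_empty x) hxi
          rw [hSe] at hy
          exact Finset.notMem_empty y hy
        have h1 := pe_clos hM0f hTf Set.finite_empty (by
          intro x hx
          rw [insert_empty_eq, pe_loop_rk (hloop x hx)]
          exact Nat.zero_le _)
        rw [Set.empty_union, pe_indep _ Set.finite_empty (Matroid.empty_indep _),
          Set.ncard_empty] at h1
        obtain ⟨h2, h3, h4⟩ := hr0 T (Set.Subset.refl _)
        have h5 : rks K T ≤ 1 := by omega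
        obtain ⟨x, hx⟩ := hne
        have hTx : T \ ({x} : Set ℕ) = ∅ := by
          rw [Set.eq_empty_iff_forall_notMem]
          rintro y ⟨hy, hyx⟩
          have h6 := pe_ge K T hTf {x, y} (hsK x hx y hy) (Set.insert_subset hx
            (Set.singleton_subset_iff.2 hy))
          rw [Set.ncard_pair (fun h => hyx h.symm)] at h6
          omega
        refine ⟨{x}, by simpa using hx, by simpa using hpos, ?_⟩
        rw [Finset.coe_singleton, hTx, pe_del K (Set.notMem_empty e), pe_del K heT,
          pe_indep K Set.finite_empty K.empty_indep, Set.ncard_empty]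
        have h6 := pe_ge K T hTf {x} (by
          have := hsK x hx x hx
          rwa [Set.pair_eq_singleton] at this) (Set.singleton_subset_iff.2 hx)
        rw [Set.ncard_singleton] at h6
        omega
      · -- the simplification of `K / e`
        have hSd : Disjoint (S : Set ℕ) (T \ (S : Set ℕ)) := Set.disjoint_sdiff_right
        have hE2 : ((K.contract {e}).delete (T \ (S : Set ℕ))).E = S := by
          rw [Matroid.delete_ground, hE0, Set.sdiff_sdiff_cancel_left hST]
        obtain ⟨D0, hD0, hD0c, hD0r⟩ := ih (s + 1) _ (Near.delete hmin h0 (T \ (S : Set ℕ)))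
          (by rw [hE2]; exact_mod_cast hSne)
          (by
            rw [hE2]
            intro x hx y hy
            rw [Matroid.delete_indep_iff]
            refine ⟨hSi x hx y hy, ?_⟩
            rw [Set.disjoint_left]
            rintro z (rfl | rfl) hz
            · exact hz.2 hx
            · exact hz.2 hy)
          (by
            rw [hE2]
            intro X hX _
            rw [pe_delS _ (Set.disjoint_of_subset_left hX hSd)]
            refine (hbK X (hX.trans hST)).trans (Nat.pow_le_pow_right (by omega) ?_)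
            obtain ⟨h2, h3, h4⟩ := hr0 X (hX.trans hST)
            omega)
        rw [hE2] at hD0 hD0r
        rw [pe_delS _ hSd, pe_delS _ (Set.disjoint_of_subset_left Set.sdiff_subset hSd)] at hD0r
        have hSf : (S : Set ℕ).Finite := S.finite_toSet
        -- the parallel classes
        let P : ℕ → Finset ℕ := fun y => hTf.toFinset.filter fun x =>
          (K.contract {e}).Indep {x} ∧ (x = y ∨ ¬ (K.contract {e}).Indep {x, y})
        have hPmem : ∀ x y, x ∈ P y ↔ x ∈ T ∧ (K.contract {e}).Indep {x} ∧
            (x = y ∨ ¬ (K.contract {e}).Indep {x, y}) := by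
          intro x y
          simp only [P, Finset.mem_filter, Set.Finite.mem_toFinset]
        have hPc : ∀ y ∈ D0, (P y).card ≤ q ^ (s + 2) := by
          intro y hy
          have hyS : y ∈ S := by exact_mod_cast hD0 hy
          have hyi : (K.contract {e}).Indep {y} := by
            have := hSi y hyS y hyS
            rwa [Set.pair_eq_singleton] at this
          have hPT : ((P y : Finset ℕ) : Set ℕ) ⊆ T := fun x hx => ((hPmem x y).1 hx).1
          have h1 := pe_clos hM0f (X := ((P y : Finset ℕ) : Set ℕ)) (Y := {y})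
            (P y).finite_toSet (Set.finite_singleton y) (by
              intro x hx
              rw [pe_indep_rk hyi]
              rcases ((hPmem x y).1 hx).2.2 with rfl | h
              · rw [Set.pair_eq_singleton, pe_indep_rk hyi]
              · exact pe_pair_rk h)
          rw [pe_indep_rk hyi] at h1
          have h2 : rks (K.contract {e}) ((P y : Finset ℕ) : Set ℕ) ≤ 1 :=
            (pe_mono _ ((Set.finite_singleton y).union (P y).finite_toSet)
              Set.subset_union_right).trans h1
          obtain ⟨h3, h4, h5⟩ := hr0 _ hPT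
          have h6 := hbK _ hPT
          rw [Set.ncard_coe_finset] at h6
          refine h6.trans (Nat.pow_le_pow_right (by omega) ?_)
          omega
        refine ⟨D0.biUnion P, ?_, ?_, ?_⟩
        · intro x hx
          rw [Finset.coe_biUnion] at hx
          simp only [Set.mem_iUnion] at hx
          obtain ⟨y, -, hxy⟩ := hx
          exact ((hPmem x y).1 hxy).1
        · refine (Finset.card_biUnion_le).trans ((Finset.sum_le_card_nsmul _ _ _ hPc).trans ?_)
          rw [smul_eq_mul]
          calc D0.card * q ^ (s + 2) ≤ (d * q ^ pex t (s + 1)) * q ^ (s + 2) :=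
                Nat.mul_le_mul_right _ hD0c
            _ = d * q ^ pex (t + 1) s := by
                rw [pex, pow_add]
                ring
        · have hYf : ((S : Set ℕ) \ (D0 : Set ℕ)).Finite := hSf.subset Set.sdiff_subset
          set D : Finset ℕ := D0.biUnion P with hD
          have hAf : (T \ (D : Set ℕ)).Finite := hTf.subset Set.sdiff_subset
          have hDmem : ∀ x y, y ∈ D0 → x ∈ P y → x ∈ D := fun x y hy hx =>
            Finset.mem_biUnion.2 ⟨y, hy, hx⟩
          have h1 := pe_clos hM0f (X := T \ (D : Set ℕ)) (Y := (S : Set ℕ) \ (D0 : Set ℕ))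
            hAf hYf (by
              rintro x ⟨hxT, hxD⟩
              by_cases hxl : (K.contract {e}).Indep {x}
              · by_cases hxS : x ∈ S
                · have hx0 : x ∉ D0 := fun hx0 => hxD
                    (hDmem x x hx0 ((hPmem x x).2 ⟨hxT, hxl, Or.inl rfl⟩))
                  rw [Set.insert_eq_of_mem]
                  exact ⟨hxS, hx0⟩
                · obtain ⟨y, hyS, hxy⟩ := hA x hxT hxS hxl
                  have hy0 : y ∉ D0 := fun hy0 => hxD
                    (hDmem x y hy0 ((hPmem x y).2 ⟨hxT, hxl, Or.inr hxy⟩))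
                  have hyi : (K.contract {e}).Indep {y} := by
                    have := hSi y hyS y hyS
                    rwa [Set.pair_eq_singleton] at this
                  have h2 := pe_sub hM0f hYf
                    ((Set.finite_singleton y).insert x : ({x, y} : Set ℕ).Finite)
                  have h3 : (((S : Set ℕ) \ (D0 : Set ℕ)) ∪ {x, y}) =
                      insert x ((S : Set ℕ) \ (D0 : Set ℕ)) := by
                    ext z
                    simp only [Set.mem_union, Set.mem_insert_iff, Set.mem_singleton_iff]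
                    constructor
                    · rintro (h | h | h)
                      · exact Or.inr h
                      · exact Or.inl h
                      · exact Or.inr (h ▸ ⟨hyS, hy0⟩)
                    · rintro (h | h)
                      · exact Or.inr (Or.inl h)
                      · exact Or.inl h
                  rw [h3] at h2
                  have h4 := pe_pair_rk hxy
                  have h5 : rks (K.contract {e}) {y} ≤
                      rks (K.contract {e}) (((S : Set ℕ) \ (D0 : Set ℕ)) ∩ {x, y}) := by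
                    refine pe_mono _ (hYf.inter_of_left _) ?_
                    rw [Set.singleton_subset_iff]
                    exact ⟨⟨hyS, hy0⟩, Or.inr rfl⟩
                  rw [pe_indep_rk hyi] at h5
                  omega
              · have h2 := pe_sub hM0f hYf (Set.finite_singleton x)
                rw [pe_loop_rk hxl, Set.union_singleton] at h2
                omega)
          have h2 : rks (K.contract {e}) (T \ (D : Set ℕ)) ≤
              rks (K.contract {e}) ((S : Set ℕ) \ (D0 : Set ℕ)) :=
            (pe_mono _ (hYf.union hAf) Set.subset_union_right).trans h1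
          have h3 : rks (K.contract {e}) (S : Set ℕ) ≤ rks (K.contract {e}) T :=
            pe_mono _ hTf hST
          obtain ⟨h4, h5, h6⟩ := hr0 T (Set.Subset.refl _)
          obtain ⟨h7, h8, h9⟩ := hr0 (T \ (D : Set ℕ)) Set.sdiff_subset
          rw [pe_del K heT, pe_del K (fun h => heT h.1)]
          have h10 := pe_sub hKf (hAf.insert e) hTf
          have h11 : insert e (T \ (D : Set ℕ)) ∩ T = T \ (D : Set ℕ) := by
            ext z
            simp only [Set.mem_inter_iff, Set.mem_insert_iff, Set.mem_sdiff]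
            constructor
            · rintro ⟨rfl | h, h'⟩
              · exact absurd h' heT
              · exact h
            · exact fun h => ⟨Or.inr h, h.1⟩
          have h12 : insert e (T \ (D : Set ℕ)) ∪ T = insert e T := by
            ext z
            simp only [Set.mem_union, Set.mem_insert_iff, Set.mem_sdiff]
            tauto
          rw [h11, h12] at h10
          omega

open Module in
private theorem pe_rep_bd (F : Type) [Field F] [Fintype F] {M : Matroid ℕ} (hM : M.Finite)
    (h : RepF F M) (X : Set ℕ) (hX : X ⊆ M.E) (hs : ∀ e ∈ X, ∀ f ∈ X, M.Indep {e, f}) :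
    X.ncard ≤ Fintype.card F ^ rks M X := by
  classical
  obtain ⟨n, v, hv⟩ := h
  have hXf : X.Finite := hM.ground_finite.subset hX
  rw [D2.rks_eq_finrank F v hv X hXf hX]
  let W : Submodule F (Fin n → F) := Submodule.span F (v '' X)
  have hcard : Nat.card W = Fintype.card F ^ finrank F W := by
    rw [Module.natCard_eq_pow_finrank (K := F), Nat.card_eq_fintype_card]
  haveI : Finite W := Module.finite_of_finite F
  let g : X → W := fun x => ⟨v x, Submodule.subset_span ⟨x, x.2, rfl⟩⟩
  have hg : Function.Injective g := by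
    intro x y hxy
    by_contra hne
    have hne' : (x : ℕ) ≠ y := fun h => hne (Subtype.ext h)
    have h2 : v (x : ℕ) = v y := congrArg Subtype.val hxy
    have h4 : LinearIndepOn F v ({(x : ℕ), (y : ℕ)} : Set ℕ) :=
      ((hv _).1 (hs x x.2 y y.2)).2
    rw [LinearIndepOn.pair_iff v hne'] at h4
    have h5 := h4 1 (-1) (by rw [h2, neg_smul, add_neg_cancel])
    exact one_ne_zero h5.1
  have h2 := Nat.card_le_card_of_injective g hg
  rw [hcard] at h2
  rwa [Nat.card_coe_set_eq] at h2

private theorem pe_cocircuit {M : Matroid ℕ} (hM : M.Finite) {D : Set ℕ}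
    (hD : M.IsCocircuit D) : D ⊆ M.E ∧ D.Finite ∧ rks M (M.E \ D) < rks M M.E := by
  have hDE := hD.subset_ground
  have hEf := hM.ground_finite
  refine ⟨hDE, hEf.subset hDE, ?_⟩
  by_contra hcon
  obtain ⟨I, hI⟩ := M.exists_isBasis' (M.E \ D)
  have h1 := pe_basis M (M.E \ D) I (hEf.subset Set.sdiff_subset) hI
  obtain ⟨B, hB, hIB⟩ := hI.indep.exists_isBase_superset
  have hBf : B.Finite := hEf.subset hB.subset_ground
  have h2 := pe_ge M M.E hEf B hB.indep hB.subset_ground
  have h3 := pe_mono M hEf (Set.sdiff_subset : M.E \ D ⊆ M.E)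
  have h6 : rks M M.E ≤ B.ncard := by
    refine pe_le M _ _ fun J hJ hJi => ?_
    obtain ⟨B', hB', hJB'⟩ := hJi.exists_isBase_superset
    rw [← hB'.ncard_eq_ncard_of_isBase hB]
    exact Set.ncard_le_ncard hJB' (hEf.subset hB'.subset_ground)
  have h4 : I = B := Set.eq_of_subset_of_ncard_le hIB (by omega) hBf
  rw [Matroid.isCocircuit_iff_minimal] at hD
  obtain ⟨z, hz1, hz2⟩ := hD.prop B hB
  exact (hI.subset (h4 ▸ hz2)).2 hz1

private theorem pe_exists_cocircuit {M : Matroid ℕ} (hM : M.Finite) (D : Finset ℕ)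
    (hr : rks M (M.E \ (D : Set ℕ)) < rks M M.E) :
    ∃ K, M.IsCocircuit K ∧ K.ncard ≤ D.card := by
  have hEf := hM.ground_finite
  have h1 : ∀ B, M.IsBase B → ((D : Set ℕ) ∩ B).Nonempty := by
    intro B hB
    by_contra hcon
    rw [Set.not_nonempty_iff_eq_empty] at hcon
    have h2 : B ⊆ M.E \ (D : Set ℕ) := fun z hz =>
      ⟨hB.subset_ground hz, fun hz' => by
        have : z ∈ ((D : Set ℕ) ∩ B) := ⟨hz', hz⟩
        rw [hcon] at this
        exact this⟩
    have h3 := pe_ge M _ (hEf.subset Set.sdiff_subset) B hB.indep h2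
    have h4 : rks M M.E ≤ B.ncard := by
      refine pe_le M _ _ fun J hJ hJi => ?_
      obtain ⟨B', hB', hJB'⟩ := hJi.exists_isBase_superset
      rw [← hB'.ncard_eq_ncard_of_isBase hB]
      exact Set.ncard_le_ncard hJB' (hEf.subset hB'.subset_ground)
    omega
  classical
  obtain ⟨K, hK, hKmin⟩ := Finset.exists_min_image
    (D.powerset.filter fun X : Finset ℕ => ∀ B, M.IsBase B → ((X : Set ℕ) ∩ B).Nonempty)
    Finset.card ⟨D, by
      rw [Finset.mem_filter, Finset.mem_powerset]
      exact ⟨Finset.Subset.refl D, h1⟩⟩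
  rw [Finset.mem_filter, Finset.mem_powerset] at hK
  refine ⟨(K : Set ℕ), ?_, ?_⟩
  · rw [Matroid.isCocircuit_iff_minimal]
    refine ⟨hK.2, fun X hX hXK => ?_⟩
    have hXf : X.Finite := K.finite_toSet.subset hXK
    have h2 : hXf.toFinset ⊆ K := by
      intro z hz
      exact_mod_cast hXK (by simpa using hz)
    have h3 := hKmin hXf.toFinset (by
      rw [Finset.mem_filter, Finset.mem_powerset, hXf.coe_toFinset]
      exact ⟨h2.trans hK.1, hX⟩)
    have h4 : hXf.toFinset = K := Finset.eq_of_subset_of_card_le h2 h3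
    intro z hz
    have h5 : z ∈ hXf.toFinset := by
      rw [h4]
      exact_mod_cast hz
    simpa using h5
  · rw [Set.ncard_coe_finset]
    exact Finset.card_le_card hK.1

/-- Bounded perturbations of a minor-closed class with small cocircuits. -/
theorem near_main (F : Type) [Field F] [Fintype F] (C : Matroid ℕ → Prop) (d : ℕ)
    (hfin : ∀ M, C M → M.Finite)
    (hmin : ∀ M, C M → ∀ X Y : Set ℕ, C ((M.contract X).delete Y)) (hd : 1 ≤ d)
    (hco : ∀ M, C M → M.E.Nonempty → (∀ e ∈ M.E, ∀ f ∈ M.E, M.Indep {e, f}) →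
      ∃ D, M.IsCocircuit D ∧ D.ncard ≤ d) (t : ℕ) (M : Matroid ℕ) (hM : Near C t M)
    (hrep : RepF F M) :
    (M.E.Nonempty → (∀ e ∈ M.E, ∀ f ∈ M.E, M.Indep {e, f}) →
      ∃ D, M.IsCocircuit D ∧ D.ncard ≤ d * Fintype.card F ^ (t * (t + 3) / 2)) ∧
    ((∀ e ∈ M.E, M.Indep {e}) → ∀ E : Finset ℕ, (E : Set ℕ) = M.E → ∀ x : ℝ,
      d * (Fintype.card F : ℝ) ^ (t * (t + 3) / 2) < x → 0 < chf M E x) := by
  classical
  have hq : 2 ≤ Fintype.card F := Fintype.one_lt_card
  have hpex : pex t 0 = t * (t + 3) / 2 := by
    have := two_pex t 0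
    omega
  have hco' : ∀ M, C M → M.E.Nonempty → (∀ e ∈ M.E, ∀ f ∈ M.E, M.Indep {e, f}) →
      ∃ D : Finset ℕ, (D : Set ℕ) ⊆ M.E ∧ D.card ≤ d ∧
        rks M (M.E \ (D : Set ℕ)) < rks M M.E := by
    intro N hN hne hs
    obtain ⟨D, hD, hDc⟩ := hco N hN hne hs
    obtain ⟨h1, h2, h3⟩ := pe_cocircuit (hfin N hN) hD
    refine ⟨h2.toFinset, by rwa [h2.coe_toFinset], ?_, by rwa [h2.coe_toFinset]⟩
    rwa [Set.ncard_eq_toFinset_card D h2] at hDc
  have key : ∀ N : Matroid ℕ, Near C t N → RepF F N → N.E.Nonempty →
      (∀ e ∈ N.E, ∀ f ∈ N.E, N.Indep {e, f}) →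
      ∃ D : Finset ℕ, (D : Set ℕ) ⊆ N.E ∧ D.card ≤ d * Fintype.card F ^ (t * (t + 3) / 2) ∧
        rks N (N.E \ (D : Set ℕ)) < rks N N.E := by
    intro N hN hr hne hs
    rw [← hpex]
    exact near_small C hfin hmin d hd hco' (Fintype.card F) hq t 0 N hN hne hs
      (fun X hX hXs => pe_rep_bd F (Near.finite hfin hN) hr X hX hXs)
  refine ⟨fun hne hs => ?_, fun hl E hE x hx => ?_⟩
  · obtain ⟨D, hD1, hD2, hD3⟩ := key M hM hrep hne hs
    obtain ⟨K, hK, hKc⟩ := pe_exists_cocircuit (Near.finite hfin hM) D hD3
    exact ⟨K, hK, hKc.trans hD2⟩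
  · refine chf_pos_of_small_cocircuits (fun N => Near C t N ∧ RepF F N)
      (d * (Fintype.card F : ℝ) ^ (t * (t + 3) / 2)) ?_ (fun N hN => Near.finite hfin hN.1)
      (fun N hN e _ => ⟨Near.delete hmin hN.1 {e}, repF_delete F hN.2 e⟩)
      (fun N hN e _ => ⟨Near.contract hmin hN.1 {e}, repF_contract F hN.2 e⟩)
      (fun N hN hne hs => ?_) M ⟨hM, hrep⟩ hl E hE x hx
    · have h1 : (1 : ℝ) ≤ d := by exact_mod_cast hd
      have h2 : (1 : ℝ) ≤ (Fintype.card F : ℝ) ^ (t * (t + 3) / 2) :=
        one_le_pow₀ (by exact_mod_cast (by omega : 1 ≤ Fintype.card F))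
      nlinarith
    · obtain ⟨D, hD1, hD2, hD3⟩ := key N hN.1 hN.2 hne hs
      exact ⟨D, hD1, by exact_mod_cast hD2, hD3⟩

end Pool.Agent.Lib.MP_4a8162_co
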