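import Pool.Agent.Lib.MP_4a8162_co.TwDefs

set_option autoImplicit false

namespace Pool.Agent.Lib.MP_4a8162_co

private theorem tb_rks_mono {M : Matroid ℕ} {X Y : Set ℕ} (hY : Y.Finite) (h : X ⊆ Y) :
    rks M X ≤ rks M Y := by
  refine csSup_le_csSup ⟨Y.ncard, ?_⟩ ⟨0, ∅, Set.empty_subset _, M.empty_indep,
    Set.ncard_empty _⟩ ?_
  · rintro n ⟨I, hIX, _, rfl⟩
    exact Set.ncard_le_ncard hIX hY
  · rintro n ⟨I, hIX, hI, rfl⟩
    exact ⟨I, hIX.trans h, hI, rfl⟩

private theorem tb_rks_empty (M : Matroid ℕ) : rks M ∅ = 0 := by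
  refine Nat.le_zero.1 (csSup_le ⟨0, ∅, Set.empty_subset _, M.empty_indep, Set.ncard_empty _⟩ ?_)
  rintro n ⟨J, hJX, hJ, rfl⟩
  rw [Set.subset_empty_iff] at hJX
  rw [hJX, Set.ncard_empty]

section graph

variable {N : ℕ} {T : SimpleGraph (Fin N)}

private theorem tb_bridge (hT : T.IsTree) {v u : Fin N} (h : T.Adj v u) :
    ¬ (T.deleteEdges {s(v, u)}).Reachable v u := by
  have h1 := SimpleGraph.isAcyclic_iff_forall_adj_isBridge.1 hT.isAcyclic h
  rwa [SimpleGraph.isBridge_iff] at h1

private theorem tb_comm (v u : Fin N) :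
    T.deleteEdges {s(u, v)} = T.deleteEdges {s(v, u)} := by
  rw [Sym2.eq_swap]

/-- every node is on one of the sides -/
private theorem tb_cover (hT : T.IsTree) (v u x : Fin N) :
    x ∈ side T v u ∨ x ∈ side T u v := by
  have hx : Relation.ReflTransGen T.Adj u x := by
    rw [← SimpleGraph.reachable_iff_reflTransGen]
    exact hT.connected.preconnected u x
  have key : (T.deleteEdges {s(v, u)}).Reachable u x ∨
      (T.deleteEdges {s(v, u)}).Reachable v x := by
    induction hx with
    | refl => exact Or.inl (SimpleGraph.Reachable.refl _)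
    | @tail b c _ hbc ih =>
      by_cases he : s(b, c) = s(v, u)
      · rw [Sym2.eq_iff] at he
        rcases he with ⟨_, h⟩ | ⟨_, h⟩
        · rw [h]
          exact Or.inl (SimpleGraph.Reachable.refl _)
        · rw [h]
          exact Or.inr (SimpleGraph.Reachable.refl _)
      · have hadj : (T.deleteEdges {s(v, u)}).Adj b c := by
          rw [SimpleGraph.deleteEdges_adj]
          exact ⟨hbc, fun h => he (Set.mem_singleton_iff.1 h)⟩
        rcases ih with h | h
        · exact Or.inl (h.trans hadj.reachable)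
        · exact Or.inr (h.trans hadj.reachable)
  rcases key with h | h
  · exact Or.inl h
  · right
    change (T.deleteEdges {s(u, v)}).Reachable v x
    rw [tb_comm v u]
    exact h

private theorem tb_disj (hT : T.IsTree) {v u : Fin N} (h : T.Adj v u) {x : Fin N}
    (h1 : x ∈ side T v u) (h2 : x ∈ side T u v) : False := by
  have h3 : (T.deleteEdges {s(v, u)}).Reachable v x := by
    rw [← tb_comm v u]
    exact h2
  exact tb_bridge hT h (h3.trans (SimpleGraph.Reachable.symm h1))

private theorem tb_sub (hT : T.IsTree) {v u y : Fin N} (h : T.Adj v u) (hy : T.Adj u y)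
    (hne : y ≠ v) : side T u y ⊆ side T v u := by
  intro x hx
  rcases tb_cover hT v u x with h1 | h1
  · exact h1
  exfalso
  have h2 : (T.deleteEdges {s(v, u)}).Reachable v x := by
    rw [← tb_comm v u]
    exact h1
  have key : ∀ x, Relation.ReflTransGen (T.deleteEdges {s(v, u)}).Adj v x →
      (T.deleteEdges {s(v, u)}).Reachable v x ∧ (T.deleteEdges {s(u, y)}).Reachable v x := by
    intro x hx
    induction hx with
    | refl => exact ⟨SimpleGraph.Reachable.refl _, SimpleGraph.Reachable.refl _⟩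
    | @tail b c _ hbc ih =>
      obtain ⟨k1, k2⟩ := ih
      have k3 : (T.deleteEdges {s(v, u)}).Reachable v c := k1.trans hbc.reachable
      have hb : b ≠ u := by
        rintro rfl
        exact tb_bridge hT h k1
      have hc : c ≠ u := by
        rintro rfl
        exact tb_bridge hT h k3
      refine ⟨k3, k2.trans (SimpleGraph.Adj.reachable ?_)⟩
      rw [SimpleGraph.deleteEdges_adj] at hbc ⊢
      refine ⟨hbc.1, fun he => ?_⟩
      rw [Set.mem_singleton_iff, Sym2.eq_iff] at he
      rcases he with ⟨e1, _⟩ | ⟨_, e2⟩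
      · exact hb e1
      · exact hc e2
  have h3 := (key x ((SimpleGraph.reachable_iff_reflTransGen _ _).1 h2)).2
  have h4 : (T.deleteEdges {s(u, y)}).Adj u v := by
    rw [SimpleGraph.deleteEdges_adj]
    refine ⟨h.symm, fun he => ?_⟩
    rw [Set.mem_singleton_iff, Sym2.eq_iff] at he
    rcases he with ⟨_, e2⟩ | ⟨e1, _⟩
    · exact hne e2.symm
    · exact hy.ne e1
  have h5 : (T.deleteEdges {s(u, y)}).Reachable y x := hx
  exact tb_bridge hT hy (h4.reachable.trans (h3.trans h5.symm))

private theorem tb_ssub (hT : T.IsTree) {v u y : Fin N} (h : T.Adj v u) (hy : T.Adj u y)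
    (hne : y ≠ v) : side T u y ⊂ side T v u := by
  refine ⟨tb_sub hT h hy hne, fun hcon => ?_⟩
  have h1 : u ∈ side T u y := hcon (SimpleGraph.Reachable.refl _)
  exact tb_bridge hT hy (SimpleGraph.Reachable.symm h1)

end graph

/-- In a matroid of tree-width at most `w` and positive rank there is a set of elements of rank at
most `w` whose complement is not spanning. -/
theorem exists_bag {M : Matroid ℕ} (hM : M.Finite) (w : ℕ) (h : TwLE M w)
    (hr : 0 < rks M M.E) :
    ∃ A ⊆ M.E, rks M A ≤ w ∧ rks M (M.E \ A) < rks M M.E := by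
  classical
  obtain ⟨N, T, τ, hT, hw⟩ := h
  have hE : M.E.Finite := hM.ground_finite
  set R := rks M M.E with hR
  set F : Fin N → Fin N → Set ℕ := fun v u => {e | τ e ∈ side T v u} with hF
  have hle : ∀ v u, rks M (M.E \ F v u) ≤ R := fun v u => tb_rks_mono hE Set.sdiff_subset
  by_cases hall : ∀ v u, T.Adj v u → rks M (M.E \ F v u) = R
  · obtain ⟨v⟩ := hT.connected.nonempty
    have h1 := hw v
    rw [Finset.sum_congr rfl (fun u hu => hall v u (Finset.mem_filter.1 hu).2), Finset.sum_const,
      smul_eq_mul] at h1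
    refine ⟨M.E, le_rfl, ?_, ?_⟩
    · have h2 : (Finset.univ.filter (fun u => T.Adj v u)).card * R + R ≤
          w + (Finset.univ.filter (fun u => T.Adj v u)).card * R := h1
      rw [← hR]
      generalize (Finset.univ.filter (fun u => T.Adj v u)).card * R = d at h2
      omega
    · rw [Set.sdiff_self, tb_rks_empty]
      exact hr
  · push Not at hall
    obtain ⟨v0, u0, hvu0, hp0⟩ := hall
    obtain ⟨⟨v, u⟩, hmem, hmin⟩ := Finset.exists_min_image
      (Finset.univ.filter fun p : Fin N × Fin N => T.Adj p.1 p.2 ∧ rks M (M.E \ F p.1 p.2) ≠ R)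
      (fun p => (side T p.1 p.2).ncard)
      ⟨(v0, u0), Finset.mem_filter.2 ⟨Finset.mem_univ _, hvu0, hp0⟩⟩
    obtain ⟨hvu, hp⟩ := (Finset.mem_filter.1 hmem).2
    have hnb : ∀ y, T.Adj u y → y ≠ v → rks M (M.E \ F u y) = R := by
      intro y hy hne
      by_contra hcon
      have h1 := hmin (u, y) (Finset.mem_filter.2 ⟨Finset.mem_univ _, hy, hcon⟩)
      have h2 := Set.ncard_lt_ncard (tb_ssub hT hvu hy hne) (Set.toFinite _)
      exact absurd h1 (not_le.2 h2)
    have hA : M.E \ F u v = M.E ∩ F v u := by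
      ext e
      constructor
      · rintro ⟨h1, h2⟩
        exact ⟨h1, (tb_cover hT v u (τ e)).resolve_right h2⟩
      · rintro ⟨h1, h2⟩
        exact ⟨h1, fun h3 => tb_disj hT hvu h2 h3⟩
    refine ⟨M.E ∩ F v u, Set.inter_subset_left, ?_, ?_⟩
    · have h1 := hw u
      have hv : v ∈ Finset.univ.filter (fun y => T.Adj u y) :=
        Finset.mem_filter.2 ⟨Finset.mem_univ _, hvu.symm⟩
      rw [← Finset.add_sum_erase _ _ hv, Finset.sum_congr rfl (fun y hy => hnb y
        (Finset.mem_filter.1 (Finset.mem_erase.1 hy).2).2 (Finset.mem_erase.1 hy).1),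
        Finset.sum_const, smul_eq_mul, Finset.card_erase_of_mem hv] at h1
      have h2 : 1 ≤ (Finset.univ.filter (fun y => T.Adj u y)).card := Finset.card_pos.2 ⟨v, hv⟩
      obtain ⟨k, hk⟩ := Nat.exists_eq_add_of_le h2
      rw [hk, Nat.add_sub_cancel_left, add_mul, one_mul] at h1
      have h3 : rks M (M.E \ F u v) + k * R + R ≤ w + (R + k * R) := h1
      rw [hA] at h3
      omega
    · rw [Set.sdiff_self_inter]
      exact lt_of_le_of_ne (hle v u) hp

end Pool.Agent.Lib.MP_4a8162_co
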