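import Pool.Agent.Lib.MP_4a8162_co.TwDefs
import Pool.Agent.Lib.MP_4a8162_co.DCrit

set_option autoImplicit false

namespace Pool.Agent.Lib.MP_4a8162_co

open Module in
/-- In a simple matroid represented over a field with `q` elements, a set `A` of rank at most `w`
whose complement is not spanning contains a set `D` with at most `q^(w-1)` elements whose
complement is not spanning. -/
theorem small_cocircuit (F : Type) [Field F] [Fintype F] {M : Matroid ℕ} (hM : M.Finite)
    (h : RepF F M) (hs : ∀ e ∈ M.E, ∀ f ∈ M.E, M.Indep {e, f}) (w : ℕ) (hw : 1 ≤ w)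
    (A : Set ℕ) (hA : A ⊆ M.E) (hr : rks M A ≤ w) (hco : rks M (M.E \ A) < rks M M.E) :
    ∃ D : Finset ℕ, (D : Set ℕ) ⊆ M.E ∧ D.card ≤ Fintype.card F ^ (w - 1) ∧
      rks M (M.E \ (D : Set ℕ)) < rks M M.E := by
  classical
  obtain ⟨n, v, hv⟩ := h
  have hEf : M.E.Finite := hM.ground_finite
  rw [D2.rks_eq_finrank F v hv _ (hEf.subset hA) hA] at hr
  rw [D2.rks_eq_finrank F v hv _ (hEf.subset Set.sdiff_subset) Set.sdiff_subset,
    D2.rks_eq_finrank F v hv _ hEf (Set.Subset.refl _)] at hco
  -- an element outside the span of the complement of `A`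
  have h1 : ∃ e0 ∈ M.E, v e0 ∉ Submodule.span F (v '' (M.E \ A)) := by
    by_contra hcon
    push Not at hcon
    have h2 : Submodule.span F (v '' M.E) ≤ Submodule.span F (v '' (M.E \ A)) := by
      rw [Submodule.span_le]
      rintro _ ⟨e, he, rfl⟩
      exact hcon e he
    exact absurd (Submodule.finrank_mono h2) (not_le.2 hco)
  obtain ⟨e0, he0, hne0⟩ := h1
  obtain ⟨φ, hφ0, hφ⟩ := Submodule.exists_dual_map_eq_bot_of_notMem hne0 inferInstance
  have hφA : ∀ e ∈ M.E, e ∉ A → φ (v e) = 0 := by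
    intro e he heA
    have h2 : φ (v e) ∈ (Submodule.span F (v '' (M.E \ A))).map φ :=
      Submodule.mem_map_of_mem (Submodule.subset_span ⟨e, ⟨he, heA⟩, rfl⟩)
    rw [hφ] at h2
    exact (Submodule.mem_bot F).1 h2
  let D : Finset ℕ := hEf.toFinset.filter fun e => φ (v e) ≠ 0
  have hDmem : ∀ e, e ∈ D ↔ e ∈ M.E ∧ φ (v e) ≠ 0 := by
    intro e
    simp only [D, Finset.mem_filter, Set.Finite.mem_toFinset]
  have hDE : (D : Set ℕ) ⊆ M.E := fun e he => ((hDmem e).1 he).1
  have hDA : ∀ e ∈ D, e ∈ A := by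
    intro e he
    by_contra heA
    exact ((hDmem e).1 he).2 (hφA e ((hDmem e).1 he).1 heA)
  refine ⟨D, hDE, ?_, ?_⟩
  · -- the bound on the number of elements
    rcases D.eq_empty_or_nonempty with hD | ⟨d, hd⟩
    · rw [hD, Finset.card_empty]
      exact Nat.zero_le _
    let W : Submodule F (Fin n → F) := Submodule.span F (v '' A)
    let K : Submodule F (Fin n → F) := W ⊓ LinearMap.ker φ
    have hmemW : ∀ e ∈ D, v e ∈ W := fun e he => Submodule.subset_span ⟨e, hDA e he, rfl⟩
    have hKW : K < W := by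
      refine lt_of_le_of_ne inf_le_left fun heq => ?_
      have h2 : v d ∈ K := by rw [heq]; exact hmemW d hd
      exact ((hDmem d).1 hd).2 (LinearMap.mem_ker.1 h2.2)
    have hK : finrank F K ≤ w - 1 := by
      have h2 := Submodule.finrank_lt_finrank_of_lt hKW
      have h3 : finrank F W ≤ w := hr
      omega
    have hcard : Nat.card K = Fintype.card F ^ finrank F K := by
      rw [Module.natCard_eq_pow_finrank (K := F), Nat.card_eq_fintype_card]
    haveI : Finite K := Module.finite_of_finite F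
    let g : D → K := fun e => ⟨(φ (v e))⁻¹ • v e - (φ (v d))⁻¹ • v d, by
      refine ⟨W.sub_mem (W.smul_mem _ (hmemW e e.2)) (W.smul_mem _ (hmemW d hd)), ?_⟩
      show (φ (v e))⁻¹ • v e - (φ (v d))⁻¹ • v d ∈ LinearMap.ker φ
      rw [LinearMap.mem_ker, map_sub, map_smul, map_smul, smul_eq_mul, smul_eq_mul,
        inv_mul_cancel₀ ((hDmem e).1 e.2).2, inv_mul_cancel₀ ((hDmem d).1 hd).2, sub_self]⟩
    have hg : Function.Injective g := by
      intro e f hef
      by_contra hne
      have hne' : (e : ℕ) ≠ f := fun h => hne (Subtype.ext h)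
      have h2 : (φ (v e))⁻¹ • v (e : ℕ) = (φ (v f))⁻¹ • v (f : ℕ) := by
        have h3 := congrArg Subtype.val hef
        simp only [g] at h3
        exact sub_left_injective h3
      have h4 : LinearIndepOn F v ({(e : ℕ), (f : ℕ)} : Set ℕ) :=
        ((hv _).1 (hs e (hDE e.2) f (hDE f.2))).2
      rw [LinearIndepOn.pair_iff v hne'] at h4
      have h5 := h4 (φ (v e))⁻¹ (-(φ (v f))⁻¹) (by rw [h2, neg_smul, add_neg_cancel])
      exact inv_ne_zero ((hDmem e).1 e.2).2 h5.1
    have h2 := Nat.card_le_card_of_injective g hg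
    rw [hcard] at h2
    have h3 : Nat.card D = D.card := by
      rw [Nat.card_eq_fintype_card, Fintype.card_coe]
    rw [h3] at h2
    exact h2.trans (Nat.pow_le_pow_right Fintype.card_pos hK)
  · rw [D2.rks_eq_finrank F v hv _ (hEf.subset Set.sdiff_subset) Set.sdiff_subset,
      D2.rks_eq_finrank F v hv _ hEf (Set.Subset.refl _)]
    apply Submodule.finrank_lt_finrank_of_lt
    refine lt_of_le_of_ne (Submodule.span_mono (Set.image_mono Set.sdiff_subset)) fun heq => ?_
    have h2 : v e0 ∈ Submodule.span F (v '' (M.E \ (D : Set ℕ))) := by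
      rw [heq]
      exact Submodule.subset_span ⟨e0, he0, rfl⟩
    have h3 : Submodule.span F (v '' (M.E \ (D : Set ℕ))) ≤ LinearMap.ker φ := by
      rw [Submodule.span_le]
      rintro _ ⟨e, he, rfl⟩
      by_contra hne
      exact he.2 ((hDmem e).2 ⟨he.1, hne⟩)
    exact hφ0 (LinearMap.mem_ker.1 (h3 h2))

end Pool.Agent.Lib.MP_4a8162_co
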