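import Pool.Agent.Lib.MP_4a8162_co.TwDefs

set_option autoImplicit false

namespace Pool.Agent.Lib.MP_4a8162_co

private theorem t1_bdd (M : Matroid ℕ) (X : Set ℕ) (hX : X.Finite) :
    BddAbove {n : ℕ | ∃ I ⊆ X, M.Indep I ∧ I.ncard = n} := by
  refine ⟨X.ncard, ?_⟩
  rintro n ⟨I, hIX, _, rfl⟩
  exact Set.ncard_le_ncard hIX hX

private theorem t1_ge (M : Matroid ℕ) (X : Set ℕ) (hX : X.Finite) (I : Set ℕ) (hI : M.Indep I)
    (hIX : I ⊆ X) : I.ncard ≤ rks M X :=
  le_csSup (t1_bdd M X hX) ⟨I, hIX, hI, rfl⟩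

private theorem t1_le (M : Matroid ℕ) (X : Set ℕ) (k : ℕ)
    (h : ∀ I ⊆ X, M.Indep I → I.ncard ≤ k) : rks M X ≤ k := by
  refine csSup_le ⟨0, ∅, Set.empty_subset _, M.empty_indep, Set.ncard_empty _⟩ ?_
  rintro n ⟨J, hJX, hJ, rfl⟩
  exact h J hJX hJ

private theorem t1_mono (M : Matroid ℕ) (X Y : Set ℕ) (hY : Y.Finite) (h : X ⊆ Y) :
    rks M X ≤ rks M Y :=
  t1_le M X _ fun I hI hI' => t1_ge M Y hY I hI' (hI.trans h)

private theorem t1_basis (M : Matroid ℕ) (X I : Set ℕ) (hX : X.Finite) (hI : M.IsBasis' I X) :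
    rks M X = I.ncard := by
  apply le_antisymm
  · apply t1_le
    intro J hJX hJ
    have h2 := hJ.encard_le_eRk_of_subset hJX
    rw [hI.eRk_eq_encard, ← (hX.subset hJX).cast_ncard_eq,
      ← (hX.subset hI.subset).cast_ncard_eq] at h2
    exact_mod_cast h2
  · exact t1_ge M X hX I hI.indep hI.subset

private theorem t1_contract (M : Matroid ℕ) (G B : Set ℕ) (hG : G.Finite) (hB : B.Finite)
    (hd : Disjoint G B) : rks (M.contract G) B = rks M (G ∪ B) - rks M G := by
  obtain ⟨I, hI⟩ := M.exists_isBasis' G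
  have hIf : I.Finite := hG.subset hI.subset
  have hr := t1_basis M G I hG hI
  obtain ⟨K, hK, hIK⟩ := hI.indep.subset_isBasis'_of_subset
    (hI.subset.trans (Set.subset_union_left (t := B)))
  have hKf : K.Finite := (hG.union hB).subset hK.subset
  have hr2 := t1_basis M (G ∪ B) K (hG.union hB) hK
  rw [hr, hr2]
  apply le_antisymm
  · apply t1_le
    intro J hJB hJ
    rw [hI.contract_indep_iff] at hJ
    have hJf : J.Finite := hB.subset hJB
    have h1 := t1_ge M (G ∪ B) (hG.union hB) (J ∪ I) hJ.1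
      (Set.union_subset (hJB.trans Set.subset_union_right) (hI.subset.trans Set.subset_union_left))
    have h2 : Disjoint J I := (Set.disjoint_of_subset hI.subset hJB hd).symm
    rw [Set.ncard_union_eq h2 hJf hIf, hr2] at h1
    omega
  · have hKG : K ∩ G = I := by
      symm
      refine hI.eq_of_subset_indep (hK.indep.subset Set.inter_subset_left) ?_
        Set.inter_subset_right
      exact Set.subset_inter hIK hI.subset
    have h1 : K \ I ⊆ B := by
      intro e he
      rcases hK.subset he.1 with h | h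
      · exact absurd (hKG ▸ ⟨he.1, h⟩ : e ∈ I) he.2
      · exact h
    have h2 : (M.contract G).Indep (K \ I) := by
      rw [hI.contract_indep_iff, Set.sdiff_union_of_subset hIK]
      exact ⟨hK.indep, Set.disjoint_of_subset_right h1 hd⟩
    have h3 := t1_ge (M.contract G) B hB (K \ I) h2 h1
    rwa [Set.ncard_sdiff hIK hIf] at h3

private theorem t1_delete (M : Matroid ℕ) (D A : Set ℕ) (h : Disjoint A D) :
    rks (M.delete D) A = rks M A := by
  unfold rks
  congr 1
  ext n
  constructor
  · rintro ⟨I, hIX, hI, hn⟩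
    rw [Matroid.delete_indep_iff] at hI
    exact ⟨I, hIX, hI.1, hn⟩
  · rintro ⟨I, hIX, hI, hn⟩
    refine ⟨I, hIX, ?_, hn⟩
    rw [Matroid.delete_indep_iff]
    exact ⟨hI, Set.disjoint_of_subset_left hIX h⟩

private theorem t1_coe {M : Matroid ℕ} (E : Finset ℕ) (hE : (E : Set ℕ) = M.E) (e : ℕ) :
    M.E \ {e} = ((E.erase e : Finset ℕ) : Set ℕ) := by
  rw [Finset.coe_erase, hE]

private theorem t1_split {M : Matroid ℕ} (E : Finset ℕ) (e : ℕ) (he : e ∈ E) (x : ℝ) :
    chf M E x = ∑ X ∈ (E.erase e).powerset,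
      (-1 : ℝ) ^ X.card * (x ^ (rks M M.E - rks M (X : Set ℕ)) -
        x ^ (rks M M.E - rks M ((insert e X : Finset ℕ) : Set ℕ))) := by
  unfold chf
  conv_lhs => rw [← Finset.insert_erase he,
    Finset.sum_powerset_insert (Finset.notMem_erase e E), ← Finset.sum_add_distrib]
  refine Finset.sum_congr rfl fun X hX => ?_
  have heX : e ∉ X := fun h1 => Finset.notMem_erase e E (Finset.mem_powerset.1 hX h1)
  rw [Finset.card_insert_of_notMem heX, pow_succ]
  ring

/-- Deletion-contraction for an element which is not a coloop. -/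
theorem chf_del_contr {M : Matroid ℕ} (E : Finset ℕ) (hE : (E : Set ℕ) = M.E) (e : ℕ) (he : e ∈ E)
    (hr : rks M (M.E \ {e}) = rks M M.E) (x : ℝ) :
    chf M E x = chf (M.delete {e}) (E.erase e) x - chf (M.contract {e}) (E.erase e) x := by
  rw [t1_split E e he x]
  unfold chf
  rw [← Finset.sum_sub_distrib]
  have hEf : M.E.Finite := by
    rw [← hE]
    exact E.finite_toSet
  refine Finset.sum_congr rfl fun X hX => ?_
  have hXe : e ∉ X := fun h1 => Finset.notMem_erase e E (Finset.mem_powerset.1 hX h1)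
  have h1 : rks (M.delete {e}) (M.delete {e}).E = rks M M.E := by
    rw [Matroid.delete_ground, t1_delete _ _ _ Set.disjoint_sdiff_left, hr]
  have h2 : rks (M.delete {e}) (X : Set ℕ) = rks M (X : Set ℕ) := by
    apply t1_delete
    rw [Set.disjoint_singleton_right]
    exact_mod_cast hXe
  have h3 : rks (M.contract {e}) (M.contract {e}).E = rks M M.E - rks M {e} := by
    rw [Matroid.contract_ground, t1_contract M {e} (M.E \ {e}) (Set.finite_singleton e)
      (hEf.subset Set.sdiff_subset) Set.disjoint_sdiff_right, Set.union_sdiff_cancel]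
    rw [Set.singleton_subset_iff, ← hE]
    exact_mod_cast he
  have h4 : rks (M.contract {e}) (X : Set ℕ) =
      rks M ((insert e X : Finset ℕ) : Set ℕ) - rks M {e} := by
    rw [t1_contract M {e} (X : Set ℕ) (Set.finite_singleton e) X.finite_toSet, Finset.coe_insert,
      Set.singleton_union]
    rw [Set.disjoint_singleton_left]
    exact_mod_cast hXe
  have h5 : rks M {e} ≤ rks M ((insert e X : Finset ℕ) : Set ℕ) := by
    apply t1_mono _ _ _ (Finset.finite_toSet _)
    rw [Finset.coe_insert, Set.singleton_subset_iff]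
    exact Set.mem_insert _ _
  rw [h1, h2, h3, h4]
  have h6 : rks M M.E - rks M {e} - (rks M ((insert e X : Finset ℕ) : Set ℕ) - rks M {e}) =
      rks M M.E - rks M ((insert e X : Finset ℕ) : Set ℕ) := by omega
  rw [h6]
  ring

private theorem t1_insert_le (M : Matroid ℕ) (X : Set ℕ) (hX : X.Finite) (e : ℕ) :
    rks M (insert e X) ≤ rks M X + 1 := by
  apply t1_le
  intro I hI hI'
  have hIf : I.Finite := (hX.insert e).subset hI
  have h1 : (I \ {e}).ncard ≤ rks M X := by
    apply t1_ge M X hX _ (hI'.subset Set.sdiff_subset)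
    rintro a ⟨ha, hne⟩
    rcases hI ha with h | h
    · exact absurd h hne
    · exact h
  have h2 : I.ncard ≤ (I \ {e}).ncard + ({e} : Set ℕ).ncard := Set.ncard_le_ncard_sdiff_add_ncard _ _
  rw [Set.ncard_singleton] at h2
  omega

private theorem t1_coloop {M : Matroid ℕ} (F : Set ℕ) (hF : F.Finite) (e : ℕ)
    (hr : rks M F < rks M (insert e F)) (X : Set ℕ) (hXF : X ⊆ F) (heF : e ∉ F) :
    rks M (insert e X) = rks M X + 1 := by
  apply le_antisymm (t1_insert_le M X (hF.subset hXF) e)
  obtain ⟨I, hI⟩ := M.exists_isBasis' X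
  obtain ⟨J, hJ, hIJ⟩ := hI.indep.subset_isBasis'_of_subset (hI.subset.trans hXF)
  obtain ⟨K, hK, hJK⟩ := hJ.indep.subset_isBasis'_of_subset
    (hJ.subset.trans (Set.subset_insert e F))
  have hXf := hF.subset hXF
  have hKf : K.Finite := (hF.insert e).subset hK.subset
  rw [t1_basis M X I hXf hI]
  rw [t1_basis M F J hF hJ, t1_basis M (insert e F) K (hF.insert e) hK] at hr
  have heK : e ∈ K := by
    by_contra hne
    have hKF : K ⊆ F := by
      intro a ha
      rcases hK.subset ha with h | h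
      · rw [h] at ha
        exact absurd ha hne
      · exact h
    have : J = K := hJ.eq_of_subset_indep hK.indep hJK hKF
    rw [this] at hr
    exact lt_irrefl _ hr
  have heI : e ∉ I := fun h => heF (hXF (hI.subset h))
  have hind : M.Indep (insert e I) := hK.indep.subset (Set.insert_subset heK (hIJ.trans hJK))
  have h1 := t1_ge M (insert e X) (hXf.insert e) (insert e I) hind
    (Set.insert_subset_insert hI.subset)
  rwa [Set.ncard_insert_of_notMem heI (hXf.subset hI.subset)] at h1

/-- A coloop gives a factor `x - 1`. -/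
theorem chf_coloop {M : Matroid ℕ} (E : Finset ℕ) (hE : (E : Set ℕ) = M.E) (e : ℕ) (he : e ∈ E)
    (hr : rks M (M.E \ {e}) < rks M M.E) (x : ℝ) :
    chf M E x = (x - 1) * chf (M.delete {e}) (E.erase e) x := by
  rw [t1_split E e he x]
  unfold chf
  rw [Finset.mul_sum]
  have hEf : M.E.Finite := by
    rw [← hE]
    exact E.finite_toSet
  have heE : e ∈ M.E := by
    rw [← hE]
    exact_mod_cast he
  have hins : insert e (M.E \ {e}) = M.E := Set.insert_sdiff_self_of_mem heE
  have hr' : rks M (M.E \ {e}) < rks M (insert e (M.E \ {e})) := by rwa [hins]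
  have hcol : ∀ X : Set ℕ, X ⊆ M.E \ {e} → rks M (insert e X) = rks M X + 1 := fun X hX =>
    t1_coloop (M.E \ {e}) (hEf.subset Set.sdiff_subset) e hr' X hX
      (fun h => h.2 (Set.mem_singleton e))
  have hfull := hcol _ (Set.Subset.refl _)
  rw [hins] at hfull
  refine Finset.sum_congr rfl fun X hX => ?_
  have hXe : e ∉ X := fun h1 => Finset.notMem_erase e E (Finset.mem_powerset.1 hX h1)
  have hXE : (X : Set ℕ) ⊆ M.E \ {e} := by
    rw [t1_coe E hE e]
    exact_mod_cast Finset.mem_powerset.1 hX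
  have h1 : rks (M.delete {e}) (M.delete {e}).E = rks M (M.E \ {e}) := by
    rw [Matroid.delete_ground, t1_delete _ _ _ Set.disjoint_sdiff_left]
  have h2 : rks (M.delete {e}) (X : Set ℕ) = rks M (X : Set ℕ) := by
    apply t1_delete
    rw [Set.disjoint_singleton_right]
    exact_mod_cast hXe
  have h3 := hcol (X : Set ℕ) hXE
  have h4 := t1_mono M (X : Set ℕ) (M.E \ {e}) (hEf.subset Set.sdiff_subset) hXE
  rw [h1, h2, Finset.coe_insert, h3, hfull]
  have h5 : rks M (M.E \ {e}) + 1 - rks M (X : Set ℕ) =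
      (rks M (M.E \ {e}) - rks M (X : Set ℕ)) + 1 := by omega
  have h6 : rks M (M.E \ {e}) + 1 - (rks M (X : Set ℕ) + 1) =
      rks M (M.E \ {e}) - rks M (X : Set ℕ) := by omega
  rw [h5, h6, pow_succ]
  ring

/-- A matroid with a loop has characteristic polynomial zero. -/
theorem chf_loop {M : Matroid ℕ} (E : Finset ℕ) (hE : (E : Set ℕ) = M.E) (e : ℕ) (he : e ∈ E)
    (hl : ¬ M.Indep {e}) (x : ℝ) : chf M E x = 0 := by
  by_contra h
  refine hl (loopless_of_chf_ne_zero E hE x h e ?_)
  rw [← hE]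
  exact_mod_cast he

end Pool.Agent.Lib.MP_4a8162_co
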