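import Pool.Agent.Lib.MP_4a8162_co.Root

set_option autoImplicit false

namespace Pool.Agent.Lib.MP_4a8162_co

/-- `M` is represented over the field `F`. -/
def RepF (F : Type) [Field F] (M : Matroid ℕ) : Prop :=
  ∃ n : ℕ, ∃ v : ℕ → (Fin n → F), ∀ I : Set ℕ,
    M.Indep I ↔ (I ⊆ M.E ∧ LinearIndependent F (fun x : I => v x))

/-- The nodes of the tree `T` on the side of `u` when the edge `v u` is removed. -/
def side {N : ℕ} (T : SimpleGraph (Fin N)) (v u : Fin N) : Set (Fin N) :=
  {x | (T.deleteEdges {s(v, u)}).Reachable u x}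

open Classical in
/-- `M` has a tree decomposition of width at most `w` in the sense of Hlineny and Whittle: a tree
`T` and a map from the elements to the nodes such that for every node `v`, with branches `F_u`
(`u` a neighbour of `v`), `sum_u r(E - F_u) - (deg v - 1) r(M) <= w`. -/
def TwLE (M : Matroid ℕ) (w : ℕ) : Prop :=
  ∃ (N : ℕ) (T : SimpleGraph (Fin N)) (τ : ℕ → Fin N), T.IsTree ∧ ∀ v : Fin N,
    (∑ u ∈ Finset.univ.filter (fun u => T.Adj v u), rks M (M.E \ {e | τ e ∈ side T v u}))
      + rks M M.E ≤ w + (Finset.univ.filter (fun u => T.Adj v u)).card * rks M M.E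

end Pool.Agent.Lib.MP_4a8162_co
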