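import Pool.Agent.Lib.MP_4a8162_co.TwDefs

set_option autoImplicit false

namespace Pool.Agent.Lib.MP_4a8162_co

/-! ### the sides of the edges at a node of a tree are disjoint -/

private theorem tm_walk {N : ℕ} (T : SimpleGraph (Fin N)) (v u u' : Fin N)
    (hb : ¬ (T.deleteEdges {s(v, u')}).Reachable v u') {a x : Fin N}
    (p : (T.deleteEdges {s(v, u')}).Walk a x) :
    (T.deleteEdges {s(v, u')}).Reachable u' a → (T.deleteEdges {s(v, u)}).Reachable a x := by
  induction p with
  | nil => exact fun _ => SimpleGraph.Reachable.refl _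
  | @cons a b c h p ih =>
    intro ha
    have hb' : (T.deleteEdges {s(v, u')}).Reachable u' b := ha.trans h.reachable
    have hav : a ≠ v := by
      rintro rfl
      exact hb ha.symm
    have hbv : b ≠ v := by
      rintro rfl
      exact hb hb'.symm
    refine SimpleGraph.Reachable.trans ?_ (ih hb')
    apply SimpleGraph.Adj.reachable
    rw [SimpleGraph.deleteEdges_adj] at h ⊢
    refine ⟨h.1, ?_⟩
    rw [Set.mem_singleton_iff, Sym2.eq_iff]
    rintro (⟨h1, -⟩ | ⟨-, h1⟩)
    · exact hav h1
    · exact hbv h1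

private theorem tm_side {N : ℕ} (T : SimpleGraph (Fin N)) (hT : T.IsTree) (v u u' x : Fin N)
    (hu : T.Adj v u) (hu' : T.Adj v u') (hx : x ∈ side T v u) (hx' : x ∈ side T v u') :
    u = u' := by
  by_contra hne
  have hac := hT.isAcyclic
  rw [SimpleGraph.isAcyclic_iff_forall_adj_isBridge] at hac
  have h1 : ¬ (T.deleteEdges {s(v, u)}).Reachable v u :=
    SimpleGraph.isBridge_iff.1 (hac hu)
  have h2 : ¬ (T.deleteEdges {s(v, u')}).Reachable v u' :=
    SimpleGraph.isBridge_iff.1 (hac hu')
  obtain ⟨p⟩ : (T.deleteEdges {s(v, u')}).Reachable u' x := hx'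
  have h3 := tm_walk T v u u' h2 p (SimpleGraph.Reachable.refl _)
  have h4 : (T.deleteEdges {s(v, u)}).Adj v u' := by
    rw [SimpleGraph.deleteEdges_adj]
    refine ⟨hu', ?_⟩
    rw [Set.mem_singleton_iff, Sym2.eq_iff]
    rintro (⟨-, h5⟩ | ⟨h5, -⟩)
    · exact hne h5.symm
    · exact hu.ne h5
  have hx1 : (T.deleteEdges {s(v, u)}).Reachable u x := hx
  exact h1 ((h4.reachable.trans h3).trans hx1.symm)

/-! ### ranks -/

private theorem tm_bdd (M : Matroid ℕ) (X : Set ℕ) (hX : X.Finite) :
    BddAbove {n : ℕ | ∃ I ⊆ X, M.Indep I ∧ I.ncard = n} := by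
  refine ⟨X.ncard, ?_⟩
  rintro n ⟨I, hIX, _, rfl⟩
  exact Set.ncard_le_ncard hIX hX

private theorem tm_ge (M : Matroid ℕ) (X : Set ℕ) (hX : X.Finite) (I : Set ℕ) (hI : M.Indep I)
    (hIX : I ⊆ X) : I.ncard ≤ rks M X :=
  le_csSup (tm_bdd M X hX) ⟨I, hIX, hI, rfl⟩

private theorem tm_le (M : Matroid ℕ) (X : Set ℕ) (k : ℕ)
    (h : ∀ I ⊆ X, M.Indep I → I.ncard ≤ k) : rks M X ≤ k := by
  refine csSup_le ⟨0, ∅, Set.empty_subset _, M.empty_indep, Set.ncard_empty _⟩ ?_
  rintro n ⟨J, hJX, hJ, rfl⟩
  exact h J hJX hJ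

private theorem tm_mono (M : Matroid ℕ) (X Y : Set ℕ) (hY : Y.Finite) (h : X ⊆ Y) :
    rks M X ≤ rks M Y :=
  tm_le M X _ fun I hI hI' => tm_ge M Y hY I hI' (hI.trans h)

private theorem tm_basis (M : Matroid ℕ) (X I : Set ℕ) (hX : X.Finite) (hI : M.IsBasis' I X) :
    rks M X = I.ncard := by
  apply le_antisymm
  · apply tm_le
    intro J hJX hJ
    have h2 := hJ.encard_le_eRk_of_subset hJX
    rw [hI.eRk_eq_encard, ← (hX.subset hJX).cast_ncard_eq,
      ← (hX.subset hI.subset).cast_ncard_eq] at h2
    exact_mod_cast h2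
  · exact tm_ge M X hX I hI.indep hI.subset

private theorem tm_contract (M : Matroid ℕ) (G B : Set ℕ) (hG : G.Finite) (hB : B.Finite)
    (hd : Disjoint G B) : rks (M.contract G) B + rks M G = rks M (G ∪ B) := by
  obtain ⟨I, hI⟩ := M.exists_isBasis' G
  have hIf : I.Finite := hG.subset hI.subset
  have hr := tm_basis M G I hG hI
  obtain ⟨K, hK, hIK⟩ := hI.indep.subset_isBasis'_of_subset
    (hI.subset.trans (Set.subset_union_left (t := B)))
  have hKf : K.Finite := (hG.union hB).subset hK.subset
  have hr2 := tm_basis M (G ∪ B) K (hG.union hB) hK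
  rw [hr, hr2]
  apply le_antisymm
  · have h0 : rks (M.contract G) B ≤ K.ncard - I.ncard := by
      apply tm_le
      intro J hJB hJ
      rw [hI.contract_indep_iff] at hJ
      have hJf : J.Finite := hB.subset hJB
      have h1 := tm_ge M (G ∪ B) (hG.union hB) (J ∪ I) hJ.1
        (Set.union_subset (hJB.trans Set.subset_union_right)
          (hI.subset.trans Set.subset_union_left))
      have h2 : Disjoint J I := (Set.disjoint_of_subset hI.subset hJB hd).symm
      rw [Set.ncard_union_eq h2 hJf hIf, hr2] at h1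
      omega
    have h3 : I.ncard ≤ K.ncard := Set.ncard_le_ncard hIK hKf
    omega
  · have hKG : K ∩ G = I := by
      symm
      refine hI.eq_of_subset_indep (hK.indep.subset Set.inter_subset_left) ?_
        Set.inter_subset_right
      exact Set.subset_inter hIK hI.subset
    have h1 : K \ I ⊆ B := by
      intro e he
      rcases hK.subset he.1 with h | h
      · exact absurd (hKG ▸ ⟨he.1, h⟩ : e ∈ I) he.2
      · exact h
    have h2 : (M.contract G).Indep (K \ I) := by
      rw [hI.contract_indep_iff, Set.sdiff_union_of_subset hIK]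
      exact ⟨hK.indep, Set.disjoint_of_subset_right h1 hd⟩
    have h3 := tm_ge (M.contract G) B hB (K \ I) h2 h1
    rw [Set.ncard_sdiff hIK hIf] at h3
    omega

private theorem tm_delete (M : Matroid ℕ) (D A : Set ℕ) (h : Disjoint A D) :
    rks (M.delete D) A = rks M A := by
  unfold rks
  congr 1
  ext n
  constructor
  · rintro ⟨I, hIX, hI, hn⟩
    rw [Matroid.delete_indep_iff] at hI
    exact ⟨I, hIX, hI.1, hn⟩
  · rintro ⟨I, hIX, hI, hn⟩
    refine ⟨I, hIX, ?_, hn⟩
    rw [Matroid.delete_indep_iff]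
    exact ⟨hI, Set.disjoint_of_subset_left hIX h⟩

private theorem tm_submod (M : Matroid ℕ) (hM : M.Finite) (X Y : Set ℕ) (hX : X.Finite)
    (hY : Y.Finite) : rks M (X ∩ Y) + rks M (X ∪ Y) ≤ rks M X + rks M Y := by
  have h := M.eRk_inter_add_eRk_union_le X Y
  rw [← rks_eq_eRk hM _ (hX.subset Set.inter_subset_left), ← rks_eq_eRk hM _ (hX.union hY),
    ← rks_eq_eRk hM _ hX, ← rks_eq_eRk hM _ hY] at h
  exact_mod_cast h

private theorem tm_singleton (M : Matroid ℕ) (e : ℕ) : rks M {e} ≤ 1 := by
  apply tm_le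
  intro I hI _
  have h := Set.ncard_le_ncard hI (Set.finite_singleton e)
  rwa [Set.ncard_singleton] at h

private theorem tm_insert (M : Matroid ℕ) (hM : M.Finite) (e : ℕ) (X : Set ℕ) (hX : X.Finite) :
    rks M ({e} ∪ X) ≤ rks M X + rks M {e} := by
  have h := tm_submod M hM {e} X (Set.finite_singleton e) hX
  omega

/-! ### the counting step -/

open Classical in
private theorem tm_main {M M' : Matroid ℕ} (w : ℕ) (e : ℕ) (h : TwLE M w)
    (ha : ∀ F : Set ℕ, rks M' (M'.E \ F) ≤ rks M (M.E \ F))
    (hr : rks M' M'.E = rks M M.E ∨ (rks M' M'.E + 1 = rks M M.E ∧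
      ∀ F : Set ℕ, e ∉ F → rks M' (M'.E \ F) + 1 ≤ rks M (M.E \ F))) :
    TwLE M' w := by
  obtain ⟨N, T, τ, hT, hw⟩ := h
  refine ⟨N, T, τ, hT, fun v => ?_⟩
  have h0 := hw v
  set Nb := Finset.univ.filter (fun u => T.Adj v u) with hNb
  rcases hr with hr | ⟨hr, hb⟩
  · have h1 : ∑ u ∈ Nb, rks M' (M'.E \ {e | τ e ∈ side T v u}) ≤
        ∑ u ∈ Nb, rks M (M.E \ {e | τ e ∈ side T v u}) :=
      Finset.sum_le_sum fun u _ => ha _
    rw [hr]
    omega
  · have h1 : ∀ u ∈ Nb, rks M' (M'.E \ {e | τ e ∈ side T v u}) + 1 ≤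
        rks M (M.E \ {e | τ e ∈ side T v u}) + if τ e ∈ side T v u then 1 else 0 := by
      intro u _
      by_cases hu : τ e ∈ side T v u
      · rw [if_pos hu]
        have := ha {e | τ e ∈ side T v u}
        omega
      · rw [if_neg hu]
        exact hb {e | τ e ∈ side T v u} hu
    have h2 := Finset.sum_le_sum h1
    rw [Finset.sum_add_distrib, Finset.sum_add_distrib, Finset.sum_const, smul_eq_mul, mul_one,
      ← Finset.sum_filter, Finset.sum_const, smul_eq_mul, mul_one] at h2
    have h3 : (Nb.filter fun u => τ e ∈ side T v u).card ≤ 1 := by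
      rw [Finset.card_le_one]
      intro a ha b hb
      rw [Finset.mem_filter, hNb, Finset.mem_filter] at ha hb
      exact tm_side T hT v a b (τ e) ha.1.2 hb.1.2 ha.2 hb.2
    have h4 : Nb.card * rks M M.E = Nb.card * rks M' M'.E + Nb.card := by
      rw [← hr]
      ring
    rw [h4] at h0
    omega

theorem twLE_delete {M : Matroid ℕ} (hM : M.Finite) (w : ℕ) (h : TwLE M w) (e : ℕ) :
    TwLE (M.delete {e}) w := by
  have hE : M.E.Finite := M.ground_finite
  by_cases he : e ∈ M.E
  · have hdr : ∀ F : Set ℕ, rks (M.delete {e}) ((M.delete {e}).E \ F) =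
        rks M ((M.E \ F) \ {e}) := by
      intro F
      have e1 : (M.delete {e}).E \ F = (M.E \ F) \ {e} := by
        rw [Matroid.delete_ground]
        ext x
        constructor
        · rintro ⟨⟨h1, h2⟩, h3⟩
          exact ⟨⟨h1, h3⟩, h2⟩
        · rintro ⟨⟨h1, h3⟩, h2⟩
          exact ⟨⟨h1, h2⟩, h3⟩
      rw [e1]
      exact tm_delete M {e} _ Set.disjoint_sdiff_left
    have hdE : rks (M.delete {e}) (M.delete {e}).E = rks M (M.E \ {e}) := by
      rw [Matroid.delete_ground]
      exact tm_delete M {e} _ Set.disjoint_sdiff_left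
    have hle : rks M (M.E \ {e}) ≤ rks M M.E := tm_mono M _ _ hE Set.sdiff_subset
    have hge : rks M M.E ≤ rks M (M.E \ {e}) + 1 := by
      have h1 := tm_insert M hM e (M.E \ {e}) (hE.subset Set.sdiff_subset)
      have h2 := tm_singleton M e
      have h3 : ({e} ∪ M.E \ {e} : Set ℕ) = M.E := Set.union_sdiff_cancel
        (Set.singleton_subset_iff.2 he)
      rw [h3] at h1
      omega
    apply tm_main w e h
    · intro F
      rw [hdr]
      exact tm_mono M _ _ (hE.subset Set.sdiff_subset) Set.sdiff_subset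
    · rw [hdE]
      rcases Nat.lt_or_ge (rks M (M.E \ {e})) (rks M M.E) with hlt | hge'
      · right
        refine ⟨by omega, fun F hF => ?_⟩
        rw [hdr]
        have h1 := tm_submod M hM (M.E \ F) (M.E \ {e}) (hE.subset Set.sdiff_subset)
          (hE.subset Set.sdiff_subset)
        have e1 : (M.E \ F) ∩ (M.E \ {e}) = (M.E \ F) \ {e} := by
          ext x
          constructor
          · rintro ⟨h1, h2⟩
            exact ⟨h1, h2.2⟩
          · rintro ⟨h1, h2⟩
            exact ⟨h1, h1.1, h2⟩
        have e2 : (M.E \ F) ∪ (M.E \ {e}) = M.E := by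
          ext x
          constructor
          · rintro (h1 | h1)
            · exact h1.1
            · exact h1.1
          · intro h1
            by_cases hx : x = e
            · left
              rw [hx]
              exact ⟨he, hF⟩
            · right
              exact ⟨h1, hx⟩
        rw [e1, e2] at h1
        omega
      · left
        omega
  · rw [Matroid.deleteElem_eq_self he]
    exact h

theorem twLE_contract {M : Matroid ℕ} (hM : M.Finite) (w : ℕ) (h : TwLE M w) (e : ℕ) :
    TwLE (M.contract {e}) w := by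
  have hE : M.E.Finite := M.ground_finite
  by_cases he : e ∈ M.E
  · have hcr : ∀ F : Set ℕ, rks (M.contract {e}) ((M.contract {e}).E \ F) + rks M {e} =
        rks M ({e} ∪ (M.E \ F)) := by
      intro F
      have h1 := tm_contract M {e} ((M.contract {e}).E \ F) (Set.finite_singleton e)
        (hE.subset (by
          rw [Matroid.contract_ground]
          exact Set.sdiff_subset.trans Set.sdiff_subset)) (by
          rw [Set.disjoint_singleton_left, Matroid.contract_ground]
          rintro ⟨⟨-, h2⟩, -⟩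
          exact h2 rfl)
      rw [h1]
      congr 1
      rw [Matroid.contract_ground]
      ext x
      constructor
      · rintro (h2 | ⟨⟨h2, -⟩, h3⟩)
        · exact Or.inl h2
        · exact Or.inr ⟨h2, h3⟩
      · rintro (h2 | ⟨h2, h3⟩)
        · exact Or.inl h2
        · by_cases hx : x ∈ ({e} : Set ℕ)
          · exact Or.inl hx
          · exact Or.inr ⟨⟨h2, hx⟩, h3⟩
    have hcE : rks (M.contract {e}) (M.contract {e}).E + rks M {e} = rks M M.E := by
      have h1 := hcr ∅
      rw [Set.sdiff_empty, Set.sdiff_empty, Set.union_eq_self_of_subset_left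
        (Set.singleton_subset_iff.2 he)] at h1
      exact h1
    have hs := tm_singleton M e
    apply tm_main w e h
    · intro F
      have h1 := hcr F
      have h2 := tm_insert M hM e (M.E \ F) (hE.subset Set.sdiff_subset)
      omega
    · rcases Nat.eq_zero_or_pos (rks M {e}) with h0 | h0
      · left
        omega
      · right
        refine ⟨by omega, fun F hF => ?_⟩
        have h1 := hcr F
        rw [Set.union_eq_self_of_subset_left (Set.singleton_subset_iff.2
          (show e ∈ M.E \ F from ⟨he, hF⟩))] at h1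
        omega
  · rw [Matroid.contract_eq_self_iff.2 (Set.disjoint_singleton_left.2 he)]
    exact h

end Pool.Agent.Lib.MP_4a8162_co
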