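import Pool.Agent.Lib.MP_4a8162_co.TwDefs
import Pool.Agent.Lib.MP_4a8162_co.DCrit

set_option autoImplicit false

namespace Pool.Agent.Lib.MP_4a8162_co

namespace TwSharpAux

/-- The number of `k`-tuples of functionals vanishing on `v '' X`. -/
theorem card_ann_tuple (F : Type) [Field F] [Fintype F] {n : ℕ} (v : ℕ → (Fin n → F))
    (X : Set ℕ) (k : ℕ) :
    Nat.card {φ : Fin k → Module.Dual F (Fin n → F) // ∀ j, ∀ e ∈ X, φ j (v e) = 0} =
      (Fintype.card F ^ k) ^ (n - Module.finrank F (Submodule.span F (v '' X))) := by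
  have h1 : Nat.card {φ : Fin k → Module.Dual F (Fin n → F) // ∀ j, ∀ e ∈ X, φ j (v e) = 0} =
      Nat.card (Fin k → {φ : Module.Dual F (Fin n → F) // ∀ e ∈ X, φ (v e) = 0}) :=
    Nat.card_congr (Equiv.subtypePiEquivPi (β := fun _ : Fin k => Module.Dual F (Fin n → F))
      (p := fun {_} φ => ∀ e ∈ X, φ (v e) = 0))
  rw [h1, Nat.card_fun, D2.card_ann, Nat.card_eq_fintype_card, Fintype.card_fin, ← pow_mul,
    ← pow_mul, mul_comm]

/-- The critical problem for `k`-tuples: if every `k`-tuple of functionals vanishes on some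
element then the characteristic polynomial vanishes at `q ^ k`. -/
theorem chf_pow_zero (F : Type) [Field F] [Fintype F] {M : Matroid ℕ} (E : Finset ℕ)
    (hE : (E : Set ℕ) = M.E) {n : ℕ} (v : ℕ → (Fin n → F))
    (h : ∀ I : Set ℕ, M.Indep I ↔ (I ⊆ M.E ∧ LinearIndependent F (fun x : I => v x)))
    (k : ℕ) (hk : ∀ φ : Fin k → Module.Dual F (Fin n → F), ∃ e ∈ E, ∀ j, φ j (v e) = 0) :
    chf M E ((Fintype.card F : ℝ) ^ k) = 0 := by
  classical
  have : Finite (Module.Dual F (Fin n → F)) := Module.finite_of_finite F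
  have : Fintype (Module.Dual F (Fin n → F)) := Fintype.ofFinite _
  have hq : (0 : ℝ) < (Fintype.card F : ℝ) ^ k := by
    have : (0 : ℝ) < (Fintype.card F : ℝ) := by exact_mod_cast Fintype.card_pos
    exact pow_pos this k
  set q : ℝ := (Fintype.card F : ℝ) ^ k with hqdef
  have hrE : rks M M.E ≤ n := by
    rw [D2.rks_eq_finrank F v h M.E (by rw [← hE]; exact E.finite_toSet) (Set.Subset.refl _)]
    exact (Submodule.finrank_le _).trans (by rw [Module.finrank_fin_fun])
  have hterm : ∀ X ∈ E.powerset, q ^ (n - rks M M.E) *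
      ((-1 : ℝ) ^ X.card * q ^ (rks M M.E - rks M (X : Set ℕ))) =
      ∑ φ : Fin k → Module.Dual F (Fin n → F),
        (if ∀ j, ∀ e ∈ X, φ j (v e) = 0 then ((-1 : ℤ) ^ X.card : ℤ) else (0 : ℤ) : ℤ) := by
    intro X hX
    have hXE : (X : Set ℕ) ⊆ M.E := by
      rw [← hE]
      exact_mod_cast Finset.mem_powerset.1 hX
    have hle : rks M (X : Set ℕ) ≤ rks M M.E := by
      rw [D2.rks_eq_finrank F v h X X.finite_toSet hXE,
        D2.rks_eq_finrank F v h M.E (by rw [← hE]; exact E.finite_toSet) (Set.Subset.refl _)]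
      exact Submodule.finrank_mono (Submodule.span_mono (Set.image_mono hXE))
    have h1 : (∑ φ : Fin k → Module.Dual F (Fin n → F),
        (if ∀ j, ∀ e ∈ X, φ j (v e) = 0 then ((-1 : ℤ) ^ X.card : ℤ) else (0 : ℤ) : ℤ)) =
        (-1 : ℤ) ^ X.card * ((Fintype.card F : ℤ) ^ k) ^ (n - rks M (X : Set ℕ)) := by
      rw [← Finset.sum_filter, Finset.sum_const, nsmul_eq_mul, mul_comm]
      congr 1
      have h2 := card_ann_tuple F v (X : Set ℕ) k
      rw [← D2.rks_eq_finrank F v h X X.finite_toSet hXE, Nat.card_eq_fintype_card,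
        Fintype.card_subtype] at h2
      exact_mod_cast h2
    rw [h1]
    push_cast
    have h3 : n - rks M (X : Set ℕ) = (n - rks M M.E) + (rks M M.E - rks M (X : Set ℕ)) := by
      omega
    rw [h3, pow_add]
    ring
  have hsum : q ^ (n - rks M M.E) * chf M E q =
      ((∑ φ : Fin k → Module.Dual F (Fin n → F), ∑ X ∈ E.powerset,
        (if ∀ j, ∀ e ∈ X, φ j (v e) = 0 then ((-1 : ℤ) ^ X.card : ℤ) else (0 : ℤ) : ℤ) : ℤ) :
        ℝ) := by
    unfold chf
    rw [Finset.mul_sum, Finset.sum_congr rfl hterm, Finset.sum_comm]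
    push_cast
    rfl
  have hz : ∑ φ : Fin k → Module.Dual F (Fin n → F), ∑ X ∈ E.powerset,
        (if ∀ j, ∀ e ∈ X, φ j (v e) = 0 then ((-1 : ℤ) ^ X.card : ℤ) else (0 : ℤ) : ℤ) = 0 := by
    refine Finset.sum_eq_zero fun φ _ => ?_
    have h1 : ∑ X ∈ E.powerset,
        (if ∀ j, ∀ e ∈ X, φ j (v e) = 0 then ((-1 : ℤ) ^ X.card : ℤ) else (0 : ℤ) : ℤ) =
        ∑ X ∈ (E.filter fun e => ∀ j, φ j (v e) = 0).powerset, (-1 : ℤ) ^ X.card := by
      rw [← Finset.sum_filter]
      refine Finset.sum_congr ?_ fun _ _ => rfl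
      ext X
      rw [Finset.mem_filter, Finset.mem_powerset, Finset.mem_powerset]
      constructor
      · rintro ⟨h1, h2⟩ e he
        exact Finset.mem_filter.2 ⟨h1 he, fun j => h2 j e he⟩
      · intro h1
        exact ⟨fun e he => (Finset.mem_filter.1 (h1 he)).1,
          fun j e he => (Finset.mem_filter.1 (h1 he)).2 j⟩
    rw [h1, Finset.sum_powerset_neg_one_pow_card, if_neg]
    obtain ⟨e, he, hφ⟩ := hk φ
    exact Finset.Nonempty.ne_empty ⟨e, Finset.mem_filter.2 ⟨he, hφ⟩⟩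
  rw [hz] at hsum
  have h0 : q ^ (n - rks M M.E) * chf M E q = 0 := by
    rw [hsum]
    norm_num
  exact (mul_eq_zero.1 h0).resolve_left (pow_pos hq _).ne'

theorem span_of_no_ext {F : Type} [Field F] {n : ℕ} (v : ℕ → Fin n → F) {I J : Set ℕ}
    (hI : LinearIndepOn F v I) (h : ∀ e ∈ J, LinearIndepOn F v (insert e I) → e ∈ I) :
    Submodule.span F (v '' J) ≤ Submodule.span F (v '' I) := by
  rw [Submodule.span_le]
  rintro _ ⟨e, he, rfl⟩
  by_cases heI : e ∈ I
  · exact Submodule.subset_span ⟨e, heI, rfl⟩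
  · by_contra hx
    exact heI (h e he (LinearIndepOn.insert hI hx))

theorem aug {F : Type} [Field F] {n : ℕ} (v : ℕ → Fin n → F) {I J : Set ℕ} (hIf : I.Finite)
    (hJf : J.Finite) (hI : LinearIndepOn F v I) (hJ : LinearIndepOn F v J)
    (hlt : I.ncard < J.ncard) : ∃ e ∈ J, e ∉ I ∧ LinearIndepOn F v (insert e I) := by
  by_contra hcon
  push Not at hcon
  have h1 := span_of_no_ext v (J := J) hI (fun e he hi => by
    by_contra heI
    exact hcon e he heI hi)
  have h2 := Submodule.finrank_mono h1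
  rw [D2.finrank_span_indep F v hJf hJ, D2.finrank_span_indep F v hIf hI] at h2
  omega

end TwSharpAux

/-- The projective geometry of rank `w` has the root `q^(w-1)`. -/
theorem exists_pg (F : Type) [Field F] [Fintype F] (w : ℕ) (hw : 1 ≤ w) :
    ∃ M : Matroid ℕ, M.Finite ∧ RepF F M ∧ TwLE M w ∧ (∀ e ∈ M.E, M.Indep {e}) ∧
      ∃ E : Finset ℕ, (E : Set ℕ) = M.E ∧ chf M E ((Fintype.card F : ℝ) ^ (w - 1)) = 0 := by
  classical
  let K : ℕ := Fintype.card {x : Fin w → F // x ≠ 0}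
  let en : {x : Fin w → F // x ≠ 0} ≃ Fin K := Fintype.equivFin _
  let v : ℕ → Fin w → F := fun i => if h : i < K then (en.symm ⟨i, h⟩).1 else 0
  have hv0 : ∀ i, i < K → v i ≠ 0 := by
    intro i hi
    have : v i = (en.symm ⟨i, hi⟩).1 := dif_pos hi
    rw [this]
    exact (en.symm ⟨i, hi⟩).2
  have hvs : ∀ x : Fin w → F, x ≠ 0 → ∃ i, i < K ∧ v i = x := by
    intro x hx
    refine ⟨en ⟨x, hx⟩, (en ⟨x, hx⟩).2, ?_⟩
    have : v (en ⟨x, hx⟩ : ℕ) = (en.symm ⟨(en ⟨x, hx⟩ : ℕ), (en ⟨x, hx⟩).2⟩).1 :=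
      dif_pos (en ⟨x, hx⟩).2
    rw [this, Fin.eta, Equiv.symm_apply_apply]
  let E : Set ℕ := (Finset.range K : Finset ℕ)
  have hE : E.Finite := (Finset.range K).finite_toSet
  let IM : IndepMatroid ℕ := IndepMatroid.ofFinite hE (fun I => I ⊆ E ∧ LinearIndepOn F v I)
    ⟨Set.empty_subset _, linearIndepOn_empty F v⟩
    (fun I J hJ hIJ => ⟨hIJ.trans hJ.1, hJ.2.mono hIJ⟩)
    (fun I J hI hJ hlt => by
      obtain ⟨e, he, heI, h⟩ := TwSharpAux.aug v (hE.subset hI.1) (hE.subset hJ.1) hI.2 hJ.2 hlt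
      exact ⟨e, he, heI, Set.insert_subset (hJ.1 he) hI.1, h⟩)
    (fun I hI => hI.1)
  have hind : ∀ I, IM.matroid.Indep I ↔ (I ⊆ IM.matroid.E ∧ LinearIndependent F
      (fun x : I => v x)) := fun I => IndepMatroid.matroid_indep_iff
  have hEM : ((Finset.range K : Finset ℕ) : Set ℕ) = IM.matroid.E := rfl
  refine ⟨IM.matroid, ⟨hE⟩, ⟨w, v, hind⟩, ?_, ?_, Finset.range K, hEM, ?_⟩
  · refine ⟨1, ⊥, fun _ => 0, ?_, ?_⟩
    · rw [SimpleGraph.isTree_iff]
      refine ⟨?_, ?_⟩
      · exact ⟨fun a b => by rw [Subsingleton.elim a b]⟩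
      · exact SimpleGraph.isAcyclic_bot
    · intro u
      simp only [SimpleGraph.bot_adj, Finset.filter_false, Finset.sum_empty, Finset.card_empty,
        zero_mul, zero_add, add_zero]
      rw [D2.rks_eq_finrank F v hind _ (by rw [← hEM]; exact Finset.finite_toSet _)
          (Set.Subset.refl _)]
      exact (Submodule.finrank_le _).trans (by rw [Module.finrank_fin_fun])
  · intro e he
    have heK : e < K := Finset.mem_range.1 (by exact_mod_cast he)
    rw [hind]
    refine ⟨Set.singleton_subset_iff.2 he, ?_⟩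
    exact (linearIndepOn_singleton_iff F).2 (hv0 e heK)
  · refine TwSharpAux.chf_pow_zero F (Finset.range K) hEM v hind (w - 1) fun φ => ?_
    have hker : LinearMap.ker (LinearMap.pi φ) ≠ ⊥ := by
      apply LinearMap.ker_ne_bot_of_finrank_lt
      rw [Module.finrank_fin_fun, Module.finrank_fin_fun]
      omega
    obtain ⟨x, hx, hx0⟩ := (Submodule.ne_bot_iff _).1 hker
    obtain ⟨i, hi, rfl⟩ := hvs x hx0
    refine ⟨i, Finset.mem_range.2 hi, fun j => ?_⟩
    exact congrFun (LinearMap.mem_ker.1 hx) j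

end Pool.Agent.Lib.MP_4a8162_co
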